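import Pool.Agent.Work.MP_375441_an.Hol.Defs

/-!
# Module KapG: the truncation factor `κ_ε(|u|²)`

`KK ε u x = kape ε (nu u x)`.  Proofs.  `nu u` is smooth (`ContDiff.norm_sq ℝ`), and
`∂_i (nu u) = 2 ∑_a Re(conj(u_a) ∂_i u_a)`, so `|∂_i nu u|² ≤ 4 nu u ∑_a ‖∂_i u_a‖²` (Cauchy-Schwarz)
and `gs1 (KK ε u) = (deriv (kape ε) (nu u x))² ∑_i |∂_i nu u|² ≤ 4 (deriv (kape ε) t)² t gsq u`
with `t = nu u x`.
(KK_gs1) multiply by `t` and use `0 ≤ t deriv (kape ε) t ≤ 4 M₀` (`kape_mul_deriv`,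
`kape_deriv_nonneg`).
(KK_gs1_zero) for `t < ε²` and for `t > 4ε²` the function `kap` is constant near `t/ε²`; at
`t = 4ε²` the function `kap` has a maximum at `t/ε² = 4` (`kap_mem`, `kap_one`), so its derivative
vanishes (`IsLocalMax.deriv_eq_zero`); `kape_deriv`, `kap_deriv_supp`.
(KK_one), (KK_zero): `kap_one`, `kap_zero`.
-/

open MeasureTheory Set Filter Topology Function Metric Module
open scoped ContDiff

namespace Pool.Agent.Work.MP_375441_an.Hol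

open Pool.Agent.Work.MP_375441_an

set_option linter.unusedSectionVars false

variable {n : ℕ} {ι M : Type} [Fintype ι] [Fintype M]

/-- the truncation factor -/
noncomputable def KK (ε : ℝ) (u : ι → Sp n → ℂ) (x : Sp n) : ℂ := ((kape ε (nu u x) : ℝ) : ℂ)

private lemma kapG_nu_smooth {u : ι → Sp n → ℂ} (hu : ∀ a, ContDiff ℝ ∞ (u a)) :
    ContDiff ℝ ∞ (nu u) := by
  unfold nu
  exact ContDiff.sum fun a _ => (hu a).norm_sq ℝ

private lemma kapG_nu_deriv {u : ι → Sp n → ℂ} {x : Sp n} (hu : ∀ a, DifferentiableAt ℝ (u a) x) :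
    HasFDerivAt (nu u) (∑ a, 2 • (innerSL ℝ (u a x)).comp (fderiv ℝ (u a) x)) x := by
  have h1 : HasFDerivAt (fun y => ∑ a, ‖u a y‖ ^ 2)
      (∑ a, 2 • (innerSL ℝ (u a x)).comp (fderiv ℝ (u a) x)) x := by
    apply HasFDerivAt.fun_sum
    intro a _
    exact (hu a).hasFDerivAt.norm_sq
  exact h1

private lemma kapG_bound {u : ι → Sp n → ℂ} {x : Sp n} (hu : ∀ a, DifferentiableAt ℝ (u a) x)
    (v : Sp n) : (fderiv ℝ (nu u) x v) ^ 2 ≤ 4 * (nu u x * ∑ a, ‖pd v (u a) x‖ ^ 2) := by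
  have h1 : fderiv ℝ (nu u) x v = 2 * ∑ a, inner ℝ (u a x) (pd v (u a) x) := by
    rw [(kapG_nu_deriv hu).fderiv, sum_apply, Finset.mul_sum]
    apply Finset.sum_congr rfl
    intro a _
    rw [smul_apply, two_smul, two_mul]
    rfl
  have h2 : |∑ a, inner ℝ (u a x) (pd v (u a) x)| ≤ ∑ a, ‖u a x‖ * ‖pd v (u a) x‖ := by
    refine (Finset.abs_sum_le_sum_abs _ _).trans ?_
    exact Finset.sum_le_sum fun a _ => abs_real_inner_le_norm _ _
  have h3 := Finset.sum_mul_sq_le_sq_mul_sq (Finset.univ : Finset ι)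
    (fun a => ‖u a x‖) (fun a => ‖pd v (u a) x‖)
  have h4 : (∑ a, inner ℝ (u a x) (pd v (u a) x)) ^ 2 ≤
      (∑ a, ‖u a x‖ * ‖pd v (u a) x‖) ^ 2 := by
    rw [← sq_abs]
    exact pow_le_pow_left₀ (abs_nonneg _) h2 2
  rw [h1, mul_pow]
  unfold nu
  nlinarith [h3, h4]

private lemma kapG_pd (ε : ℝ) {u : ι → Sp n → ℂ} (hu : ∀ a, ContDiff ℝ ∞ (u a)) (v x : Sp n) :
    pd v (KK ε u) x = ((deriv (kape ε) (nu u x) * fderiv ℝ (nu u) x v : ℝ) : ℂ) := by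
  have hnu : HasFDerivAt (nu u) (fderiv ℝ (nu u) x) x :=
    ((kapG_nu_smooth hu).differentiable (by simp) x).hasFDerivAt
  have h2 : HasDerivAt (kape ε) (deriv (kape ε) (nu u x)) (nu u x) :=
    ((kape_contDiff ε).differentiable (by simp) _).hasDerivAt
  have h3 := h2.comp_hasFDerivAt x hnu
  have h4 : HasFDerivAt (KK ε u)
      (Complex.ofRealCLM.comp (deriv (kape ε) (nu u x) • fderiv ℝ (nu u) x)) x :=
    Complex.ofRealCLM.hasFDerivAt.comp x h3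
  unfold pd
  rw [h4.fderiv]
  simp

private lemma kapG_gs1 (ε : ℝ) {u : ι → Sp n → ℂ} (hu : ∀ a, ContDiff ℝ ∞ (u a)) (x : Sp n) :
    gs1 (KK ε u) x = deriv (kape ε) (nu u x) ^ 2 * ∑ i, (fderiv ℝ (nu u) x (ee n i)) ^ 2 := by
  unfold gs1
  rw [Finset.mul_sum]
  apply Finset.sum_congr rfl
  intro i _
  rw [kapG_pd ε hu, Complex.norm_real, Real.norm_eq_abs, sq_abs, mul_pow]

theorem KK_smooth (ε : ℝ) {u : ι → Sp n → ℂ} (hu : ∀ a, ContDiff ℝ ∞ (u a)) :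
    ContDiff ℝ ∞ (KK ε u) :=
  Complex.ofRealCLM.contDiff.comp ((kape_contDiff ε).comp (kapG_nu_smooth hu))

theorem KK_le (ε : ℝ) (u : ι → Sp n → ℂ) (x : Sp n) : ‖KK ε u x‖ ≤ 1 := by
  unfold KK
  rw [Complex.norm_real, Real.norm_eq_abs, abs_of_nonneg (kape_mem _ _).1]
  exact (kape_mem _ _).2

theorem KK_gs1 {M₀ : ℝ} (hM₀ : ∀ t, deriv kap t ≤ M₀) {ε : ℝ} (hε : 0 < ε) {u : ι → Sp n → ℂ}
    (hu : ∀ a, ContDiff ℝ ∞ (u a)) (x : Sp n) :
    gs1 (KK ε u) x * nu u x ≤ 64 * M₀ ^ 2 * gsq u x := by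
  have hnu0 : 0 ≤ nu u x := Finset.sum_nonneg fun _ _ => sq_nonneg _
  have hd0 := kape_deriv_nonneg ε (nu u x)
  have hd1 := kape_mul_deriv hM₀ hε hnu0
  have hgs0 : 0 ≤ gsq u x := Finset.sum_nonneg fun _ _ => Finset.sum_nonneg fun _ _ => sq_nonneg _
  have h1 : ∑ i, (fderiv ℝ (nu u) x (ee n i)) ^ 2 ≤ 4 * (nu u x * gsq u x) := by
    unfold gsq
    rw [Finset.mul_sum, Finset.mul_sum]
    apply Finset.sum_le_sum
    intro i _
    exact kapG_bound (fun a => (hu a).differentiable (by simp) x) _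
  have h2 : (nu u x * deriv (kape ε) (nu u x)) ^ 2 ≤ (4 * M₀) ^ 2 :=
    pow_le_pow_left₀ (mul_nonneg hnu0 hd0) hd1 2
  rw [kapG_gs1 ε hu]
  calc deriv (kape ε) (nu u x) ^ 2 * (∑ i, (fderiv ℝ (nu u) x (ee n i)) ^ 2) * nu u x
      ≤ deriv (kape ε) (nu u x) ^ 2 * (4 * (nu u x * gsq u x)) * nu u x := by
        apply mul_le_mul_of_nonneg_right _ hnu0
        exact mul_le_mul_of_nonneg_left h1 (sq_nonneg _)
    _ = 4 * (nu u x * deriv (kape ε) (nu u x)) ^ 2 * gsq u x := by ring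
    _ ≤ 4 * (4 * M₀) ^ 2 * gsq u x := by
        apply mul_le_mul_of_nonneg_right _ hgs0
        linarith
    _ = 64 * M₀ ^ 2 * gsq u x := by ring

theorem KK_gs1_zero {ε : ℝ} (hε : 0 < ε) {u : ι → Sp n → ℂ} (hu : ∀ a, ContDiff ℝ ∞ (u a))
    {x : Sp n} (h : ¬ (ε ^ 2 ≤ nu u x ∧ nu u x < (2 * ε) ^ 2)) : gs1 (KK ε u) x = 0 := by
  have hε2 : 0 < ε ^ 2 := by positivity
  have hd : deriv (kape ε) (nu u x) = 0 := by
    by_contra hne
    rw [kape_deriv] at hne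
    have h1 : deriv kap (nu u x / ε ^ 2) ≠ 0 := fun h0 => hne (by simp [h0])
    have h2 := kap_deriv_supp h1
    have h3 : ε ^ 2 ≤ nu u x := by
      have := h2.1
      rw [le_div_iff₀ hε2, one_mul] at this
      exact this
    have h4 : nu u x / ε ^ 2 = 4 := by
      apply le_antisymm h2.2
      rw [le_div_iff₀ hε2]
      have : ¬ nu u x < (2 * ε) ^ 2 := fun hlt => h ⟨h3, hlt⟩
      push Not at this
      linarith [this, (by ring : (2 * ε) ^ 2 = 4 * ε ^ 2)]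
    apply h1
    rw [h4]
    apply IsLocalMax.deriv_eq_zero
    apply Filter.Eventually.of_forall
    intro y
    rw [kap_one (le_refl 4)]
    exact (kap_mem y).2
  rw [kapG_gs1 ε hu, hd]
  simp

theorem KK_one {ε : ℝ} (hε : 0 < ε) {u : ι → Sp n → ℂ} {x : Sp n} (h : (2 * ε) ^ 2 ≤ nu u x) :
    KK ε u x = 1 := by
  unfold KK kape
  rw [kap_one]
  · simp
  · rw [le_div_iff₀ (by positivity)]
    linarith [h, (by ring : (2 * ε) ^ 2 = 4 * ε ^ 2)]

theorem KK_zero {ε : ℝ} (hε : 0 < ε) {u : ι → Sp n → ℂ} {x : Sp n} (h : nu u x ≤ ε ^ 2) :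
    KK ε u x = 0 := by
  unfold KK kape
  rw [kap_zero]
  · simp
  · rw [div_le_one (by positivity)]
    exact h

end Pool.Agent.Work.MP_375441_an.Hol
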