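import Pool.Agent.Work.MP_375441_an.Hol.ProdR
import Pool.Agent.Work.MP_375441_an.Hol.KapG

/-!
# Module Hole: the hole filling inequality

Proof.  `λ = η * KK ε u`, `v_a = λ u_a`: tests supported in `U`, so `τ ∫ gsq v ≤ ∫ lsq c v`.
Pointwise (`lsq_prod`, `gs1_prod`, `KK_gs1`, `KK_gs1_zero`), at `x ∈ tsupport η ⊆ U`:
`gs1 λ * nu u ≤ 2 gs1 η S + 2 ‖η‖² (64 M₀² gsq u) 1_{ε² ≤ nu u < 4ε²}` (for the first term
`‖KK‖ ≤ 1`), and `‖λ‖² lsq c u ≤ ‖η‖² C₂` (if `KK ≠ 0` then `nu u > ε²`), so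
`lsq c v ≤ 2 C₂ ‖η‖² + 4 K₁ S gs1 η + 256 K₁ M₀² ‖η‖² gsq u 1_{ε² ≤ nu u < 4ε²}`; outside
`tsupport η` everything vanishes.
`gsq_prod`, on `{4ε² ≤ nu u}` (`KK_one`): `gsq v ≥ ½ ‖η‖² gsq u - 2 S gs1 η`; elsewhere
`gsq v ≥ 0`.  Integrate (`∫_{ε² ≤ nu u < 4ε²} ‖η‖² gsq u = AA η u ε - AA η u (2ε)`):
`τ (½ AA(2ε) - 2 S ∫ gs1 η) ≤ 2 C₂ ∫ ‖η‖² + 4 K₁ S ∫ gs1 η + 256 K₁ M₀² (AA ε - AA (2ε))`.
So `C₄ = 4 S ∫ gs1 η + (2/τ) (2 C₂ ∫ ‖η‖² + 4 K₁ S ∫ gs1 η)` works (`AA_anti` to enlarge `C₃`).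
-/

open MeasureTheory Set Filter Topology Function Metric Module
open scoped ContDiff

namespace Pool.Agent.Work.MP_375441_an.Hol

open Pool.Agent.Work.MP_375441_an

set_option linter.unusedSectionVars false

variable {n : ℕ} {ι M : Type} [Fintype ι] [Fintype M]

variable {c : M → Fin n → ι → Sp n → ℂ}

private lemma hole_cont_pd {f : Sp n → ℂ} (hf : ContDiff ℝ ∞ f) (v : Sp n) :
    Continuous (pd v f) :=
  (pd_contDiff (m := 0) v hf (by simp)).continuous

private lemma hole_cont_nu {u : ι → Sp n → ℂ} (hu : ∀ a, ContDiff ℝ ∞ (u a)) :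
    Continuous (nu u) := by
  unfold nu
  exact continuous_finsetSum _ fun a _ => ((hu a).continuous.norm).pow 2

private lemma hole_cont_gsq {u : ι → Sp n → ℂ} (hu : ∀ a, ContDiff ℝ ∞ (u a)) :
    Continuous (gsq u) := by
  unfold gsq
  exact continuous_finsetSum _ fun i _ => continuous_finsetSum _ fun a _ =>
    ((hole_cont_pd (hu a) _).norm).pow 2

private lemma hole_cont_gs1 {lam : Sp n → ℂ} (hu : ContDiff ℝ ∞ lam) :
    Continuous (gs1 lam) := by
  unfold gs1
  exact continuous_finsetSum _ fun i _ => ((hole_cont_pd hu _).norm).pow 2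

private lemma hole_cont_lsq (hc : ∀ m i a, Continuous (c m i a)) {u : ι → Sp n → ℂ}
    (hu : ∀ a, ContDiff ℝ ∞ (u a)) : Continuous (lsq c u) := by
  unfold lsq Lop
  exact continuous_finsetSum _ fun m _ => (Continuous.norm (continuous_finsetSum _ fun i _ =>
    continuous_finsetSum _ fun a _ => (hc m i a).mul (hole_cont_pd (hu a) _))).pow 2

private lemma hole_integrable {f : Sp n → ℝ} (hf : Continuous f) {K : Set (Sp n)}
    (hK : IsCompact K) (h0 : ∀ x, x ∉ K → f x = 0) : Integrable f :=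
  hf.integrable_of_hasCompactSupport (HasCompactSupport.intro hK h0)

private lemma hole_intF {η : Sp n → ℂ} {U : Set (Sp n)} (hη : IsTest U η) {u : ι → Sp n → ℂ}
    (hu : ∀ a, ContDiff ℝ ∞ (u a)) : Integrable (fun x => ‖η x‖ ^ 2 * gsq u x) := by
  refine hole_integrable (((hη.smooth.continuous.norm).pow 2).mul (hole_cont_gsq hu)) hη.comp ?_
  intro x hx
  rw [image_eq_zero_of_notMem_tsupport hx]
  simp

/-- `AA η u` is antitone in `ε > 0` -/
theorem AA_anti {η : Sp n → ℂ} {U : Set (Sp n)} (hη : IsTest U η) {u : ι → Sp n → ℂ}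
    (hu : ∀ a, ContDiff ℝ ∞ (u a)) {ε ε' : ℝ} (hε : 0 ≤ ε) (h : ε ≤ ε') :
    AA η u ε' ≤ AA η u ε := by
  unfold AA
  refine setIntegral_mono_set (hole_intF hη hu).integrableOn ?_ ?_
  · exact Eventually.of_forall fun x => mul_nonneg (sq_nonneg _) (gsq_nonneg u x)
  · refine LE.le.eventuallyLE fun x hx => ?_
    simp only [mem_ofPred_eq] at hx ⊢
    exact (pow_le_pow_left₀ hε h 2).trans hx

theorem AA_nonneg (η : Sp n → ℂ) (u : ι → Sp n → ℂ) (ε : ℝ) : 0 ≤ AA η u ε := by
  unfold AA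
  exact integral_nonneg fun x => mul_nonneg (sq_nonneg _) (gsq_nonneg u x)

theorem hole {M₀ : ℝ} (hM₀ : ∀ t, deriv kap t ≤ M₀) (hc : ∀ m i a, Continuous (c m i a))
    {U : Set (Sp n)} {τ : ℝ} (hτ : 0 < τ) (hco : Coer c U τ) {K₁ : ℝ}
    (hK₁ : ∀ x ∈ U, ksq (fun m i a => c m i a x) ≤ K₁) {η : Sp n → ℂ} (hη : IsTest U η)
    (hη1 : ∀ x, ‖η x‖ ≤ 1) {S C₂ C₃ : ℝ} (hS : 0 ≤ S) (hC₂ : 0 ≤ C₂)
    (hC₃ : 512 * M₀ ^ 2 * K₁ / τ ≤ C₃) :
    ∃ C₄, 0 ≤ C₄ ∧ ∀ u : ι → Sp n → ℂ, (∀ a, ContDiff ℝ ∞ (u a)) → (∀ x, nu u x ≤ S) →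
      ∀ ε, 0 < ε → (∀ x ∈ U, ε ^ 2 ≤ nu u x → lsq c u x ≤ C₂) →
      AA η u (2 * ε) ≤ C₄ + C₃ * (AA η u ε - AA η u (2 * ε)) := by
  by_cases hU : U.Nonempty
  swap
  · rw [not_nonempty_iff_eq_empty] at hU
    have h0 : ∀ x, η x = 0 := fun x => by
      by_contra hx
      have := hη.supp (subset_tsupport _ (mem_support.mpr hx))
      rw [hU] at this
      exact this
    refine ⟨0, le_rfl, fun u _ _ ε _ _ => ?_⟩
    have h1 : ∀ ε, AA η u ε = 0 := fun ε => by
      unfold AA
      simp [h0]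
    rw [h1, h1]
    simp
  obtain ⟨y, hy⟩ := hU
  have hksq : ∀ x, 0 ≤ ksq (fun m i a => c m i a x) := fun x => by
    unfold ksq
    exact Finset.sum_nonneg fun m _ => Finset.sum_nonneg fun i _ => Finset.sum_nonneg fun a _ =>
      sq_nonneg _
  have hK0 : 0 ≤ K₁ := (hksq y).trans (hK₁ y hy)
  have hI₁n : 0 ≤ ∫ x, gs1 η x := integral_nonneg fun x => gs1_nonneg η x
  have hI₀n : 0 ≤ ∫ x, ‖η x‖ ^ 2 := integral_nonneg fun x => sq_nonneg _
  set I₁ := ∫ x, gs1 η x with hI₁
  set I₀ := ∫ x, ‖η x‖ ^ 2 with hI₀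
  refine ⟨4 * S * I₁ + (2 / τ) * (2 * C₂ * I₀ + 4 * K₁ * S * I₁), by positivity,
    fun u hu hnu ε hε hsol => ?_⟩
  set A : Set (Sp n) := {x | ε ^ 2 ≤ nu u x} with hA
  set B : Set (Sp n) := {x | (2 * ε) ^ 2 ≤ nu u x} with hB
  have hAm : MeasurableSet A := (isClosed_le continuous_const (hole_cont_nu hu)).measurableSet
  have hBm : MeasurableSet B := (isClosed_le continuous_const (hole_cont_nu hu)).measurableSet
  have hBA : B ⊆ A := fun x hx => by
    simp only [hA, hB, mem_ofPred_eq] at hx ⊢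
    nlinarith [sq_nonneg ε]
  set F : Sp n → ℝ := fun x => ‖η x‖ ^ 2 * gsq u x with hF
  have hFn : ∀ x, 0 ≤ F x := fun x => mul_nonneg (sq_nonneg _) (gsq_nonneg u x)
  have hFi : Integrable F := hole_intF hη hu
  have hgi : Integrable (gs1 η) :=
    hole_integrable (hole_cont_gs1 hη.smooth) hη.comp fun x hx => gs1_zero hx
  have hηi : Integrable (fun x => ‖η x‖ ^ 2) :=
    hole_integrable ((hη.smooth.continuous.norm).pow 2) hη.comp fun x hx => by
      rw [image_eq_zero_of_notMem_tsupport hx]; simp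
  have hAA1 : AA η u ε = ∫ x, A.indicator F x := by
    rw [integral_indicator hAm]; rfl
  have hAA2 : AA η u (2 * ε) = ∫ x, B.indicator F x := by
    rw [integral_indicator hBm]; rfl
  have hKs : ContDiff ℝ ∞ (KK ε u) := KK_smooth ε hu
  set lam : Sp n → ℂ := fun x => KK ε u x * η x with hlam
  have hlt : IsTest U lam := hη.mul_left isOpen_univ (subset_univ _) hKs.contDiffOn
  set v : ι → Sp n → ℂ := fun a y => lam y * u a y with hv
  have hvt : ∀ a, IsTest U (v a) := fun a => by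
    have := hlt.mul_left isOpen_univ (subset_univ _) (hu a).contDiffOn
    have h2 : v a = fun x => u a x * lam x := by
      funext x; simp only [hv]; ring
    rw [h2]; exact this
  have hlts : tsupport lam ⊆ tsupport η := tsupport_mul_subset_right' _ _
  have hdl : ∀ x, DifferentiableAt ℝ lam x := fun x => hlt.smooth.differentiable (by simp) x
  have hdu : ∀ x a, DifferentiableAt ℝ (u a) x := fun x a => (hu a).differentiable (by simp) x
  have hdK : ∀ x, DifferentiableAt ℝ (KK ε u) x := fun x => hKs.differentiable (by simp) x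
  have hdη : ∀ x, DifferentiableAt ℝ η x := fun x => hη.smooth.differentiable (by simp) x
  have hzero : ∀ x, x ∉ tsupport lam → ∀ i a, pd (ee n i) (v a) x = 0 := fun x hx i a => by
    apply image_eq_zero_of_notMem_tsupport
    intro h
    apply hx
    have h1 := pd_tsupport _ _ h
    exact (tsupport_mul_subset_left (f := lam) (g := u a)) h1
  have hgvi : Integrable (gsq v) :=
    hole_integrable (hole_cont_gsq fun a => (hvt a).smooth) hlt.comp fun x hx => by
      unfold gsq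
      simp [hzero x hx]
  have hlvi : Integrable (lsq c v) :=
    hole_integrable (hole_cont_lsq hc fun a => (hvt a).smooth) hlt.comp fun x hx => by
      unfold lsq Lop
      simp [hzero x hx]
  -- pointwise inequalities
  have hgl : ∀ x, gs1 lam x ≤ 2 * (‖η x‖ ^ 2 * gs1 (KK ε u) x) + 2 * gs1 η x := fun x => by
    have h := gs1_prod (hdK x) (hdη x)
    have h1 : ‖KK ε u x‖ ^ 2 ≤ 1 := by
      have := KK_le ε u x
      nlinarith [norm_nonneg (KK ε u x)]
    have h2 : ‖KK ε u x‖ ^ 2 * gs1 η x ≤ gs1 η x := by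
      nlinarith [gs1_nonneg η x]
    calc gs1 lam x ≤ _ := h
      _ ≤ _ := by linarith
  have hp1 : ∀ x, lsq c v x ≤ 2 * C₂ * ‖η x‖ ^ 2 + 4 * K₁ * S * gs1 η x +
      256 * K₁ * M₀ ^ 2 * (A.indicator F x - B.indicator F x) := fun x => by
    have hind : 0 ≤ A.indicator F x - B.indicator F x := by
      have := indicator_le_indicator_of_subset hBA (Pi.le_def.mpr hFn) x
      linarith
    have hR : 0 ≤ 256 * K₁ * M₀ ^ 2 * (A.indicator F x - B.indicator F x) := by positivity
    have hl := lsq_prod c (hdl x) (hdu x)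
    by_cases hx : x ∈ tsupport η
    · have hxU : x ∈ U := hη.supp hx
      have hk := hK₁ x hxU
      have h1 : ‖lam x‖ ^ 2 * lsq c u x ≤ C₂ * ‖η x‖ ^ 2 := by
        by_cases h0 : KK ε u x = 0
        · have : lam x = 0 := by simp [hlam, h0]
          rw [this]
          simp only [norm_zero]
          have : 0 ≤ C₂ * ‖η x‖ ^ 2 := by positivity
          simpa using this
        · have h2 : ε ^ 2 ≤ nu u x := by
            by_contra h3
            push Not at h3
            exact h0 (KK_zero hε h3.le)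
          have h3 := hsol x hxU h2
          have h4 : ‖lam x‖ ^ 2 ≤ ‖η x‖ ^ 2 := by
            have h5 : ‖lam x‖ ≤ ‖η x‖ := by
              simp only [hlam, norm_mul]
              have := KK_le ε u x
              nlinarith [norm_nonneg (KK ε u x), norm_nonneg (η x)]
            exact pow_le_pow_left₀ (norm_nonneg _) h5 2
          have h6 : 0 ≤ lsq c u x := by
            unfold lsq; exact Finset.sum_nonneg fun m _ => sq_nonneg _
          calc ‖lam x‖ ^ 2 * lsq c u x ≤ ‖η x‖ ^ 2 * C₂ :=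
                mul_le_mul h4 h3 h6 (sq_nonneg _)
            _ = _ := mul_comm _ _
      have h2 : gs1 lam x * nu u x ≤ 2 * S * gs1 η x +
          128 * M₀ ^ 2 * (A.indicator F x - B.indicator F x) := by
        have h3 : gs1 (KK ε u) x * nu u x * ‖η x‖ ^ 2 ≤
            64 * M₀ ^ 2 * (A.indicator F x - B.indicator F x) := by
          by_cases h4 : ε ^ 2 ≤ nu u x ∧ nu u x < (2 * ε) ^ 2
          · have h5 : x ∈ A := h4.1
            have h6 : x ∉ B := fun h => absurd h (not_le.mpr h4.2)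
            rw [indicator_of_mem h5, indicator_of_notMem h6]
            have h7 := mul_le_mul_of_nonneg_right (KK_gs1 hM₀ hε hu x) (sq_nonneg ‖η x‖)
            simp only [hF]
            linarith
          · rw [KK_gs1_zero hε hu h4]
            have : 0 ≤ 64 * M₀ ^ 2 * (A.indicator F x - B.indicator F x) := by positivity
            simpa using this
        have h4 := mul_le_mul_of_nonneg_right (hgl x) (nu_nonneg u x)
        have h5 : gs1 η x * nu u x ≤ S * gs1 η x := by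
          rw [mul_comm]
          exact mul_le_mul_of_nonneg_right (hnu x) (gs1_nonneg η x)
        nlinarith
      have h3 : ksq (fun m i a => c m i a x) * (gs1 lam x * nu u x) ≤
          K₁ * (2 * S * gs1 η x + 128 * M₀ ^ 2 * (A.indicator F x - B.indicator F x)) :=
        mul_le_mul hk h2 (mul_nonneg (gs1_nonneg _ _) (nu_nonneg _ _)) hK0
      calc lsq c v x ≤ _ := hl
        _ ≤ _ := by nlinarith
    · have h1 : lam x = 0 := by
        simp [hlam, image_eq_zero_of_notMem_tsupport hx]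
      have h2 : gs1 lam x = 0 := gs1_zero fun h => hx (hlts h)
      rw [h1, h2] at hl
      have h3 : lsq c v x ≤ 0 := by
        have : lsq c v x ≤ _ := hl
        simpa using this
      have h4 : 0 ≤ 2 * C₂ * ‖η x‖ ^ 2 := by positivity
      have h5 : 0 ≤ 4 * K₁ * S * gs1 η x := by
        have := gs1_nonneg η x
        positivity
      linarith
  have hp2 : ∀ x, 1 / 2 * B.indicator F x - 2 * S * gs1 η x ≤ gsq v x := fun x => by
    by_cases hx : x ∈ B
    · rw [indicator_of_mem hx]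
      have h := gsq_prod (hdl x) (hdu x)
      have h1 : KK ε u x = 1 := KK_one hε hx
      have h2 : gs1 (KK ε u) x = 0 := KK_gs1_zero hε hu fun h => absurd h.2 (not_lt.mpr hx)
      have h3 := hgl x
      rw [h2] at h3
      have h4 : ‖lam x‖ ^ 2 * gsq u x = F x := by
        simp only [hlam, hF, h1, one_mul]
      rw [h4] at h
      have h5 : gs1 lam x * nu u x ≤ 2 * gs1 η x * S := by
        refine mul_le_mul (by linarith) (hnu x) (nu_nonneg _ _) ?_
        have := gs1_nonneg η x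
        positivity
      have h6 : _ ≤ gsq v x := h
      linarith
    · rw [indicator_of_notMem hx]
      have h1 := gsq_nonneg v x
      have h2 : 0 ≤ 2 * S * gs1 η x := by
        have := gs1_nonneg η x
        positivity
      linarith
  -- integrate
  have hAi : Integrable (A.indicator F) := hFi.indicator hAm
  have hBi : Integrable (B.indicator F) := hFi.indicator hBm
  have hint1 : ∫ x, lsq c v x ≤ 2 * C₂ * I₀ + 4 * K₁ * S * I₁ +
      256 * K₁ * M₀ ^ 2 * (AA η u ε - AA η u (2 * ε)) := by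
    have h := integral_mono hlvi (((hηi.const_mul (2 * C₂)).add
      (hgi.const_mul (4 * K₁ * S))).add ((hAi.sub hBi).const_mul (256 * K₁ * M₀ ^ 2))) hp1
    refine h.trans (le_of_eq ?_)
    rw [integral_add' ((hηi.const_mul (2 * C₂)).add (hgi.const_mul (4 * K₁ * S)))
      ((hAi.sub hBi).const_mul (256 * K₁ * M₀ ^ 2)), integral_add'
      (hηi.const_mul (2 * C₂)) (hgi.const_mul (4 * K₁ * S)), integral_const_mul,
      integral_const_mul, integral_const_mul, integral_sub' hAi hBi, hAA1, hAA2]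
  have hint2 : 1 / 2 * AA η u (2 * ε) - 2 * S * I₁ ≤ ∫ x, gsq v x := by
    have h := integral_mono ((hBi.const_mul (1 / 2)).sub (hgi.const_mul (2 * S))) hgvi hp2
    refine le_trans (le_of_eq ?_) h
    rw [integral_sub' (hBi.const_mul (1 / 2)) (hgi.const_mul (2 * S)), integral_const_mul,
      integral_const_mul, hAA2]
  have hcoer := hco v hvt
  have hD : 0 ≤ AA η u ε - AA η u (2 * ε) := by
    have := AA_anti hη hu hε.le (by linarith : ε ≤ 2 * ε)
    linarith
  have hfin : τ * (1 / 2 * AA η u (2 * ε) - 2 * S * I₁) ≤ 2 * C₂ * I₀ + 4 * K₁ * S * I₁ +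
      256 * K₁ * M₀ ^ 2 * (AA η u ε - AA η u (2 * ε)) :=
    (mul_le_mul_of_nonneg_left hint2 hτ.le).trans (hcoer.trans hint1)
  have h2 : AA η u (2 * ε) ≤ 4 * S * I₁ + (2 / τ) * (2 * C₂ * I₀ + 4 * K₁ * S * I₁) +
      512 * M₀ ^ 2 * K₁ / τ * (AA η u ε - AA η u (2 * ε)) := by
    have h3 : 4 * S * I₁ + (2 / τ) * (2 * C₂ * I₀ + 4 * K₁ * S * I₁) +
      512 * M₀ ^ 2 * K₁ / τ * (AA η u ε - AA η u (2 * ε)) = 4 * S * I₁ + (2 / τ) *
      (2 * C₂ * I₀ + 4 * K₁ * S * I₁ + 256 * K₁ * M₀ ^ 2 * (AA η u ε - AA η u (2 * ε))) := by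
      ring
    rw [h3]
    have h4 := mul_le_mul_of_nonneg_left hfin (by positivity : (0:ℝ) ≤ 2 / τ)
    have h5 : 2 / τ * (τ * (1 / 2 * AA η u (2 * ε) - 2 * S * I₁)) =
        AA η u (2 * ε) - 4 * S * I₁ := by
      field_simp
      ring
    rw [h5] at h4
    linarith
  have h3 := mul_le_mul_of_nonneg_right hC₃ hD
  linarith

end Pool.Agent.Work.MP_375441_an.Hol
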