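import Pool.Agent.Work.MP_375441_an.Hol.Defs

/-!
# Module Mo: elementary facts about the mollification

Proofs.  (mo_smooth) `mol_contDiff`.  (mo_bd) `‖mol δ g_a x‖ ≤ sup ‖g_a‖` (`mol_eq`,
`norm_integral_le_of_norm_le`, `rho_nonneg`, `rho_integral`, `integral_sub_left_eq_self`).
(mo_nz) Let `N = card ι`; if `N = 0` then `nu = 0 < ε²`.  Otherwise `g_a` is uniformly continuous; take
`δ₀` with `‖g a y - g a y'‖ ≤ ε/(4N)` for `dist y y' ≤ 2 δ₀`, `a` arbitrary.  Some `a` has
`‖mo g δ a x‖ ≥ ε/√N ≥ ε/N`; `mol_dist`: `‖mo g δ a x - g a x‖ ≤ ε/(4N)`, so for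
`y ∈ closedBall x δ`, `‖g a y‖ ≥ ε/N - ε/(2N) > 0`.
-/

open MeasureTheory Set Filter Topology Function Metric Module
open scoped ContDiff

namespace Pool.Agent.Work.MP_375441_an.Hol

open Pool.Agent.Work.MP_375441_an

set_option linter.unusedSectionVars false

variable {n : ℕ} {ι M : Type} [Fintype ι] [Fintype M]

theorem mo_smooth {g : ι → Sp n → ℂ} (hg : ∀ a, Continuous (g a)) {δ : ℝ} (hδ : 0 < δ) (a : ι) :
    ContDiff ℝ ∞ (mo g δ a) :=
  mol_contDiff volume hδ (hg a)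

theorem mo_bd {g : ι → Sp n → ℂ} (hg : ∀ a, Continuous (g a))
    (hk : ∀ a, HasCompactSupport (g a)) :
    ∃ S, 0 ≤ S ∧ ∀ δ, 0 < δ → ∀ x, nu (mo g δ) x ≤ S := by
  have h1 : ∀ a, ∃ C, ∀ x, ‖g a x‖ ≤ C := fun a => (hk a).exists_bound_of_continuous (hg a)
  choose C hC using h1
  refine ⟨∑ a, (3 * C a) ^ 2, Finset.sum_nonneg fun a _ => sq_nonneg _, ?_⟩
  intro δ hδ x
  apply Finset.sum_le_sum
  intro a _
  have h2 : 0 ≤ C a := le_trans (norm_nonneg _) (hC a x)
  have h3 : dist (mol volume δ (g a) x) (g a x) ≤ 2 * C a := by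
    apply mol_dist volume hδ (hg a) (by linarith)
    intro y _
    rw [dist_eq_norm]
    have := norm_sub_le (g a y) (g a x)
    have := hC a y
    have := hC a x
    linarith
  rw [dist_eq_norm] at h3
  have h4 : ‖mol volume δ (g a) x‖ ≤ 3 * C a := by
    have h5 := norm_sub_norm_le (mol volume δ (g a) x) (g a x)
    have := hC a x
    linarith
  exact pow_le_pow_left₀ (norm_nonneg _) h4 2

theorem mo_nz {g : ι → Sp n → ℂ} (hg : ∀ a, Continuous (g a))
    (hk : ∀ a, HasCompactSupport (g a)) {ε : ℝ} (hε : 0 < ε) :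
    ∃ δ₀ > 0, ∀ δ, 0 < δ → δ ≤ δ₀ → ∀ x, ε ^ 2 ≤ nu (mo g δ) x → closedBall x δ ⊆ Nz g := by
  rcases isEmpty_or_nonempty ι with he | hne
  · refine ⟨1, one_pos, ?_⟩
    intro δ _ _ x hx
    exfalso
    unfold nu at hx
    rw [Finset.univ_eq_empty, Finset.sum_empty] at hx
    have := pow_pos hε 2
    linarith
  · have hN : (0 : ℝ) < Fintype.card ι := by exact_mod_cast Fintype.card_pos
    have hN1 : (1 : ℝ) ≤ Fintype.card ι := by exact_mod_cast Fintype.card_pos
    set N : ℝ := (Fintype.card ι : ℝ) with hNdef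
    set r : ℝ := ε / (4 * N) with hr
    have hr0 : 0 < r := by positivity
    have h1 : ∀ a, ∃ d > 0, ∀ δ, 0 < δ → δ ≤ d → ∀ x,
        dist (mol volume δ (g a) x) (g a x) ≤ r ∧ ∀ y ∈ closedBall x δ, dist (g a y) (g a x) ≤ r := by
      intro a
      obtain ⟨d₁, hd₁, h1⟩ := mol_unif volume (hg a) (hk a) hr0
      have hu : UniformContinuous (g a) := (hg a).uniformContinuous_of_tendsto_cocompact
        (hk a).is_zero_at_infty
      obtain ⟨d₂, hd₂, h2⟩ := Metric.uniformContinuous_iff.mp hu r hr0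
      refine ⟨min d₁ (d₂ / 2), by positivity, ?_⟩
      intro δ hδ hle x
      refine ⟨h1 δ hδ (le_trans hle (min_le_left _ _)) x, ?_⟩
      intro y hy
      apply le_of_lt
      apply h2
      have h3 := le_trans hle (min_le_right _ _)
      rw [mem_closedBall] at hy
      linarith
    choose d hd h1 using h1
    obtain ⟨a₀, ha₀⟩ := Finite.exists_min d
    refine ⟨d a₀, hd a₀, ?_⟩
    intro δ hδ hle x hx
    have h2 : ∑ _a : ι, ε ^ 2 / N ≤ ∑ a, ‖mo g δ a x‖ ^ 2 := by
      rw [Finset.sum_const, Finset.card_univ, nsmul_eq_mul, mul_div_cancel₀ _ hN.ne']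
      exact hx
    obtain ⟨a, -, ha⟩ := Finset.exists_le_of_sum_le Finset.univ_nonempty h2
    have h3 : ε / N ≤ ‖mo g δ a x‖ := by
      have h4 : (ε / N) ^ 2 ≤ ‖mo g δ a x‖ ^ 2 := by
        refine le_trans ?_ ha
        rw [div_pow]
        apply div_le_div_of_nonneg_left (by positivity) hN
        nlinarith
      exact (pow_le_pow_iff_left₀ (by positivity) (norm_nonneg _) (by norm_num)).1 h4
    obtain ⟨h5, h6⟩ := h1 a δ hδ (le_trans hle (ha₀ a)) x
    intro y hy
    refine ⟨a, ?_⟩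
    have h7 := h6 y hy
    rw [dist_eq_norm] at h5 h7
    have h8 : ε / N = 4 * r := by rw [hr]; field_simp
    rw [h8] at h3
    intro h0
    rw [h0, zero_sub, norm_neg] at h7
    have h9 := norm_sub_norm_le (mol volume δ (g a) x) (g a x)
    have h10 : mo g δ a x = mol volume δ (g a) x := rfl
    rw [h10] at h3
    linarith

end Pool.Agent.Work.MP_375441_an.Hol
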