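import Pool.Agent.Work.MP_375441_an.Hol.ProdR
import Pool.Agent.Work.MP_375441_an.Hol.KapG
import Pool.Agent.Work.MP_375441_an.Hol.Hole
import Pool.Agent.Work.MP_375441_an.Hol.Mo

/-!
# Module Fin: the functional is controlled by the energy in `ε ≤ |u| < 2ε`

Proof.  Let `N = card ι`, `u = mo g δ` with `δ ≤ δ₀(ε)` so small that `‖u a x - g a x‖ ≤ ε/(4N+4)`
for all `x, a` (`mol_unif`).  Put `K = KK ε u` (smooth).  `φ = φ K + φ (1 - K)`.
(1) `φ K` is a test on `Nz g ∩ V`: where `K x ≠ 0`, `nu u x > ε²`; on `tsupport (φ K)` we have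
`nu u x ≥ ε²`, so some `‖u a x‖ ≥ ε/√N`, hence `g a x ≠ 0` (if `N = 0` then `nu u = 0 < ε²` and the
support is empty).  So `TT c d g m (φ K) = 0`, and `TT c d g m φ = TT c d g m (φ (1 - K))`
(`TF_add` in Loc.lean with `O = univ`).
(2) `TT (φ (1-K)) = ∫ (HH φ (1-K) - ∑_i GG_i ((1-K) ∂_i φ - φ ∂_i K))`.  Where `1 - K ≠ 0`:
`nu u < 4ε²`, so `‖g a x‖ ≤ 3ε` and `‖HH‖, ‖GG_i‖ ≤ C ε` (bounded coefficients): these parts
contribute `≤ C ε` (`φ`, `∂_i φ` are integrable).
(3) `∫ ‖GG_i φ ∂_i K‖`: `∂_i K ≠ 0` only where `ε² ≤ nu u < 4 ε²`, there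
`‖g a x‖ ≤ ‖u a x‖ + ε ≤ 2 √(nu u)`, so `‖GG_i ∂_i K‖ ≤ C √(nu u) √(gs1 K) ≤ C (8 M₀) √(gsq u)`
(`KK_gs1`), and Cauchy-Schwarz with `‖φ‖ ≤ S_φ ‖η‖` (`η = 1` on `tsupport φ`):
`∫_{ε² ≤ nu u < 4ε²} ‖φ‖ √(gsq u) ≤ (∫ ‖φ‖²)^{1/2} (∫_{ε² ≤ nu u < 4ε²} ‖η‖² gsq u)^{1/2}`
(`‖φ‖ = ‖φ‖ ‖η‖`), the last integral is `AA η u ε - AA η u (2ε)`.
-/

open MeasureTheory Set Filter Topology Function Metric Module
open scoped ContDiff

namespace Pool.Agent.Work.MP_375441_an.Hol

open Pool.Agent.Work.MP_375441_an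

set_option linter.unusedSectionVars false

variable {n : ℕ} {ι M : Type} [Fintype ι] [Fintype M]

private lemma fin_bdd {κ : Type} [Finite κ] {f : κ → Sp n → ℂ} (hf : ∀ k, Continuous (f k))
    (hk : ∀ k, HasCompactSupport (f k)) : ∃ B, 0 ≤ B ∧ ∀ k x, ‖f k x‖ ≤ B := by
  choose C hC using fun k => (hf k).bounded_above_of_compact_support (hk k)
  obtain ⟨B, hB⟩ := Finite.exists_le C
  exact ⟨max B 0, le_max_right _ _, fun k x => (hC k x).trans ((hB k).trans (le_max_left _ _))⟩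

private lemma fin_cont_pd {f : Sp n → ℂ} (hf : ContDiff ℝ ∞ f) (v : Sp n) :
    Continuous (pd v f) :=
  (pd_contDiff (m := 0) v hf (by simp)).continuous

private lemma fin_cont_nu {u : ι → Sp n → ℂ} (hu : ∀ a, ContDiff ℝ ∞ (u a)) :
    Continuous (nu u) := by
  unfold nu
  exact continuous_finsetSum _ fun a _ => ((hu a).continuous.norm).pow 2

private lemma fin_cont_gsq {u : ι → Sp n → ℂ} (hu : ∀ a, ContDiff ℝ ∞ (u a)) :
    Continuous (gsq u) := by
  unfold gsq
  exact continuous_finsetSum _ fun i _ => continuous_finsetSum _ fun a _ =>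
    ((fin_cont_pd (hu a) _).norm).pow 2

private lemma fin_CS {f g : Sp n → ℝ} (hf0 : ∀ x, 0 ≤ f x) (hg0 : ∀ x, 0 ≤ g x)
    (hf : MemLp f 2) (hg : MemLp g 2) :
    ∫ x, f x * g x ≤ √(∫ x, f x ^ 2) * √(∫ x, g x ^ 2) := by
  have hpq : (2:ℝ).HolderConjugate 2 := Real.HolderConjugate.two_two
  have h := integral_mul_le_Lp_mul_Lq_of_nonneg (μ := (volume : Measure (Sp n))) hpq
    (Eventually.of_forall hf0) (Eventually.of_forall hg0)
    (by simpa using hf) (by simpa using hg)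
  simpa [Real.sqrt_eq_rpow] using h

theorem fin_bd {M₀ : ℝ} (hM₀ : ∀ t, deriv kap t ≤ M₀) {g : ι → Sp n → ℂ}
    {c : M → Fin n → ι → Sp n → ℂ} {d : M → ι → Sp n → ℂ}
    (h : Glob g c d) {V W : Set (Sp n)} (hE : Eqn c d g (Nz g ∩ V)) {η : Sp n → ℂ}
    (hη : IsTest W η) {φ : Sp n → ℂ} (hφ : IsTest V φ) (hηφ : ∀ x ∈ tsupport φ, η x = 1) (m : M) :
    ∃ C₇, 0 ≤ C₇ ∧ ∀ ε, 0 < ε → ε ≤ 1 → ∃ δ₀ > 0, ∀ δ, 0 < δ → δ ≤ δ₀ →
      ‖TT c d g m φ‖ ≤ C₇ * ε + C₇ * √(AA η (mo g δ) ε - AA η (mo g δ) (2 * ε)) := by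
  have hM0 : 0 ≤ M₀ := (kap_deriv_nonneg 0).trans (hM₀ 0)
  obtain ⟨B₁, hB₁0, hB₁⟩ := fin_bdd (κ := Fin n × ι) (f := fun k => c m k.1 k.2)
    (fun k => (h.cc m k.1 k.2).continuous) (fun k => h.ck m k.1 k.2)
  obtain ⟨B₂, hB₂0, hB₂⟩ := fin_bdd (κ := ι) (f := fun k => d m k)
    (fun k => h.dc m k) (fun k => h.dk m k)
  set B := max B₁ B₂ with hB
  have hB0 : 0 ≤ B := hB₁0.trans (le_max_left _ _)
  have hcB : ∀ i a x, ‖c m i a x‖ ≤ B := fun i a x => (hB₁ (i, a) x).trans (le_max_left _ _)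
  have hdB : ∀ a x, ‖d m a x‖ ≤ B := fun a x => (hB₂ a x).trans (le_max_right _ _)
  set N : ℝ := (Fintype.card ι : ℝ) with hN
  have hN0 : 0 ≤ N := Nat.cast_nonneg _
  set s : Sp n → ℝ := fun x => ∑ a, ‖g a x‖ with hs
  have hs0 : ∀ x, 0 ≤ s x := fun x => Finset.sum_nonneg fun a _ => norm_nonneg _
  have hGG : ∀ i x, ‖GG c g m i x‖ ≤ B * s x := fun i x => by
    unfold GG
    refine (norm_sum_le _ _).trans ?_
    rw [hs, Finset.mul_sum]
    refine Finset.sum_le_sum fun a _ => ?_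
    rw [norm_mul]
    exact mul_le_mul_of_nonneg_right (hcB i a x) (norm_nonneg _)
  have hHH : ∀ x, ‖HH d g m x‖ ≤ B * s x := fun x => by
    unfold HH
    refine (norm_sum_le _ _).trans ?_
    rw [hs, Finset.mul_sum]
    refine Finset.sum_le_sum fun a _ => ?_
    rw [norm_mul]
    exact mul_le_mul_of_nonneg_right (hdB a x) (norm_nonneg _)
  have hφi : Integrable (fun x => ‖φ x‖) :=
    (hφ.smooth.continuous.integrable_of_hasCompactSupport hφ.comp).norm
  have hpi : ∀ i, Integrable (fun x => ‖pd (ee n i) φ x‖) := fun i =>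
    ((hφ.pd (ee n i)).smooth.continuous.integrable_of_hasCompactSupport
      (hφ.pd (ee n i)).comp).norm
  set Φ₁ : ℝ := ∫ x, (‖φ x‖ + ∑ i, ‖pd (ee n i) φ x‖) with hΦ₁
  set Φ₂ : ℝ := ∫ x, ‖φ x‖ ^ 2 with hΦ₂
  have hΦ₁0 : 0 ≤ Φ₁ := integral_nonneg fun x => by positivity
  set C' : ℝ := 16 * n * B * N * M₀ with hC'
  have hC'0 : 0 ≤ C' := by positivity
  have hX0 : 0 ≤ 3 * N * B * Φ₁ := by positivity
  have hY0 : 0 ≤ C' * √Φ₂ := by positivity
  refine ⟨3 * N * B * Φ₁ + C' * √Φ₂, by positivity, fun ε hε hε1 => ?_⟩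
  obtain ⟨δ₁, hδ₁, hnz⟩ := mo_nz h.gc h.gk hε
  choose δa hδa hua using fun a => mol_unif (volume : Measure (Sp n)) (h.gc a) (h.gk a) hε
  obtain ⟨δ₂, hδ₂, hδ₂a⟩ : ∃ δ₂ > 0, ∀ a, δ₂ ≤ δa a := by
    by_cases hne : Nonempty ι
    · obtain ⟨a₀, ha₀⟩ := Finite.exists_min δa
      exact ⟨δa a₀, hδa a₀, ha₀⟩
    · exact ⟨1, one_pos, fun a => (hne ⟨a⟩).elim⟩
  refine ⟨min δ₁ δ₂, lt_min hδ₁ hδ₂, fun δ hδ hδle => ?_⟩
  have hδ1 : δ ≤ δ₁ := hδle.trans (min_le_left _ _)
  have hδ2 : δ ≤ δ₂ := hδle.trans (min_le_right _ _)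
  set u : ι → Sp n → ℂ := mo g δ with hu_def
  have hu : ∀ a, ContDiff ℝ ∞ (u a) := fun a => mo_smooth h.gc hδ a
  have hclose : ∀ a x, ‖g a x‖ ≤ ‖u a x‖ + ε := fun a x => by
    have h1 := hua a δ hδ (hδ2.trans (hδ₂a a)) x
    rw [dist_eq_norm] at h1
    have h2 : ‖g a x‖ ≤ ‖u a x‖ + ‖mol volume δ (g a) x - g a x‖ := by
      have h3 : g a x = u a x - (mol volume δ (g a) x - g a x) := by
        simp only [hu_def, mo]; ring
      calc ‖g a x‖ = ‖u a x - (mol volume δ (g a) x - g a x)‖ := by rw [← h3]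
        _ ≤ _ := norm_sub_le _ _
    linarith
  set A : Set (Sp n) := {x | ε ^ 2 ≤ nu u x} with hA
  set B' : Set (Sp n) := {x | (2 * ε) ^ 2 ≤ nu u x} with hB'
  have hAc : IsClosed A := isClosed_le continuous_const (fin_cont_nu hu)
  have hAm : MeasurableSet A := hAc.measurableSet
  have hBm : MeasurableSet B' := (isClosed_le continuous_const (fin_cont_nu hu)).measurableSet
  have hBA : B' ⊆ A := fun x hx => by
    simp only [hA, hB', mem_ofPred_eq] at hx ⊢
    nlinarith [sq_nonneg ε]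
  have hKs : ContDiff ℝ ∞ (KK ε u) := KK_smooth ε hu
  have hKd : ∀ x, DifferentiableAt ℝ (KK ε u) x := fun x => hKs.differentiable (by simp) x
  have hK1 : ∀ x, ‖1 - KK ε u x‖ ≤ 1 := fun x => by
    unfold KK
    obtain ⟨h0, h1⟩ := kape_mem ε (nu u x)
    rw [← Complex.ofReal_one, ← Complex.ofReal_sub, Complex.norm_real, Real.norm_eq_abs, abs_le]
    constructor <;> linarith
  set ψ₁ : Sp n → ℂ := fun x => KK ε u x * φ x with hψ₁
  set ψ₂ : Sp n → ℂ := fun x => (1 - KK ε u x) * φ x with hψ₂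
  have hψ₁t : IsTest V ψ₁ := hφ.mul_left isOpen_univ (subset_univ _) hKs.contDiffOn
  have h1K : ContDiff ℝ ∞ (fun x => 1 - KK ε u x) := contDiff_const.sub hKs
  have hψ₂t : IsTest V ψ₂ := hφ.mul_left isOpen_univ (subset_univ _) h1K.contDiffOn
  have hψ₁N : IsTest (Nz g ∩ V) ψ₁ := by
    refine ⟨hψ₁t.smooth, hψ₁t.comp, fun x hx => ⟨?_, hψ₁t.supp hx⟩⟩
    have hcl : tsupport ψ₁ ⊆ A := by
      refine closure_minimal (fun y hy => ?_) hAc
      by_contra hcon
      simp only [hA, mem_ofPred_eq, not_le] at hcon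
      apply hy
      simp only [hψ₁]
      rw [KK_zero hε hcon.le, zero_mul]
    exact hnz δ hδ hδ1 x (hcl hx) (mem_closedBall_self hδ.le)
  have hGc : ∀ i, ContinuousOn (GG c g m i) univ := fun i => by
    unfold GG
    exact (continuous_finsetSum _ fun a _ => (h.cc m i a).continuous.mul (h.gc a)).continuousOn
  have hHc : ContinuousOn (HH d g m) univ := by
    unfold HH
    exact (continuous_finsetSum _ fun a _ => (h.dc m a).mul (h.gc a)).continuousOn
  have hsplit : TT c d g m φ = TT c d g m ψ₂ := by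
    have h1 : φ = fun x => ψ₁ x + ψ₂ x := by
      funext x
      simp only [hψ₁, hψ₂]; ring
    have h2 : TT c d g m (fun x => ψ₁ x + ψ₂ x) = TT c d g m ψ₁ + TT c d g m ψ₂ := by
      unfold TT
      exact TF_add isOpen_univ hGc hHc (hψ₁t.one.mono (subset_univ _))
        (hψ₂t.one.mono (subset_univ _))
    rw [h1, h2, hE m ψ₁ hψ₁N, zero_add]
  rw [hsplit]
  -- pointwise bounds
  have hs1 : ∀ x, s x * ‖1 - KK ε u x‖ ≤ 3 * N * ε := fun x => by
    by_cases hx : (2 * ε) ^ 2 ≤ nu u x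
    · rw [KK_one hε hx]
      simp only [sub_self, norm_zero, mul_zero]
      positivity
    · push Not at hx
      have h1 : s x ≤ 3 * N * ε := by
        calc s x ≤ ∑ _a : ι, 3 * ε := Finset.sum_le_sum fun a _ => by
              have h2 : ‖u a x‖ ^ 2 ≤ nu u x :=
                Finset.single_le_sum (f := fun a => ‖u a x‖ ^ 2) (fun b _ => sq_nonneg _)
                  (Finset.mem_univ a)
              have h3 : ‖u a x‖ ≤ 2 * ε := by
                refine (pow_le_pow_iff_left₀ (norm_nonneg _) (by positivity)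
                  (by norm_num : (2:ℕ) ≠ 0)).mp ?_
                linarith
              have := hclose a x
              linarith
          _ = 3 * N * ε := by
              rw [Finset.sum_const, Finset.card_univ, nsmul_eq_mul]; ring
      calc s x * ‖1 - KK ε u x‖ ≤ (3 * N * ε) * 1 :=
            mul_le_mul h1 (hK1 x) (norm_nonneg _) (by positivity)
        _ = _ := mul_one _
  have hs2 : ∀ x, s x * √(gs1 (KK ε u) x) ≤
      16 * N * M₀ * (A \ B').indicator (fun x => √(gsq u x)) x := fun x => by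
    by_cases hx : x ∈ A \ B'
    · rw [indicator_of_mem hx]
      have hxA : ε ^ 2 ≤ nu u x := hx.1
      have hν : ε ≤ √(nu u x) := Real.le_sqrt_of_sq_le hxA
      have h1 : s x ≤ 2 * N * √(nu u x) := by
        calc s x ≤ ∑ _a : ι, 2 * √(nu u x) := Finset.sum_le_sum fun a _ => by
              have h2 : ‖u a x‖ ^ 2 ≤ nu u x :=
                Finset.single_le_sum (f := fun a => ‖u a x‖ ^ 2) (fun b _ => sq_nonneg _)
                  (Finset.mem_univ a)
              have h3 : ‖u a x‖ ≤ √(nu u x) := Real.le_sqrt_of_sq_le h2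
              have := hclose a x
              linarith
          _ = _ := by
              rw [Finset.sum_const, Finset.card_univ, nsmul_eq_mul]; ring
      have h2 : √(gs1 (KK ε u) x) * √(nu u x) ≤ 8 * M₀ * √(gsq u x) := by
        rw [← Real.sqrt_mul (gs1_nonneg _ _)]
        have h3 := Real.sqrt_le_sqrt (KK_gs1 hM₀ hε hu x)
        have h4 : √(64 * M₀ ^ 2 * gsq u x) = 8 * M₀ * √(gsq u x) := by
          rw [Real.sqrt_mul (by positivity), show 64 * M₀ ^ 2 = (8 * M₀) ^ 2 by ring,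
            Real.sqrt_sq (by positivity)]
        rw [← h4]; exact h3
      calc s x * √(gs1 (KK ε u) x) ≤ (2 * N * √(nu u x)) * √(gs1 (KK ε u) x) :=
            mul_le_mul_of_nonneg_right h1 (Real.sqrt_nonneg _)
        _ = 2 * N * (√(gs1 (KK ε u) x) * √(nu u x)) := by ring
        _ ≤ 2 * N * (8 * M₀ * √(gsq u x)) := mul_le_mul_of_nonneg_left h2 (by positivity)
        _ = _ := by ring
    · rw [indicator_of_notMem hx]
      have h1 : gs1 (KK ε u) x = 0 := KK_gs1_zero hε hu fun h2 => hx ⟨h2.1, not_le.mpr h2.2⟩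
      rw [h1]; simp
  have hpk : ∀ i x, ‖pd (ee n i) (KK ε u) x‖ ≤ √(gs1 (KK ε u) x) := fun i x => by
    refine Real.le_sqrt_of_sq_le ?_
    unfold gs1
    exact Finset.single_le_sum (f := fun i => ‖pd (ee n i) (KK ε u) x‖ ^ 2)
      (fun b _ => sq_nonneg _) (Finset.mem_univ i)
  set G₀ : Sp n → ℝ := fun x => ‖η x‖ * √(gsq u x) with hG₀
  have hG₀c : Continuous G₀ := hη.smooth.continuous.norm.mul (fin_cont_gsq hu).sqrt
  have hG₀k : HasCompactSupport G₀ := HasCompactSupport.intro hη.comp fun x hx => by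
    simp [hG₀, image_eq_zero_of_notMem_tsupport hx]
  have hG₀m : MemLp ((A \ B').indicator G₀) 2 :=
    (hG₀c.memLp_of_hasCompactSupport hG₀k).indicator (hAm.diff hBm)
  have hφm : MemLp (fun x => ‖φ x‖) 2 :=
    (hφ.smooth.continuous.memLp_of_hasCompactSupport hφ.comp).norm
  have hprod : Integrable (fun x => ‖φ x‖ * (A \ B').indicator G₀ x) := by
    have h1 : Integrable (fun x => ‖φ x‖ * G₀ x) :=
      (hφ.smooth.continuous.norm.mul hG₀c).integrable_of_hasCompactSupport hG₀k.mul_left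
    have h2 := h1.indicator (hAm.diff hBm)
    refine h2.congr (Eventually.of_forall fun x => ?_)
    by_cases hx : x ∈ A \ B'
    · simp only [indicator_of_mem hx]
    · simp only [indicator_of_notMem hx, mul_zero]
  have hpt : ∀ x, ‖HH d g m x * ψ₂ x - ∑ i, GG c g m i x * pd (ee n i) ψ₂ x‖ ≤
      3 * N * B * ε * (‖φ x‖ + ∑ i, ‖pd (ee n i) φ x‖) +
      C' * (‖φ x‖ * (A \ B').indicator G₀ x) := fun x => by
    have hG₀n : 0 ≤ (A \ B').indicator G₀ x :=
      indicator_nonneg (fun y _ => mul_nonneg (norm_nonneg _) (Real.sqrt_nonneg _)) x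
    by_cases hx : x ∈ tsupport φ
    · have hη1 : η x = 1 := hηφ x hx
      have hGi : (A \ B').indicator G₀ x = (A \ B').indicator (fun x => √(gsq u x)) x := by
        by_cases hx' : x ∈ A \ B'
        · simp only [indicator_of_mem hx', hG₀, hη1, norm_one, one_mul]
        · simp only [indicator_of_notMem hx']
      rw [hGi]
      set J := (A \ B').indicator (fun x => √(gsq u x)) x with hJ
      have hd1 : ∀ i, ‖pd (ee n i) ψ₂ x‖ ≤ ‖pd (ee n i) (KK ε u) x‖ * ‖φ x‖ +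
          ‖1 - KK ε u x‖ * ‖pd (ee n i) φ x‖ := fun i => by
        have h1 : pd (ee n i) ψ₂ x = pd (ee n i) (fun y => 1 - KK ε u y) x * φ x +
            (1 - KK ε u x) * pd (ee n i) φ x :=
          pd_mul (h1K.differentiable (by simp) x) (hφ.smooth.differentiable (by simp) x)
        have h2 : pd (ee n i) (fun y => 1 - KK ε u y) x = - pd (ee n i) (KK ε u) x := by
          unfold pd
          rw [fderiv_const_sub]
          rfl
        rw [h1, h2]
        refine (norm_add_le _ _).trans ?_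
        rw [norm_mul, norm_mul, norm_neg]
      have hterm : ∀ i, ‖GG c g m i x * pd (ee n i) ψ₂ x‖ ≤
          3 * N * B * ε * ‖pd (ee n i) φ x‖ + 16 * B * N * M₀ * (‖φ x‖ * J) := fun i => by
        rw [norm_mul]
        have h1 : ‖GG c g m i x‖ * ‖pd (ee n i) ψ₂ x‖ ≤
            (B * s x) * (‖pd (ee n i) (KK ε u) x‖ * ‖φ x‖ +
              ‖1 - KK ε u x‖ * ‖pd (ee n i) φ x‖) :=
          mul_le_mul (hGG i x) (hd1 i) (norm_nonneg _) (mul_nonneg hB0 (hs0 x))
        have h2 : s x * ‖pd (ee n i) (KK ε u) x‖ ≤ 16 * N * M₀ * J :=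
          (mul_le_mul_of_nonneg_left (hpk i x) (hs0 x)).trans (hs2 x)
        have h3 := mul_le_mul_of_nonneg_right h2 (mul_nonneg hB0 (norm_nonneg (φ x)))
        have h4 := mul_le_mul_of_nonneg_right (hs1 x)
          (mul_nonneg hB0 (norm_nonneg (pd (ee n i) φ x)))
        calc _ ≤ _ := h1
          _ = s x * ‖pd (ee n i) (KK ε u) x‖ * (B * ‖φ x‖) +
              s x * ‖1 - KK ε u x‖ * (B * ‖pd (ee n i) φ x‖) := by ring
          _ ≤ 16 * N * M₀ * J * (B * ‖φ x‖) + 3 * N * ε * (B * ‖pd (ee n i) φ x‖) :=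
              add_le_add h3 h4
          _ = _ := by ring
      have hfirst : ‖HH d g m x * ψ₂ x‖ ≤ 3 * N * B * ε * ‖φ x‖ := by
        have h1 : ‖ψ₂ x‖ = ‖1 - KK ε u x‖ * ‖φ x‖ := norm_mul _ _
        rw [norm_mul, h1]
        have h4 := mul_le_mul_of_nonneg_right (hs1 x) (mul_nonneg hB0 (norm_nonneg (φ x)))
        calc ‖HH d g m x‖ * (‖1 - KK ε u x‖ * ‖φ x‖) ≤
              (B * s x) * (‖1 - KK ε u x‖ * ‖φ x‖) :=
              mul_le_mul_of_nonneg_right (hHH x) (by positivity)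
          _ = s x * ‖1 - KK ε u x‖ * (B * ‖φ x‖) := by ring
          _ ≤ 3 * N * ε * (B * ‖φ x‖) := h4
          _ = _ := by ring
      calc ‖HH d g m x * ψ₂ x - ∑ i, GG c g m i x * pd (ee n i) ψ₂ x‖ ≤
            ‖HH d g m x * ψ₂ x‖ + ‖∑ i, GG c g m i x * pd (ee n i) ψ₂ x‖ := norm_sub_le _ _
        _ ≤ 3 * N * B * ε * ‖φ x‖ + ∑ i : Fin n, (3 * N * B * ε * ‖pd (ee n i) φ x‖ +
              16 * B * N * M₀ * (‖φ x‖ * J)) :=
            add_le_add hfirst ((norm_sum_le _ _).trans (Finset.sum_le_sum fun i _ => hterm i))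
        _ = _ := by
            rw [Finset.sum_add_distrib, ← Finset.mul_sum, Finset.sum_const, Finset.card_univ,
              Fintype.card_fin, nsmul_eq_mul, hC']
            ring
    · have h1 : x ∉ tsupport ψ₂ := fun h2 => hx (tsupport_mul_subset_right' _ _ h2)
      have h2 := tf_integrand_zero (e := ee n) (G := GG c g m) (H := HH d g m) h1
      rw [h2, norm_zero]
      positivity
  have hΦi : Integrable (fun x => ‖φ x‖ + ∑ i, ‖pd (ee n i) φ x‖) :=
    hφi.add (integrable_finsetSum _ fun i _ => hpi i)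
  have hTT : ‖TT c d g m ψ₂‖ ≤ 3 * N * B * ε * Φ₁ +
      C' * ∫ x, ‖φ x‖ * (A \ B').indicator G₀ x := by
    have h1 : ‖TT c d g m ψ₂‖ ≤ ∫ x, (3 * N * B * ε * (‖φ x‖ + ∑ i, ‖pd (ee n i) φ x‖) +
      C' * (‖φ x‖ * (A \ B').indicator G₀ x)) := by
      unfold TT TF
      exact norm_integral_le_of_norm_le ((hΦi.const_mul _).add (hprod.const_mul _))
        (Eventually.of_forall hpt)
    rw [integral_add (hΦi.const_mul _) (hprod.const_mul _), integral_const_mul,
      integral_const_mul] at h1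
    exact h1
  have hD : ∫ x, ((A \ B').indicator G₀ x) ^ 2 = AA η u ε - AA η u (2 * ε) := by
    set F : Sp n → ℝ := fun x => ‖η x‖ ^ 2 * gsq u x with hF
    have hFi : Integrable F := by
      refine (((hη.smooth.continuous.norm).pow 2).mul
        (fin_cont_gsq hu)).integrable_of_hasCompactSupport
        (HasCompactSupport.intro hη.comp fun x hx => ?_)
      simp [image_eq_zero_of_notMem_tsupport hx]
    have hAA1 : AA η u ε = ∫ x, A.indicator F x := by
      rw [integral_indicator hAm]; rfl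
    have hAA2 : AA η u (2 * ε) = ∫ x, B'.indicator F x := by
      rw [integral_indicator hBm]; rfl
    rw [hAA1, hAA2, ← integral_sub (hFi.indicator hAm) (hFi.indicator hBm)]
    refine integral_congr_ae (Eventually.of_forall fun x => ?_)
    have hsq : G₀ x ^ 2 = F x := by
      simp only [hG₀, hF, mul_pow, Real.sq_sqrt (gsq_nonneg u x)]
    by_cases h1 : x ∈ B'
    · have h2 : x ∈ A := hBA h1
      have h3 : x ∉ A \ B' := fun h4 => h4.2 h1
      simp only [indicator_of_mem h1, indicator_of_mem h2, indicator_of_notMem h3]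
      ring
    · by_cases h2 : x ∈ A
      · have h3 : x ∈ A \ B' := ⟨h2, h1⟩
        simp only [indicator_of_notMem h1, indicator_of_mem h2, indicator_of_mem h3, hsq]
        ring
      · have h3 : x ∉ A \ B' := fun h4 => h2 h4.1
        simp only [indicator_of_notMem h1, indicator_of_notMem h2, indicator_of_notMem h3]
        ring
  have hCS := fin_CS (fun x => norm_nonneg (φ x)) (fun x => indicator_nonneg
    (fun y _ => mul_nonneg (norm_nonneg _) (Real.sqrt_nonneg _)) x) hφm hG₀m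
  rw [hD] at hCS
  have hD0 : 0 ≤ √(AA η u ε - AA η u (2 * ε)) := Real.sqrt_nonneg _
  calc ‖TT c d g m ψ₂‖ ≤ _ := hTT
    _ ≤ 3 * N * B * ε * Φ₁ + C' * (√Φ₂ * √(AA η u ε - AA η u (2 * ε))) :=
        add_le_add le_rfl (mul_le_mul_of_nonneg_left hCS hC'0)
    _ = (3 * N * B * Φ₁) * ε + (C' * √Φ₂) * √(AA η u ε - AA η u (2 * ε)) := by ring
    _ ≤ _ := by
        refine add_le_add (mul_le_mul_of_nonneg_right (by linarith) hε.le)
          (mul_le_mul_of_nonneg_right (by linarith) hD0)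

end Pool.Agent.Work.MP_375441_an.Hol
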