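import Pool.Agent.Work.MP_375441_an.Hol.Defs

/-!
# Module MolBd: the mollified solution almost solves the system

Proof.  Fix `m`.  Let `S` bound all `‖g a x‖` (continuous with compact support), `η = 2 S`.  For
`closedBall x δ ⊆ U` the function `ψ = psi volume δ x` is a test on `U` (`psi_test`), hence
`0 = TT c d g m ψ = ∫ (HH ψ - ∑_i GG_i ∂_i ψ)`.  Since `∂_i (c ψ) = ∂_i c ψ + c ∂_i ψ`,
`∫ GG_i ∂_i ψ = ∑_a (∫ g_a ∂_i(c_{mia} ψ) - ∫ g_a (∂_i c_{mia}) ψ)`, so
`Lop c (mo g δ) m x = ∑_{i,a} c_{mia}(x) ∂_i (mol δ g_a)(x)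
  = ∑_{i,a} [∫ g_a ∂_i (c_{mia} ψ) + c_{mia}(x) ∂_i (mol δ g_a)(x)] - ∫ HH ψ
    - ∑_{i,a} ∫ g_a (∂_i c_{mia}) ψ`.
The bracket is `≤ C η` by `comm_one` (CommB.lean; `W = g a`, `lam = c m i a`), the others are
`≤ sup ‖g_a‖ sup ‖d‖` and `≤ sup ‖g_a‖ sup ‖∂_i c‖` because `ψ ≥ 0` has integral one
(`psi` is `rho δ (x - y)`; `rho_nonneg`, `rho_integral`, `integral_sub_left_eq_self`).  The
constants do not depend on `U`, `δ`, `x`.  Sum the squares over `m`.
-/

open MeasureTheory Set Filter Topology Function Metric Module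
open scoped ContDiff

namespace Pool.Agent.Work.MP_375441_an.Hol

open Pool.Agent.Work.MP_375441_an

set_option linter.unusedSectionVars false

variable {n : ℕ} {ι M : Type} [Fintype ι] [Fintype M]

lemma molbd_psi {δ : ℝ} (hδ : 0 < δ) (x : Sp n) {F : Sp n → ℂ} (hF : Continuous F) {S : ℝ}
    (hS : ∀ y, ‖F y‖ ≤ S) : ‖∫ y, F y * psi volume δ x y‖ ≤ S := by
  have hi : Integrable (fun z : Sp n => rho volume δ z) :=
    (rho_contDiff volume δ).continuous.integrable_of_hasCompactSupport (rho_comp volume hδ)
  have hi2 : Integrable (fun y : Sp n => S * rho volume δ (x - y)) :=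
    (hi.comp_sub_left x).const_mul S
  have h1 : ∫ y : Sp n, S * rho volume δ (x - y) = S := by
    rw [integral_const_mul, integral_sub_left_eq_self (fun z => rho volume δ z) volume x,
      rho_integral volume hδ, mul_one]
  refine (norm_integral_le_of_norm_le hi2 (Eventually.of_forall fun y => ?_)).trans h1.le
  have h2 : ‖psi volume δ x y‖ = rho volume δ (x - y) := by
    unfold psi
    rw [Complex.norm_real, Real.norm_eq_abs]
    exact abs_of_nonneg (rho_nonneg volume hδ _)
  rw [norm_mul, h2]
  exact mul_le_mul_of_nonneg_right (hS y) (rho_nonneg volume hδ _)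

theorem mol_bd {g : ι → Sp n → ℂ} {c : M → Fin n → ι → Sp n → ℂ} {d : M → ι → Sp n → ℂ}
    (h : Glob g c d) :
    ∃ C₂, 0 ≤ C₂ ∧ ∀ U : Set (Sp n), Eqn c d g U → ∀ δ, 0 < δ → ∀ x, closedBall x δ ⊆ U →
      lsq c (mo g δ) x ≤ C₂ := by
  have key : ∀ m : M, ∃ K : ℝ, ∀ U : Set (Sp n), Eqn c d g U → ∀ δ, 0 < δ → ∀ x,
      closedBall x δ ⊆ U → ‖Lop c (mo g δ) m x‖ ≤ K := by
    intro m
    have hS : ∀ a, ∃ S, ∀ x, ‖g a x‖ ≤ S := fun a =>
      (h.gc a).bounded_above_of_compact_support (h.gk a)
    choose S hS using hS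
    have hS0 : ∀ a, 0 ≤ S a := fun a => (norm_nonneg _).trans (hS a 0)
    have hD : ∀ a, ∃ S, ∀ x, ‖d m a x‖ ≤ S := fun a =>
      (h.dc m a).bounded_above_of_compact_support (h.dk m a)
    choose D hD using hD
    have hpc : ∀ i a, Continuous (pd (ee n i) (c m i a)) := fun i a =>
      (pd_contDiff (m := 0) (ee n i) (h.cc m i a) (by simp)).continuous
    have hp : ∀ i a, ∃ S, ∀ x, ‖pd (ee n i) (c m i a) x‖ ≤ S := fun i a =>
      (hpc i a).bounded_above_of_compact_support ((h.ck m i a).of_isClosed_subset
        (isClosed_tsupport _) (pd_tsupport _ _))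
    choose R hR using hp
    have hC := fun i a => comm_one (μ := (volume : Measure (Sp n))) (ee n i) (h.gc a)
      (h.cc m i a) (h.ck m i a)
    choose C hC0 hC using hC
    refine ⟨∑ i, ∑ a, C i a * (2 * S a) + (∑ a, D a * S a + ∑ i, ∑ a, R i a * S a),
      fun U hU δ hδ x hx => ?_⟩
    have hψ : IsTest U (psi volume δ x) := psi_test volume hδ hx
    have hψs := hψ.smooth
    have hψd : ∀ y, DifferentiableAt ℝ (psi volume δ x) y := fun y =>
      hψs.differentiable (by simp) y
    -- the integrals
    have hQ : ∀ i a, Integrable (fun y => g a y *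
        pd (ee n i) (fun y => c m i a y * psi volume δ x y) y) := by
      intro i a
      have h1 : IsTestOne univ (fun y => c m i a y * psi volume δ x y) :=
        ⟨(h.cc m i a).mul hψ.one.smooth, hψ.comp.mul_left, subset_univ _⟩
      have h2 : HasCompactSupport (pd (ee n i) (fun y => c m i a y * psi volume δ x y)) :=
        h1.comp.of_isClosed_subset (isClosed_tsupport _) (pd_tsupport _ _)
      exact ((h.gc a).mul (h1.continuous_pd (ee n i))).integrable_of_hasCompactSupport
        h2.mul_left
    have hRi : ∀ i a, Integrable (fun y => (pd (ee n i) (c m i a) y * g a y) *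
        psi volume δ x y) := fun i a =>
      (((hpc i a).mul (h.gc a)).mul hψs.continuous).integrable_of_hasCompactSupport
        hψ.comp.mul_left
    have hDi : ∀ a, Integrable (fun y => (d m a y * g a y) * psi volume δ x y) := fun a =>
      (((h.dc m a).mul (h.gc a)).mul hψs.continuous).integrable_of_hasCompactSupport
        hψ.comp.mul_left
    have hdf : ∀ i a, Integrable (fun y => g a y *
        pd (ee n i) (fun y => c m i a y * psi volume δ x y) y -
        (pd (ee n i) (c m i a) y * g a y) * psi volume δ x y) := fun i a =>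
      (hQ i a).sub (hRi i a)
    have hds : ∀ i, Integrable (fun y => ∑ a, (g a y *
        pd (ee n i) (fun y => c m i a y * psi volume δ x y) y -
        (pd (ee n i) (c m i a) y * g a y) * psi volume δ x y)) := fun i =>
      integrable_finsetSum _ (fun a _ => hdf i a)
    have e0 : (∑ a, ∫ y, (d m a y * g a y) * psi volume δ x y) -
        ∑ i, ∑ a, ((∫ y, g a y * pd (ee n i) (fun y => c m i a y * psi volume δ x y) y) -
          ∫ y, (pd (ee n i) (c m i a) y * g a y) * psi volume δ x y) = 0 := by
      have h1 := hU m (psi volume δ x) hψ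
      rw [← h1]
      unfold TT TF HH GG
      rw [← integral_finsetSum _ (fun a _ => hDi a)]
      have h2 : ∀ i a, (∫ y, g a y * pd (ee n i) (fun y => c m i a y * psi volume δ x y) y) -
          ∫ y, (pd (ee n i) (c m i a) y * g a y) * psi volume δ x y =
          ∫ y, (g a y * pd (ee n i) (fun y => c m i a y * psi volume δ x y) y -
          (pd (ee n i) (c m i a) y * g a y) * psi volume δ x y) := fun i a =>
        (integral_sub (hQ i a) (hRi i a)).symm
      simp_rw [h2]
      have h3 : ∀ i, ∑ a, ∫ y, (g a y * pd (ee n i) (fun y => c m i a y * psi volume δ x y) y -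
          (pd (ee n i) (c m i a) y * g a y) * psi volume δ x y) =
          ∫ y, ∑ a, (g a y * pd (ee n i) (fun y => c m i a y * psi volume δ x y) y -
          (pd (ee n i) (c m i a) y * g a y) * psi volume δ x y) := fun i =>
        (integral_finsetSum _ (fun a _ => hdf i a)).symm
      simp_rw [h3]
      rw [← integral_finsetSum _ (fun i _ => hds i), ← integral_sub (integrable_finsetSum _
        (fun a _ => hDi a)) (integrable_finsetSum _ (fun i _ => hds i))]
      refine integral_congr_ae (Eventually.of_forall fun y => ?_)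
      simp only []
      congr 1
      · rw [Finset.sum_mul]
      · refine Finset.sum_congr rfl fun i _ => ?_
        rw [Finset.sum_mul]
        refine Finset.sum_congr rfl fun a _ => ?_
        rw [pd_mul ((h.cc m i a).differentiable (by simp) y) (hψd y)]
        ring
    have e1 : Lop c (mo g δ) m x =
        (∑ i, ∑ a, ((∫ y, g a y * pd (ee n i) (fun y => c m i a y * psi volume δ x y) y) +
          c m i a x * pd (ee n i) (mol volume δ (g a)) x)) -
        ((∑ a, ∫ y, (d m a y * g a y) * psi volume δ x y) +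
        ∑ i, ∑ a, ∫ y, (pd (ee n i) (c m i a) y * g a y) * psi volume δ x y) := by
      have h1 : Lop c (mo g δ) m x =
        ∑ i, ∑ a, c m i a x * pd (ee n i) (mol volume δ (g a)) x := rfl
      rw [h1]
      simp only [Finset.sum_add_distrib, Finset.sum_sub_distrib] at e0 ⊢
      linear_combination e0
    rw [e1]
    refine (norm_sub_le _ _).trans (add_le_add ?_ ((norm_add_le _ _).trans (add_le_add ?_ ?_)))
    · refine (norm_sum_le _ _).trans (Finset.sum_le_sum fun i _ =>
        (norm_sum_le _ _).trans (Finset.sum_le_sum fun a _ => ?_))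
      refine hC i a δ hδ x (2 * S a) fun y _ => ?_
      refine (norm_sub_le _ _).trans ?_
      have h1 := hS a y
      have h2 := hS a x
      linarith
    · refine (norm_sum_le _ _).trans (Finset.sum_le_sum fun a _ => ?_)
      refine molbd_psi hδ x ((h.dc m a).mul (h.gc a)) fun y => ?_
      rw [Pi.mul_apply, norm_mul]
      exact mul_le_mul (hD a y) (hS a y) (norm_nonneg _) ((norm_nonneg _).trans (hD a y))
    · refine (norm_sum_le _ _).trans (Finset.sum_le_sum fun i _ =>
        (norm_sum_le _ _).trans (Finset.sum_le_sum fun a _ => ?_))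
      refine molbd_psi hδ x ((hpc i a).mul (h.gc a)) fun y => ?_
      rw [Pi.mul_apply, norm_mul]
      exact mul_le_mul (hR i a y) (hS a y) (norm_nonneg _) ((norm_nonneg _).trans (hR i a y))
  choose K hK using key
  refine ⟨∑ m, K m ^ 2, Finset.sum_nonneg fun m _ => sq_nonneg _, fun U hU δ hδ x hx => ?_⟩
  refine Finset.sum_le_sum fun m _ => ?_
  exact pow_le_pow_left₀ (norm_nonneg _) (hK m U hU δ hδ x hx) 2


end Pool.Agent.Work.MP_375441_an.Hol
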