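import Pool.Agent.Work.MP_375441_an.Hol.Planch

/-!
# Module Pert: coercivity for variable coefficients near a point

Proof.  By continuity choose `r > 0` with `ksq (fun m i a => c m i a x - c m i a x₀) ≤ θ/4` for
`x ∈ ball x₀ r`.  Let `v a` be tests supported in the ball.  Pointwise, for `x ∈ ball x₀ r`, with
`L₀` the operator with coefficients `c(x₀)`: `‖L₀ v‖² ≤ 2 ‖L v‖² + 2 ‖(L - L₀) v‖²` for each `m`, and
Cauchy-Schwarz gives `∑_m ‖∑_{i,a} (c - c(x₀)) ∂_i v_a‖² ≤ ksq(c - c(x₀)) gsq v x ≤ (θ/4) gsq v x`.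
So `lsq c₀ v x ≤ 2 lsq c v x + (θ/2) gsq v x` (outside the ball all derivatives of `v` vanish).
Integrate (everything continuous with compact support) and use `planch`:
`θ ∫ gsq v ≤ 2 ∫ lsq c v + (θ/2) ∫ gsq v`, that is `(θ/4) ∫ gsq v ≤ ∫ lsq c v`.
-/

open MeasureTheory Set Filter Topology Function Metric Module
open scoped ContDiff

namespace Pool.Agent.Work.MP_375441_an.Hol

open Pool.Agent.Work.MP_375441_an

set_option linter.unusedSectionVars false

variable {n : ℕ} {ι M : Type} [Fintype ι] [Fintype M]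

private lemma pert_up (p q : ℂ) : ‖p + q‖ ^ 2 ≤ 2 * ‖p‖ ^ 2 + 2 * ‖q‖ ^ 2 := by
  have h1 : ‖p + q‖ ≤ ‖p‖ + ‖q‖ := norm_add_le p q
  have h2 : ‖p + q‖ ^ 2 ≤ (‖p‖ + ‖q‖) ^ 2 := pow_le_pow_left₀ (norm_nonneg _) h1 2
  nlinarith [sq_nonneg (‖p‖ - ‖q‖)]

private lemma pert_cs (c w : Fin n → ι → ℂ) :
    ‖∑ i, ∑ a, c i a * w i a‖ ^ 2 ≤ (∑ i, ∑ a, ‖c i a‖ ^ 2) * ∑ i, ∑ a, ‖w i a‖ ^ 2 := by
  have h1 : ‖∑ i, ∑ a, c i a * w i a‖ ≤ ∑ x : Fin n × ι, ‖c x.1 x.2‖ * ‖w x.1 x.2‖ := by
    rw [← Fintype.sum_prod_type' (f := fun i a => c i a * w i a)]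
    refine (norm_sum_le _ _).trans ?_
    apply Finset.sum_le_sum
    intro x _
    rw [norm_mul]
  have h2 := Finset.sum_mul_sq_le_sq_mul_sq (Finset.univ : Finset (Fin n × ι))
    (fun x => ‖c x.1 x.2‖) (fun x => ‖w x.1 x.2‖)
  rw [Fintype.sum_prod_type (f := fun x : Fin n × ι => ‖c x.1 x.2‖ ^ 2),
    Fintype.sum_prod_type (f := fun x : Fin n × ι => ‖w x.1 x.2‖ ^ 2)] at h2
  exact (pow_le_pow_left₀ (norm_nonneg _) h1 2).trans h2

private lemma pert_sq_integrable {f : Sp n → ℂ} (hf : Continuous f) (hc : HasCompactSupport f) :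
    Integrable (fun x => ‖f x‖ ^ 2) := by
  apply Continuous.integrable_of_hasCompactSupport (by fun_prop)
  exact hc.comp_left (g := fun z : ℂ => ‖z‖ ^ 2) (by simp)

private lemma pert_pd_zero {v : ι → Sp n → ℂ} {a : ι} {x : Sp n} (hx : x ∉ tsupport (v a))
    (i : Fin n) : pd (ee n i) (v a) x = 0 :=
  image_eq_zero_of_notMem_tsupport fun h => hx (pd_tsupport (ee n i) (v a) h)

private lemma pert_gsq_integrable {v : ι → Sp n → ℂ} (hv : ∀ a, IsTest univ (v a)) :
    Integrable (gsq v) := by
  unfold gsq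
  refine integrable_finset_sum _ fun i _ => integrable_finset_sum _ fun a _ => ?_
  exact pert_sq_integrable ((hv a).pd _).smooth.continuous ((hv a).pd _).comp

private lemma pert_lsq_integrable {c : M → Fin n → ι → Sp n → ℂ}
    (hc : ∀ m i a, Continuous (c m i a)) {v : ι → Sp n → ℂ} (hv : ∀ a, IsTest univ (v a)) :
    Integrable (lsq c v) := by
  unfold lsq
  refine integrable_finset_sum _ fun m _ => ?_
  apply pert_sq_integrable
  · unfold Lop
    exact continuous_finset_sum _ fun i _ => continuous_finset_sum _ fun a _ =>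
      (hc m i a).mul ((hv a).pd _).smooth.continuous
  · apply HasCompactSupport.intro (isCompact_iUnion fun a => (hv a).comp)
    intro x hx
    unfold Lop
    refine Finset.sum_eq_zero fun i _ => Finset.sum_eq_zero fun a _ => ?_
    have h1 : x ∉ tsupport (v a) := fun h => hx (mem_iUnion.2 ⟨a, h⟩)
    rw [pert_pd_zero h1, mul_zero]

theorem pert {c : M → Fin n → ι → Sp n → ℂ} (hc : ∀ m i a, Continuous (c m i a)) {x₀ : Sp n}
    {θ : ℝ} (hθ : 0 < θ) (h : SymLow (fun m i a => c m i a x₀) θ) :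
    ∃ r > 0, Coer c (ball x₀ r) (θ / 4) := by
  have hQ : Continuous (fun x => ksq (fun m i a => c m i a x - c m i a x₀)) := by
    unfold ksq
    refine continuous_finset_sum _ fun m _ => continuous_finset_sum _ fun i _ =>
      continuous_finset_sum _ fun a _ => ?_
    exact (((hc m i a).sub continuous_const).norm).pow 2
  have hQ0 : ksq (fun m i a => c m i a x₀ - c m i a x₀) = 0 := by
    unfold ksq
    simp
  have hev : ∀ᶠ x in 𝓝 x₀, ksq (fun m i a => c m i a x - c m i a x₀) < θ / 4 := by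
    apply (hQ.tendsto x₀).eventually_lt_const
    rw [hQ0]
    linarith
  obtain ⟨r, hr, hball⟩ := Metric.eventually_nhds_iff_ball.1 hev
  refine ⟨r, hr, ?_⟩
  intro v hv
  have hvu : ∀ a, IsTest univ (v a) := fun a => (hv a).mono (subset_univ _)
  have hpt : ∀ x, lsq (fun m i a _ => c m i a x₀) v x ≤ 2 * lsq c v x + θ / 2 * gsq v x := by
    intro x
    by_cases hx : x ∈ ball x₀ r
    · have hk := (hball x hx).le
      have hg0 : 0 ≤ gsq v x :=
        Finset.sum_nonneg fun _ _ => Finset.sum_nonneg fun _ _ => sq_nonneg _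
      have hm : ∀ m, ‖Lop (fun m i a _ => c m i a x₀) v m x‖ ^ 2 ≤ 2 * ‖Lop c v m x‖ ^ 2 +
          2 * ((∑ i, ∑ a, ‖c m i a x - c m i a x₀‖ ^ 2) * gsq v x) := by
        intro m
        have h1 : Lop (fun m i a _ => c m i a x₀) v m x = Lop c v m x +
            -(∑ i, ∑ a, (c m i a x - c m i a x₀) * pd (ee n i) (v a) x) := by
          unfold Lop
          rw [← Finset.sum_neg_distrib, ← Finset.sum_add_distrib]
          apply Finset.sum_congr rfl
          intro i _
          rw [← Finset.sum_neg_distrib, ← Finset.sum_add_distrib]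
          apply Finset.sum_congr rfl
          intro a _
          ring
        rw [h1]
        refine (pert_up _ _).trans ?_
        rw [norm_neg]
        have h2 := pert_cs (fun i a => c m i a x - c m i a x₀) (fun i a => pd (ee n i) (v a) x)
        have h3 : ∑ i, ∑ a, ‖pd (ee n i) (v a) x‖ ^ 2 = gsq v x := rfl
        rw [h3] at h2
        linarith
      have hsum : lsq (fun m i a _ => c m i a x₀) v x ≤ 2 * lsq c v x +
          2 * (ksq (fun m i a => c m i a x - c m i a x₀) * gsq v x) := by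
        unfold lsq ksq
        refine (Finset.sum_le_sum fun m _ => hm m).trans ?_
        rw [Finset.sum_add_distrib, ← Finset.mul_sum, ← Finset.mul_sum, ← Finset.sum_mul]
      have := mul_le_mul_of_nonneg_right hk hg0
      linarith
    · have hz : ∀ i a, pd (ee n i) (v a) x = 0 := by
        intro i a
        exact pert_pd_zero (fun h => hx ((hv a).supp h)) i
      have h1 : lsq (fun m i a _ => c m i a x₀) v x = 0 := by
        unfold lsq Lop
        simp [hz]
      have h2 : 0 ≤ lsq c v x := Finset.sum_nonneg fun _ _ => sq_nonneg _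
      have h3 : 0 ≤ gsq v x :=
        Finset.sum_nonneg fun _ _ => Finset.sum_nonneg fun _ _ => sq_nonneg _
      rw [h1]
      positivity
  have hp := planch (fun m i a => c m i a x₀) h v hvu
  have hI := integral_mono (pert_lsq_integrable (c := fun m i a _ => c m i a x₀)
    (fun m i a => continuous_const) hvu)
    (((pert_lsq_integrable hc hvu).const_mul 2).add ((pert_gsq_integrable hvu).const_mul (θ / 2)))
    hpt
  simp only [Pi.add_apply] at hI
  rw [integral_add ((pert_lsq_integrable hc hvu).const_mul 2)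
    ((pert_gsq_integrable hvu).const_mul (θ / 2)), integral_const_mul, integral_const_mul] at hI
  linarith

end Pool.Agent.Work.MP_375441_an.Hol
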