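import Pool.Agent.Work.MP_375441_an.Hol.Defs

/-!
# Module Growth: two real variable lemmas

(growth) Proof.  Iterating, `q^k (a j - C₄) ≤ a (j+k) - C₄ ≤ a (j+k)`.  If `a j > C₄ + 1` then
`q^k < a (j+k) ≤ C₅ (2^σ)^(j+k)`; choose `k` with `(q / 2^σ)^k > C₅ (2^σ)^j`.
(expo) Proof.  `L = logb 2 q > 0`; `α > 2/(2+L)` gives `2/α < 2 + L`, so `2^(2/α-2) < 2^L = q`.
(conc) Proof.  Given `J ≥ 1`, `∑_{j=J}^{2J-1} (a (j+1) - a j) = a (2J) - a J ≤ B`, so some `j` with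
`J ≤ j < 2J` has `a (j+1) - a j ≤ B/J`, so `t ≤ C₇ (1/2)^J + C₇ √(B/J)` (B ≥ 0); let `J → ∞`.
-/

open MeasureTheory Set Filter Topology Function Metric Module
open scoped ContDiff

namespace Pool.Agent.Work.MP_375441_an.Hol

open Pool.Agent.Work.MP_375441_an

set_option linter.unusedSectionVars false

variable {n : ℕ} {ι M : Type} [Fintype ι] [Fintype M]

theorem growth {q C₄ C₅ σ : ℝ} (hq : 1 < q) (hσ : 0 ≤ σ) (h2 : (2 : ℝ) ^ σ < q) (hC₄ : 0 ≤ C₄)
    (hC₅ : 0 ≤ C₅) (j : ℕ) :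
    ∃ k : ℕ, ∀ a : ℕ → ℝ, (∀ i, i < j + k → q * (a i - C₄) ≤ a (i + 1) - C₄) →
      a (j + k) ≤ C₅ * ((2 : ℝ) ^ (j + k)) ^ σ → a j ≤ C₄ + 1 := by
  have h2s : (0 : ℝ) < (2 : ℝ) ^ σ := Real.rpow_pos_of_pos (by norm_num) _
  have hr : 1 < q / (2 : ℝ) ^ σ := by rw [one_lt_div h2s]; exact h2
  obtain ⟨k, hk⟩ := pow_unbounded_of_one_lt (C₅ * ((2 : ℝ) ^ σ) ^ j) hr
  refine ⟨k, ?_⟩
  intro a ha hak
  by_contra hc
  push Not at hc
  have hq0 : 0 < q := by linarith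
  have hit : ∀ i, i ≤ k → q ^ i * (a j - C₄) ≤ a (j + i) - C₄ := by
    intro i
    induction i with
    | zero => intro _; simp
    | succ i ih =>
      intro hi
      have h3 := ih (by omega)
      have h4 := ha (j + i) (by omega)
      calc q ^ (i + 1) * (a j - C₄) = q * (q ^ i * (a j - C₄)) := by ring
        _ ≤ q * (a (j + i) - C₄) := mul_le_mul_of_nonneg_left h3 hq0.le
        _ ≤ a (j + i + 1) - C₄ := h4
  have h3 := hit k le_rfl
  have h4 : q ^ k < q ^ k * (a j - C₄) := by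
    have : 0 < q ^ k := pow_pos hq0 k
    nlinarith
  have h5 : ((2 : ℝ) ^ (j + k)) ^ σ = ((2 : ℝ) ^ σ) ^ (j + k) := by
    rw [← Real.rpow_natCast, ← Real.rpow_natCast, ← Real.rpow_mul (by norm_num),
      ← Real.rpow_mul (by norm_num), mul_comm]
  rw [h5] at hak
  rw [div_pow, lt_div_iff₀ (pow_pos h2s k)] at hk
  have h6 : C₅ * ((2 : ℝ) ^ σ) ^ (j + k) = C₅ * ((2 : ℝ) ^ σ) ^ j * ((2 : ℝ) ^ σ) ^ k := by
    rw [pow_add]; ring
  rw [h6] at hak
  linarith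

theorem expo {q : ℝ} (hq : 1 < q) : ∃ a₀ : ℝ, 0 < a₀ ∧ a₀ < 1 ∧
    ∀ α : ℝ, a₀ < α → α ≤ 1 → (2 : ℝ) ^ (2 / α - 2) < q := by
  have hL : 0 < Real.logb 2 q := Real.logb_pos (by norm_num) hq
  refine ⟨2 / (2 + Real.logb 2 q), by positivity, ?_, ?_⟩
  · rw [div_lt_one (by linarith)]; linarith
  · intro α hα _
    have hα0 : 0 < α := lt_trans (by positivity) hα
    have h1 : 2 / α < 2 + Real.logb 2 q := by
      rw [div_lt_iff₀ (by linarith)] at hα
      rw [div_lt_iff₀ hα0]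
      linarith
    calc (2 : ℝ) ^ (2 / α - 2) < (2 : ℝ) ^ Real.logb 2 q :=
          Real.rpow_lt_rpow_of_exponent_lt (by norm_num) (by linarith)
      _ = q := Real.rpow_logb (by norm_num) (by norm_num) (by linarith)

theorem conc {t B C₇ : ℝ} (ht : 0 ≤ t) (hC₇ : 0 ≤ C₇)
    (h : ∀ J : ℕ, 1 ≤ J → ∃ a : ℕ → ℝ, (∀ i, 0 ≤ a i) ∧ a (2 * J) ≤ B ∧
      ∀ j, j < 2 * J → t ≤ C₇ * (1 / 2) ^ (j + 1) + C₇ * √(a (j + 1) - a j)) : t = 0 := by
  have key : ∀ J : ℕ, 1 ≤ J → t ≤ C₇ * (1 / 2) ^ J + C₇ * √(B / J) := by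
    intro J hJ
    obtain ⟨a, ha0, haB, ha⟩ := h J hJ
    have hJR : (0 : ℝ) < J := by exact_mod_cast hJ
    have hsum : ∑ i ∈ Finset.range J, (a (J + i + 1) - a (J + i)) ≤
        ∑ _i ∈ Finset.range J, B / J := by
      have h1 : ∑ i ∈ Finset.range J, (a (J + i + 1) - a (J + i)) = a (J + J) - a (J + 0) :=
        Finset.sum_range_sub (fun i => a (J + i)) J
      rw [h1, Finset.sum_const, Finset.card_range, nsmul_eq_mul, mul_div_cancel₀ _ hJR.ne',
        add_zero]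
      have h2 := ha0 J
      have h3 : J + J = 2 * J := by ring
      rw [h3]
      linarith
    obtain ⟨i, hi, hi2⟩ := Finset.exists_le_of_sum_le
      (Finset.nonempty_range_iff.2 (by omega)) hsum
    have hi' := Finset.mem_range.1 hi
    have h4 := ha (J + i) (by omega)
    refine le_trans h4 (add_le_add ?_ ?_)
    · apply mul_le_mul_of_nonneg_left _ hC₇
      exact pow_le_pow_of_le_one (by norm_num) (by norm_num) (by omega)
    · apply mul_le_mul_of_nonneg_left _ hC₇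
      exact Real.sqrt_le_sqrt hi2
  have hlim : Tendsto (fun J : ℕ => C₇ * (1 / 2 : ℝ) ^ J + C₇ * √(B / J)) atTop
      (𝓝 (C₇ * 0 + C₇ * √0)) := by
    apply Tendsto.add
    · exact (tendsto_pow_atTop_nhds_zero_of_lt_one (by norm_num) (by norm_num)).const_mul _
    · apply Tendsto.const_mul
      apply (Real.continuous_sqrt.tendsto 0).comp
      exact tendsto_const_div_atTop_nhds_zero_nat B
  rw [Real.sqrt_zero, mul_zero, add_zero] at hlim
  have : t ≤ 0 := by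
    refine ge_of_tendsto hlim ?_
    filter_upwards [eventually_ge_atTop 1] with J hJ
    exact key J hJ
  linarith

end Pool.Agent.Work.MP_375441_an.Hol
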