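import Pool.Agent.Work.MP_375441_an.Hol.Defs

/-!
# Module CutD: smooth functions of the distance

Proof.  If `Z = ∅` take `ζ = 1`.  Otherwise let
`b(x) = max 0 (min 1 ((infDist x Z - d/2) / (d/4)))`, Lipschitz with constant `4/d`, `b = 1` where
`infDist ≥ 3d/4` and `b = 0` where `infDist ≤ d/2`, and `ζ = mol volume (d/8) b` (Moll.lean, `b`
as a complex valued function): smooth (`mol_contDiff`), `‖ζ‖ ≤ 1`, Lipschitz with constant `4/d`
(`mol_eq`, change variables, `rho_nonneg`, `rho_integral`), so `‖pd (ee n i) ζ x‖ ≤ 4/d`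
(`norm_fderiv_le_of_lipschitz`) and `gs1 ζ x ≤ 16 n/d²`.  (a) if all `z ∈ Z` have `d ≤ dist x z`
then `b = 1` on `ball x (d/4)`, so `ζ = 1` on `ball x (d/8)` (`mol_dist` with `ε = 0`), and `gs1 ζ x = 0`.
(b) if some `z ∈ Z` has `dist x z < d/4` then `b = 0` on `ball x (d/4)`, so `ζ = 0` near `x`.
-/

open MeasureTheory Set Filter Topology Function Metric Module
open scoped ContDiff

namespace Pool.Agent.Work.MP_375441_an.Hol

open Pool.Agent.Work.MP_375441_an

set_option linter.unusedSectionVars false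

variable {n : ℕ} {ι M : Type} [Fintype ι] [Fintype M]

open scoped Convolution in
private lemma CutD_mol (δ : ℝ) (g : Sp n → ℂ) (x : Sp n) :
    mol volume δ g x = ∫ t, rho volume δ t • g (x - t) := by
  unfold mol
  rw [convolution_lsmul]

private lemma CutD_int {δ : ℝ} (hδ : 0 < δ) {h : Sp n → ℂ} (hh : Continuous h) :
    Integrable (fun t => rho volume δ t • h t) := by
  apply Continuous.integrable_of_hasCompactSupport
  · exact (rho_contDiff volume δ).continuous.smul hh
  · exact (rho_comp volume hδ).smul_right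

private lemma CutD_bd {δ : ℝ} (hδ : 0 < δ) {h : Sp n → ℂ} {B : ℝ} (hB : ∀ t, ‖h t‖ ≤ B) :
    ‖∫ t, rho volume δ t • h t‖ ≤ B := by
  have hi : Integrable (fun t : Sp n => rho volume δ t) := by
    apply Continuous.integrable_of_hasCompactSupport
    · exact (rho_contDiff volume δ).continuous
    · exact rho_comp volume hδ
  have h1 : ‖∫ t, rho volume δ t • h t‖ ≤ ∫ t : Sp n, rho volume δ t * B := by
    apply norm_integral_le_of_norm_le (hi.mul_const B)
    refine Eventually.of_forall fun t => ?_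
    rw [norm_smul, Real.norm_of_nonneg (rho_nonneg volume hδ t)]
    exact mul_le_mul_of_nonneg_left (hB t) (rho_nonneg volume hδ t)
  rwa [integral_mul_const, rho_integral volume hδ, one_mul] at h1

/-- the cutoff before mollification -/
private noncomputable def CutD_b (Z : Set (Sp n)) (d : ℝ) (x : Sp n) : ℝ :=
  max 0 (min 1 ((infDist x Z - d / 2) / (d / 4)))

private lemma CutD_b0 (Z : Set (Sp n)) (d : ℝ) (x : Sp n) : 0 ≤ CutD_b Z d x := le_max_left _ _

private lemma CutD_b1 (Z : Set (Sp n)) (d : ℝ) (x : Sp n) : CutD_b Z d x ≤ 1 :=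
  max_le zero_le_one (min_le_left _ _)

private lemma CutD_lip (Z : Set (Sp n)) {d : ℝ} (hd : 0 < d) (x y : Sp n) :
    |CutD_b Z d x - CutD_b Z d y| ≤ 4 / d * dist x y := by
  unfold CutD_b
  have h1 : |max 0 (min 1 ((infDist x Z - d / 2) / (d / 4))) -
      max 0 (min 1 ((infDist y Z - d / 2) / (d / 4)))| ≤
      |(infDist x Z - d / 2) / (d / 4) - (infDist y Z - d / 2) / (d / 4)| := by
    refine le_trans (abs_max_sub_max_le_max _ _ _ _) ?_
    rw [sub_self, abs_zero, max_eq_right (abs_nonneg _)]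
    refine le_trans (abs_min_sub_min_le_max _ _ _ _) ?_
    rw [sub_self, abs_zero, max_eq_right (abs_nonneg _)]
  refine le_trans h1 ?_
  have h2 : (infDist x Z - d / 2) / (d / 4) - (infDist y Z - d / 2) / (d / 4) =
      4 / d * (infDist x Z - infDist y Z) := by
    field_simp
    ring
  rw [h2, abs_mul, abs_of_pos (by positivity : 0 < 4 / d)]
  apply mul_le_mul_of_nonneg_left _ (by positivity)
  rw [abs_sub_le_iff]
  have h3 := infDist_le_infDist_add_dist (s := Z) (x := x) (y := y)
  have h4 := infDist_le_infDist_add_dist (s := Z) (x := y) (y := x)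
  rw [dist_comm y x] at h4
  constructor <;> linarith

theorem exists_zeta (n : ℕ) : ∃ C₆ : ℝ, 0 ≤ C₆ ∧ ∀ (Z : Set (Sp n)) (d : ℝ), 0 < d →
    ∃ ζ : Sp n → ℂ, ContDiff ℝ ∞ ζ ∧ (∀ x, ‖ζ x‖ ≤ 1) ∧ (∀ x, gs1 ζ x ≤ C₆ / d ^ 2) ∧
      (∀ x, (∀ z ∈ Z, d ≤ dist x z) → ζ x = 1 ∧ gs1 ζ x = 0) ∧
      (∀ x, ζ x ≠ 0 ∨ gs1 ζ x ≠ 0 → ∀ z ∈ Z, d / 4 ≤ dist x z) := by
  refine ⟨16 * n, by positivity, ?_⟩
  intro Z d hd
  rcases Z.eq_empty_or_nonempty with hZ | hZ
  · have h0 : ∀ x, gs1 (fun _ : Sp n => (1 : ℂ)) x = 0 := by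
      intro x
      unfold gs1 pd
      simp
    refine ⟨fun _ => 1, contDiff_const, by simp, ?_, ?_, ?_⟩
    · intro x
      rw [h0]; positivity
    · intro x _
      exact ⟨rfl, h0 x⟩
    · intro x _ z hz
      rw [hZ] at hz
      exact absurd hz (notMem_empty _)
  set g : Sp n → ℂ := fun x => ((CutD_b Z d x : ℝ) : ℂ) with hg
  have hlip : ∀ x y, ‖g x - g y‖ ≤ 4 / d * dist x y := by
    intro x y
    rw [hg]
    simp only
    rw [← Complex.ofReal_sub, Complex.norm_real, Real.norm_eq_abs]
    exact CutD_lip Z hd x y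
  have hgc : Continuous g := by
    have : LipschitzWith (Real.toNNReal (4 / d)) g := by
      apply LipschitzWith.of_dist_le_mul
      intro x y
      rw [dist_eq_norm, Real.coe_toNNReal _ (by positivity)]
      exact hlip x y
    exact this.continuous
  have hg1 : ∀ x, ‖g x‖ ≤ 1 := by
    intro x
    rw [hg]
    simp only
    rw [Complex.norm_real, Real.norm_of_nonneg (CutD_b0 Z d x)]
    exact CutD_b1 Z d x
  have hd8 : 0 < d / 8 := by positivity
  set ζ : Sp n → ℂ := mol volume (d / 8) g with hζ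
  have hζs : ContDiff ℝ ∞ ζ := mol_contDiff volume hd8 hgc
  have hζ1 : ∀ x, ‖ζ x‖ ≤ 1 := by
    intro x
    rw [hζ, CutD_mol]
    exact CutD_bd hd8 fun t => hg1 _
  have hζl : LipschitzWith (Real.toNNReal (4 / d)) ζ := by
    apply LipschitzWith.of_dist_le_mul
    intro x y
    rw [dist_eq_norm, Real.coe_toNNReal _ (by positivity), hζ, CutD_mol, CutD_mol,
      ← integral_sub]
    · have e1 : ∀ t, rho volume (d / 8) t • g (x - t) - rho volume (d / 8) t • g (y - t) =
          rho volume (d / 8) t • (g (x - t) - g (y - t)) := by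
        intro t; rw [smul_sub]
      simp only [e1]
      apply CutD_bd hd8
      intro t
      refine le_trans (hlip _ _) ?_
      rw [dist_sub_right]
    · exact CutD_int hd8 (hgc.comp (by fun_prop))
    · exact CutD_int hd8 (hgc.comp (by fun_prop))
  have hgs : ∀ x, gs1 ζ x ≤ 16 * n / d ^ 2 := by
    intro x
    unfold gs1
    have h1 : ∀ i : Fin n, ‖pd (ee n i) ζ x‖ ^ 2 ≤ 16 / d ^ 2 := by
      intro i
      have h2 : ‖fderiv ℝ ζ x‖ ≤ 4 / d := by
        have := norm_fderiv_le_of_lipschitz ℝ hζl (x₀ := x)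
        rwa [Real.coe_toNNReal _ (by positivity)] at this
      have h3 : ‖pd (ee n i) ζ x‖ ≤ 4 / d := by
        unfold pd
        refine le_trans (ContinuousLinearMap.le_opNorm _ _) ?_
        have h4 : ‖ee n i‖ = 1 := by unfold ee; simp
        rw [h4, mul_one]
        exact h2
      calc ‖pd (ee n i) ζ x‖ ^ 2 ≤ (4 / d) ^ 2 := pow_le_pow_left₀ (norm_nonneg _) h3 2
        _ = 16 / d ^ 2 := by rw [div_pow]; norm_num
    calc ∑ i, ‖pd (ee n i) ζ x‖ ^ 2 ≤ ∑ _i : Fin n, 16 / d ^ 2 := Finset.sum_le_sum fun i _ => h1 i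
      _ = 16 * n / d ^ 2 := by
        rw [Finset.sum_const, Finset.card_univ, Fintype.card_fin, nsmul_eq_mul]
        ring
  -- constant near a point
  have hconst : ∀ (x : Sp n) (c : ℂ), (∀ y ∈ ball x (d / 4), g y = c) →
      ζ x = c ∧ gs1 ζ x = 0 := by
    intro x c hc
    have h1 : ∀ y ∈ ball x (d / 8), ζ y = c := by
      intro y hy
      have hyc : g y = c := hc y (ball_subset_ball (by linarith) hy)
      have h2 : dist (mol volume (d / 8) g y) (g y) ≤ 0 := by
        apply mol_dist volume hd8 hgc le_rfl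
        intro w hw
        have : w ∈ ball x (d / 4) := by
          rw [mem_ball] at hw hy ⊢
          have := dist_triangle w y x
          linarith
        rw [hc w this, hyc, dist_self]
      rw [← hyc]
      exact dist_le_zero.1 h2
    refine ⟨h1 x (mem_ball_self hd8), ?_⟩
    have h3 : ζ =ᶠ[𝓝 x] fun _ => c := by
      filter_upwards [ball_mem_nhds x hd8] with y hy
      exact h1 y hy
    unfold gs1 pd
    rw [h3.fderiv_eq]
    simp
  refine ⟨ζ, hζs, hζ1, hgs, ?_, ?_⟩
  · intro x hx
    apply hconst x 1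
    intro y hy
    rw [mem_ball] at hy
    have h1 : d ≤ infDist x Z := by
      rw [le_infDist hZ]
      intro z hz
      exact hx z hz
    have h2 : infDist x Z ≤ infDist y Z + dist x y := infDist_le_infDist_add_dist
    rw [dist_comm] at hy
    have h3 : 1 ≤ (infDist y Z - d / 2) / (d / 4) := by
      rw [le_div_iff₀ (by positivity)]
      linarith
    rw [hg]
    simp only
    unfold CutD_b
    rw [min_eq_left h3, max_eq_right zero_le_one, Complex.ofReal_one]
  · intro x hx z hz
    by_contra hc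
    push Not at hc
    have h1 : ∀ y ∈ ball x (d / 4), g y = 0 := by
      intro y hy
      rw [mem_ball] at hy
      have h2 : infDist y Z ≤ dist y z := infDist_le_dist_of_mem hz
      have h3 := dist_triangle y x z
      have h4 : (infDist y Z - d / 2) / (d / 4) ≤ 0 := by
        apply div_nonpos_of_nonpos_of_nonneg
        · linarith
        · positivity
      rw [hg]
      simp only
      unfold CutD_b
      rw [min_eq_right (by linarith), max_eq_left h4, Complex.ofReal_zero]
    obtain ⟨h5, h6⟩ := hconst x 0 h1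
    rcases hx with h7 | h7
    · exact h7 h5
    · exact h7 h6

end Pool.Agent.Work.MP_375441_an.Hol
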