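import Pool.Agent.Work.MP_375441_an.Hol.ProdR
import Pool.Agent.Work.MP_375441_an.Hol.CutD
import Pool.Agent.Work.MP_375441_an.Hol.Mo

/-!
# Module Upper: the energy grows at most like `ε^{2 - 2/α}`

Proof.  Let `S` bound all `‖g a x‖` (hence all `‖mo g δ a x‖`), `N = card ι`, `C₆` from
`exists_zeta`, `Z = {z ∈ ball x₀ R | ∀ a, g a z = 0}`.  Choose `c₁ > 0` with `c₁ ≤ R/4` and
`N K² (2c₁)^(2α) < 1`; `d = c₁ ε^(1/α) ≤ R/4` for `ε ≤ 1`; `δ₀ = d/8`.  Let `0 < δ ≤ δ₀`,
`u = mo g δ`.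
(1) If `x ∈ ball x₀ r` (`r ≤ R/2`), `z ∈ Z`, `dist x z < d`, then for `y ∈ closedBall x δ`,
`y ∈ ball x₀ R`, `‖y - z‖ ≤ 2d`, so `‖g a y‖ ≤ K (2d)^α` and `‖u a x‖ ≤ K (2d)^α` (average; use
`mol_eq`, `rho_nonneg`, `rho_integral`, `rho_support`); `nu u x ≤ N K² (2d)^(2α) < ε²`.
(2) `ζ` from `exists_zeta` with `Z, d`; `v_a = (η ζ) u_a` is a test in `ball x₀ r`.  Where
`η ζ ≠ 0`: `x ∈ ball x₀ r` and `d/4 ≤ dist x z` for all `z ∈ Z`, so `closedBall x δ` is contained in
`Nz g ∩ ball x₀ R` and `lsq c u x ≤ C₂` by `hC₂`.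
(3) `gs1 (ηζ) * nu u ≤ 2 gs1 η N S² + 2 ‖η‖² gs1 ζ nu u` (`gs1_prod`); if `gs1 ζ x ≠ 0` and
`x ∈ ball x₀ r` then some `z ∈ Z` has `dist x z < d`, so by (1)
`gs1 ζ nu u ≤ (C₆/d²) N K² (2d)^(2α) = C ε^(2 - 2/α)`.
(4) `Coer`, `lsq_prod`, `gsq_prod`: `τ ∫ gsq v ≤ ∫ lsq c v ≤ C (1 + ε^(2-2/α))` (integrate over
`tsupport η`, compact), and on `{ε² ≤ nu u} ∩ {η ≠ 0}` by (1) and (a) `ζ = 1`, `gs1 ζ = 0`, so
`gsq v ≥ ½ ‖η‖² gsq u - 2 gs1 η N S²`.
-/

open MeasureTheory Set Filter Topology Function Metric Module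
open scoped ContDiff

namespace Pool.Agent.Work.MP_375441_an.Hol

open Pool.Agent.Work.MP_375441_an

set_option linter.unusedSectionVars false

variable {n : ℕ} {ι M : Type} [Fintype ι] [Fintype M]

private lemma upper_cont_pd {f : Sp n → ℂ} (hf : ContDiff ℝ ∞ f) (v : Sp n) :
    Continuous (pd v f) :=
  (pd_contDiff (m := 0) v hf (by simp)).continuous

private lemma upper_cont_nu {u : ι → Sp n → ℂ} (hu : ∀ a, ContDiff ℝ ∞ (u a)) :
    Continuous (nu u) := by
  unfold nu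
  exact continuous_finsetSum _ fun a _ => ((hu a).continuous.norm).pow 2

private lemma upper_cont_gsq {u : ι → Sp n → ℂ} (hu : ∀ a, ContDiff ℝ ∞ (u a)) :
    Continuous (gsq u) := by
  unfold gsq
  exact continuous_finsetSum _ fun i _ => continuous_finsetSum _ fun a _ =>
    ((upper_cont_pd (hu a) _).norm).pow 2

private lemma upper_cont_gs1 {lam : Sp n → ℂ} (hu : ContDiff ℝ ∞ lam) :
    Continuous (gs1 lam) := by
  unfold gs1
  exact continuous_finsetSum _ fun i _ => ((upper_cont_pd hu _).norm).pow 2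

private lemma upper_cont_lsq {c : M → Fin n → ι → Sp n → ℂ} (hc : ∀ m i a, Continuous (c m i a))
    {u : ι → Sp n → ℂ} (hu : ∀ a, ContDiff ℝ ∞ (u a)) : Continuous (lsq c u) := by
  unfold lsq Lop
  exact continuous_finsetSum _ fun m _ => (Continuous.norm (continuous_finsetSum _ fun i _ =>
    continuous_finsetSum _ fun a _ => (hc m i a).mul (upper_cont_pd (hu a) _))).pow 2

private lemma upper_integrable {f : Sp n → ℝ} (hf : Continuous f) {K : Set (Sp n)}
    (hK : IsCompact K) (h0 : ∀ x, x ∉ K → f x = 0) : Integrable f :=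
  hf.integrable_of_hasCompactSupport (HasCompactSupport.intro hK h0)

/-- average bound -/
private lemma upper_avg {f : Sp n → ℂ} (hf : Continuous f) {δ B : ℝ} (hδ : 0 < δ) (hB : 0 ≤ B)
    {x : Sp n} (h : ∀ y ∈ ball x δ, ‖f y‖ ≤ B) : ‖mol volume δ f x‖ ≤ B := by
  have h1 := dist_convolution_le (μ := (volume : Measure (Sp n))) (f := rho volume δ) (g := f)
    (x₀ := x) (z₀ := 0) hB (rho_support volume hδ) (rho_nonneg volume hδ) (rho_integral volume hδ)
    hf.aestronglyMeasurable (fun y hy => by simpa using h y hy)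
  simpa [mol] using h1

/-- choice of the radius constant -/
private lemma upper_choice (N : ℕ) {K α R : ℝ} (hK : 0 ≤ K) (hα : 0 < α) (hR : 0 < R) :
    ∃ c₁ : ℝ, 0 < c₁ ∧ c₁ ≤ R / 4 ∧ (N : ℝ) * (K * (2 * c₁) ^ α) ^ 2 < 1 := by
  have hN : (0:ℝ) ≤ N := Nat.cast_nonneg _
  have hq : 0 < 1 / ((N:ℝ) * K + 1) := by positivity
  refine ⟨min (R / 4) (1 / 2 * (1 / ((N:ℝ) * K + 1)) ^ (1 / α)), ?_, min_le_left _ _, ?_⟩
  · exact lt_min (by positivity) (by positivity)
  · set c₁ := min (R / 4) (1 / 2 * (1 / ((N:ℝ) * K + 1)) ^ (1 / α)) with hc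
    have hc0 : 0 < c₁ := lt_min (by positivity) (by positivity)
    have h1 : (2 * c₁) ^ α ≤ 1 / ((N:ℝ) * K + 1) := by
      have h2 : 2 * c₁ ≤ (1 / ((N:ℝ) * K + 1)) ^ (1 / α) := by
        have := min_le_right (R / 4) (1 / 2 * (1 / ((N:ℝ) * K + 1)) ^ (1 / α))
        rw [← hc] at this
        linarith
      calc (2 * c₁) ^ α ≤ ((1 / ((N:ℝ) * K + 1)) ^ (1 / α)) ^ α :=
            Real.rpow_le_rpow (by positivity) h2 hα.le
        _ = _ := by
          rw [← Real.rpow_mul hq.le, one_div_mul_cancel hα.ne', Real.rpow_one]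
    have h3 : 0 ≤ (2 * c₁) ^ α := by positivity
    have h4 : K * (2 * c₁) ^ α ≤ K / ((N:ℝ) * K + 1) := by
      calc _ ≤ K * (1 / ((N:ℝ) * K + 1)) := mul_le_mul_of_nonneg_left h1 hK
        _ = _ := by ring
    have h5 : (K * (2 * c₁) ^ α) ^ 2 ≤ (K / ((N:ℝ) * K + 1)) ^ 2 :=
      pow_le_pow_left₀ (by positivity) h4 2
    calc (N : ℝ) * (K * (2 * c₁) ^ α) ^ 2 ≤ N * (K / ((N:ℝ) * K + 1)) ^ 2 :=
          mul_le_mul_of_nonneg_left h5 hN
      _ < 1 := by
        rw [div_pow, ← mul_div_assoc, div_lt_one (by positivity)]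
        have h6 : (N:ℝ) ≤ (N:ℝ) ^ 2 := by
          have : N ≤ N ^ 2 := Nat.le_self_pow (by norm_num) N
          exact_mod_cast this
        nlinarith [mul_nonneg hN hK, sq_nonneg K, mul_le_mul_of_nonneg_right h6 (sq_nonneg K)]

theorem upper {g : ι → Sp n → ℂ} {c : M → Fin n → ι → Sp n → ℂ} {d : M → ι → Sp n → ℂ}
    (h : Glob g c d) {x₀ : Sp n} {r R : ℝ} (hr : 0 < r) (hrR : r ≤ R / 2) {τ : ℝ} (hτ : 0 < τ)
    (hco : Coer c (ball x₀ r) τ) {K₁ : ℝ}
    (hK₁ : ∀ x ∈ ball x₀ r, ksq (fun m i a => c m i a x) ≤ K₁) {η : Sp n → ℂ}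
    (hη : IsTest (ball x₀ r) η) (hη1 : ∀ x, ‖η x‖ ≤ 1) {C₂ : ℝ} (hC₂0 : 0 ≤ C₂)
    (hC₂ : ∀ δ, 0 < δ → ∀ x, closedBall x δ ⊆ Nz g ∩ ball x₀ R → lsq c (mo g δ) x ≤ C₂)
    {K α : ℝ} (hK : 0 ≤ K) (hα : 0 < α) (hα1 : α ≤ 1) (hF : Flat g x₀ R K α) :
    ∃ C₅, 0 ≤ C₅ ∧ ∀ ε, 0 < ε → ε ≤ 1 → ∃ δ₀ > 0, ∀ δ, 0 < δ → δ ≤ δ₀ →
      AA η (mo g δ) ε ≤ C₅ * (1 / ε) ^ (2 / α - 2) := by
  have hR : 0 < R := by linarith
  obtain ⟨S, hS, hSb⟩ := mo_bd h.gc h.gk
  obtain ⟨C₆, hC₆, hzeta⟩ := exists_zeta n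
  obtain ⟨c₁, hc₁, hc₁R, hNκ⟩ := upper_choice (Fintype.card ι) hK hα hR
  have hksq : ∀ x, 0 ≤ ksq (fun m i a => c m i a x) := fun x => by
    unfold ksq
    exact Finset.sum_nonneg fun m _ => Finset.sum_nonneg fun i _ => Finset.sum_nonneg fun a _ =>
      sq_nonneg _
  have hK0 : 0 ≤ K₁ := (hksq x₀).trans (hK₁ x₀ (mem_ball_self hr))
  have hI₁n : 0 ≤ ∫ x, gs1 η x := integral_nonneg fun x => gs1_nonneg η x
  have hI₀n : 0 ≤ ∫ x, ‖η x‖ ^ 2 := integral_nonneg fun x => sq_nonneg _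
  set I₁ := ∫ x, gs1 η x with hI₁
  set I₀ := ∫ x, ‖η x‖ ^ 2 with hI₀
  refine ⟨4 * S * I₁ + (2 / τ) * (2 * C₂ * I₀ + 4 * K₁ * S * I₁) +
    (2 / τ) * (4 * K₁ * (C₆ / c₁ ^ 2) * I₀), by positivity, fun ε hε hε1 => ?_⟩
  set D : ℝ := c₁ * ε ^ (1 / α) with hD
  have hD0 : 0 < D := by positivity
  have hDc : D ≤ c₁ := by
    have : ε ^ (1 / α) ≤ 1 := Real.rpow_le_one hε.le hε1 (by positivity)
    nlinarith
  set P : ℝ := (1 / ε) ^ (2 / α - 2) with hP
  have hP1 : 1 ≤ P := by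
    apply Real.one_le_rpow
    · rw [le_div_iff₀ hε]; linarith
    · have : 1 ≤ 1 / α := by rw [le_div_iff₀ hα]; linarith
      have h2 : 2 / α = 2 * (1 / α) := by ring
      linarith
  have hDP : C₆ / D ^ 2 * ε ^ 2 = C₆ / c₁ ^ 2 * P := by
    have h1 : D ^ 2 = c₁ ^ 2 * ε ^ (2 / α) := by
      rw [hD, mul_pow, ← Real.rpow_natCast (ε ^ (1 / α)) 2, ← Real.rpow_mul hε.le]
      congr 2
      push_cast; ring
    have h2 : P = ε ^ 2 / ε ^ (2 / α) := by
      rw [hP, one_div, Real.inv_rpow hε.le, ← Real.rpow_neg hε.le, neg_sub,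
        Real.rpow_sub hε]
      norm_num
    rw [h1, h2]
    have h3 : 0 < ε ^ (2 / α) := by positivity
    field_simp
  have h2D : (2 * D) ^ α = (2 * c₁) ^ α * ε := by
    rw [hD, ← mul_assoc, Real.mul_rpow (by positivity) (by positivity), ← Real.rpow_mul hε.le,
      one_div_mul_cancel hα.ne', Real.rpow_one]
  refine ⟨D / 8, by positivity, fun δ hδ hδD => ?_⟩
  set u : ι → Sp n → ℂ := mo g δ with hu_def
  have hu : ∀ a, ContDiff ℝ ∞ (u a) := fun a => mo_smooth h.gc hδ a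
  have hnu : ∀ x, nu u x ≤ S := fun x => hSb δ hδ x
  set Z : Set (Sp n) := {z | z ∈ ball x₀ R ∧ ∀ a, g a z = 0} with hZ
  -- step 1
  have hstep1 : ∀ x ∈ ball x₀ r, ∀ z ∈ Z, dist x z < D → nu u x < ε ^ 2 := by
    intro x hx z hz hxz
    have hb : ∀ a, ‖u a x‖ ≤ K * (2 * c₁) ^ α * ε := fun a => by
      refine upper_avg (h.gc a) hδ (by positivity) fun y hy => ?_
      have hyx : dist y x < δ := mem_ball.mp hy
      have hy1 : y ∈ ball x₀ R := by
        rw [mem_ball]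
        have := dist_triangle y x x₀
        have h2 : dist x x₀ < r := mem_ball.mp hx
        linarith
      have h1 := hF y hy1 z hz.1 hz.2 a
      have h2 : ‖y - z‖ ≤ 2 * D := by
        rw [← dist_eq_norm]
        have := dist_triangle y x z
        linarith
      calc ‖g a y‖ ≤ K * ‖y - z‖ ^ α := h1
        _ ≤ K * (2 * D) ^ α := mul_le_mul_of_nonneg_left
            (Real.rpow_le_rpow (norm_nonneg _) h2 hα.le) hK
        _ = _ := by rw [h2D]; ring
    calc nu u x ≤ ∑ _a : ι, (K * (2 * c₁) ^ α * ε) ^ 2 :=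
          Finset.sum_le_sum fun a _ => pow_le_pow_left₀ (norm_nonneg _) (hb a) 2
      _ = (Fintype.card ι * (K * (2 * c₁) ^ α) ^ 2) * ε ^ 2 := by
          rw [Finset.sum_const, Finset.card_univ, nsmul_eq_mul]; ring
      _ < 1 * ε ^ 2 := mul_lt_mul_of_pos_right hNκ (by positivity)
      _ = ε ^ 2 := one_mul _
  obtain ⟨ζ, hζs, hζ1, hζg, hζa, hζb⟩ := hzeta Z D hD0
  set A : Set (Sp n) := {x | ε ^ 2 ≤ nu u x} with hA
  have hAm : MeasurableSet A := (isClosed_le continuous_const (upper_cont_nu hu)).measurableSet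
  set F : Sp n → ℝ := fun x => ‖η x‖ ^ 2 * gsq u x with hFd
  have hFn : ∀ x, 0 ≤ F x := fun x => mul_nonneg (sq_nonneg _) (gsq_nonneg u x)
  have hFi : Integrable F := by
    refine upper_integrable (((hη.smooth.continuous.norm).pow 2).mul (upper_cont_gsq hu))
      hη.comp ?_
    intro x hx
    change ‖η x‖ ^ 2 * gsq u x = 0
    rw [image_eq_zero_of_notMem_tsupport hx]
    simp
  have hgi : Integrable (gs1 η) :=
    upper_integrable (upper_cont_gs1 hη.smooth) hη.comp fun x hx => gs1_zero hx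
  have hηi : Integrable (fun x => ‖η x‖ ^ 2) :=
    upper_integrable ((hη.smooth.continuous.norm).pow 2) hη.comp fun x hx => by
      rw [image_eq_zero_of_notMem_tsupport hx]; simp
  have hAA1 : AA η u ε = ∫ x, A.indicator F x := by
    rw [integral_indicator hAm]; rfl
  set lam : Sp n → ℂ := fun x => ζ x * η x with hlam
  have hlt : IsTest (ball x₀ r) lam := hη.mul_left isOpen_univ (subset_univ _) hζs.contDiffOn
  set v : ι → Sp n → ℂ := fun a y => lam y * u a y with hv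
  have hvt : ∀ a, IsTest (ball x₀ r) (v a) := fun a => by
    have := hlt.mul_left isOpen_univ (subset_univ _) (hu a).contDiffOn
    have h2 : v a = fun x => u a x * lam x := by
      funext x; simp only [hv]; ring
    rw [h2]; exact this
  have hlts : tsupport lam ⊆ tsupport η := tsupport_mul_subset_right' _ _
  have hdl : ∀ x, DifferentiableAt ℝ lam x := fun x => hlt.smooth.differentiable (by simp) x
  have hdu : ∀ x a, DifferentiableAt ℝ (u a) x := fun x a => (hu a).differentiable (by simp) x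
  have hdK : ∀ x, DifferentiableAt ℝ ζ x := fun x => hζs.differentiable (by simp) x
  have hdη : ∀ x, DifferentiableAt ℝ η x := fun x => hη.smooth.differentiable (by simp) x
  have hzero : ∀ x, x ∉ tsupport lam → ∀ i a, pd (ee n i) (v a) x = 0 := fun x hx i a => by
    apply image_eq_zero_of_notMem_tsupport
    intro h
    apply hx
    have h1 := pd_tsupport _ _ h
    exact (tsupport_mul_subset_left (f := lam) (g := u a)) h1
  have hgvi : Integrable (gsq v) :=
    upper_integrable (upper_cont_gsq fun a => (hvt a).smooth) hlt.comp fun x hx => by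
      unfold gsq
      simp [hzero x hx]
  have hlvi : Integrable (lsq c v) :=
    upper_integrable (upper_cont_lsq (fun m i a => (h.cc m i a).continuous)
      fun a => (hvt a).smooth) hlt.comp fun x hx => by
      unfold lsq Lop
      simp [hzero x hx]
  -- pointwise inequalities
  have hgl : ∀ x, gs1 lam x ≤ 2 * (‖η x‖ ^ 2 * gs1 ζ x) + 2 * gs1 η x := fun x => by
    have h := gs1_prod (hdK x) (hdη x)
    have h1 : ‖ζ x‖ ^ 2 ≤ 1 := by
      have := hζ1 x
      nlinarith [norm_nonneg (ζ x)]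
    have h2 : ‖ζ x‖ ^ 2 * gs1 η x ≤ gs1 η x := by
      nlinarith [gs1_nonneg η x]
    calc gs1 lam x ≤ _ := h
      _ ≤ _ := by linarith
  have hCP : 0 ≤ C₆ / c₁ ^ 2 * P := by positivity
  have hp1 : ∀ x, lsq c v x ≤ (2 * C₂ + 4 * K₁ * (C₆ / c₁ ^ 2 * P)) * ‖η x‖ ^ 2 +
      4 * K₁ * S * gs1 η x := fun x => by
    have hl := lsq_prod c (hdl x) (hdu x)
    by_cases hx : x ∈ tsupport η
    · have hxU : x ∈ ball x₀ r := hη.supp hx
      have hk := hK₁ x hxU
      have h1 : ‖lam x‖ ^ 2 * lsq c u x ≤ C₂ * ‖η x‖ ^ 2 := by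
        by_cases h0 : ζ x = 0
        · have : lam x = 0 := by simp [hlam, h0]
          rw [this]
          simp only [norm_zero]
          have : 0 ≤ C₂ * ‖η x‖ ^ 2 := by positivity
          simpa using this
        · have h2 := hζb x (Or.inl h0)
          have h3 : lsq c u x ≤ C₂ := by
            refine hC₂ δ hδ x fun y hy => ?_
            have hyx : dist y x ≤ δ := mem_closedBall.mp hy
            have hy1 : y ∈ ball x₀ R := by
              rw [mem_ball]
              have := dist_triangle y x x₀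
              have h2 : dist x x₀ < r := mem_ball.mp hxU
              linarith
            refine ⟨?_, hy1⟩
            by_contra hcon
            have h4 : ∀ a, g a y = 0 := fun a => by
              by_contra h5
              exact hcon ⟨a, h5⟩
            have h5 := h2 y ⟨hy1, h4⟩
            rw [dist_comm] at h5
            linarith
          have h4 : ‖lam x‖ ^ 2 ≤ ‖η x‖ ^ 2 := by
            have h5 : ‖lam x‖ ≤ ‖η x‖ := by
              simp only [hlam, norm_mul]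
              have := hζ1 x
              nlinarith [norm_nonneg (ζ x), norm_nonneg (η x)]
            exact pow_le_pow_left₀ (norm_nonneg _) h5 2
          have h6 : 0 ≤ lsq c u x := by
            unfold lsq; exact Finset.sum_nonneg fun m _ => sq_nonneg _
          calc ‖lam x‖ ^ 2 * lsq c u x ≤ ‖η x‖ ^ 2 * C₂ :=
                mul_le_mul h4 h3 h6 (sq_nonneg _)
            _ = _ := mul_comm _ _
      have h2 : gs1 lam x * nu u x ≤ 2 * S * gs1 η x + 2 * (C₆ / c₁ ^ 2 * P) * ‖η x‖ ^ 2 := by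
        have h3 : gs1 ζ x * nu u x ≤ C₆ / c₁ ^ 2 * P := by
          by_cases h4 : gs1 ζ x = 0
          · rw [h4, zero_mul]; exact hCP
          · have h5 : ∃ z ∈ Z, dist x z < D := by
              by_contra hcon
              push Not at hcon
              exact h4 (hζa x hcon).2
            obtain ⟨z, hz, hxz⟩ := h5
            have h6 := hstep1 x hxU z hz hxz
            calc gs1 ζ x * nu u x ≤ C₆ / D ^ 2 * ε ^ 2 :=
                  mul_le_mul (hζg x) h6.le (nu_nonneg _ _) (by positivity)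
              _ = _ := hDP
        have h4 := mul_le_mul_of_nonneg_right (hgl x) (nu_nonneg u x)
        have h5 : gs1 η x * nu u x ≤ S * gs1 η x := by
          rw [mul_comm]
          exact mul_le_mul_of_nonneg_right (hnu x) (gs1_nonneg η x)
        have h6 := mul_le_mul_of_nonneg_right h3 (sq_nonneg ‖η x‖)
        nlinarith
      have h3 : ksq (fun m i a => c m i a x) * (gs1 lam x * nu u x) ≤
          K₁ * (2 * S * gs1 η x + 2 * (C₆ / c₁ ^ 2 * P) * ‖η x‖ ^ 2) :=
        mul_le_mul hk h2 (mul_nonneg (gs1_nonneg _ _) (nu_nonneg _ _)) hK0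
      calc lsq c v x ≤ _ := hl
        _ ≤ _ := by nlinarith
    · have h1 : lam x = 0 := by
        simp [hlam, image_eq_zero_of_notMem_tsupport hx]
      have h2 : gs1 lam x = 0 := gs1_zero fun h => hx (hlts h)
      rw [h1, h2] at hl
      have h3 : lsq c v x ≤ 0 := by
        have : lsq c v x ≤ _ := hl
        simpa using this
      have h4 : 0 ≤ (2 * C₂ + 4 * K₁ * (C₆ / c₁ ^ 2 * P)) * ‖η x‖ ^ 2 := by positivity
      have h5 : 0 ≤ 4 * K₁ * S * gs1 η x := by
        have := gs1_nonneg η x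
        positivity
      linarith
  have hp2 : ∀ x, 1 / 2 * A.indicator F x - 2 * S * gs1 η x ≤ gsq v x := fun x => by
    by_cases hx : x ∈ A ∧ x ∈ tsupport η
    · rw [indicator_of_mem hx.1]
      have h := gsq_prod (hdl x) (hdu x)
      have h0 : ∀ z ∈ Z, D ≤ dist x z := by
        intro z hz
        by_contra hcon
        push Not at hcon
        exact absurd (hstep1 x (hη.supp hx.2) z hz hcon) (not_lt.mpr hx.1)
      obtain ⟨h1, h2⟩ := hζa x h0
      have h3 := hgl x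
      rw [h2] at h3
      have h4 : ‖lam x‖ ^ 2 * gsq u x = F x := by
        simp only [hlam, hFd, h1, one_mul]
      rw [h4] at h
      have h5 : gs1 lam x * nu u x ≤ 2 * gs1 η x * S := by
        refine mul_le_mul (by linarith) (hnu x) (nu_nonneg _ _) ?_
        have := gs1_nonneg η x
        positivity
      have h6 : _ ≤ gsq v x := h
      linarith
    · have h0 : A.indicator F x = 0 := by
        by_cases hxA : x ∈ A
        · rw [indicator_of_mem hxA]
          have : x ∉ tsupport η := fun h => hx ⟨hxA, h⟩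
          simp [hFd, image_eq_zero_of_notMem_tsupport this]
        · exact indicator_of_notMem hxA _
      rw [h0]
      have h1 := gsq_nonneg v x
      have h2 : 0 ≤ 2 * S * gs1 η x := by
        have := gs1_nonneg η x
        positivity
      linarith
  -- integrate
  have hAi : Integrable (A.indicator F) := hFi.indicator hAm
  have hint1 : ∫ x, lsq c v x ≤ (2 * C₂ + 4 * K₁ * (C₆ / c₁ ^ 2 * P)) * I₀ +
      4 * K₁ * S * I₁ := by
    have h := integral_mono hlvi ((hηi.const_mul (2 * C₂ + 4 * K₁ * (C₆ / c₁ ^ 2 * P))).add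
      (hgi.const_mul (4 * K₁ * S))) hp1
    refine h.trans (le_of_eq ?_)
    rw [integral_add' (hηi.const_mul (2 * C₂ + 4 * K₁ * (C₆ / c₁ ^ 2 * P)))
      (hgi.const_mul (4 * K₁ * S)), integral_const_mul, integral_const_mul]
  have hint2 : 1 / 2 * AA η u ε - 2 * S * I₁ ≤ ∫ x, gsq v x := by
    have h := integral_mono ((hAi.const_mul (1 / 2)).sub (hgi.const_mul (2 * S))) hgvi hp2
    refine le_trans (le_of_eq ?_) h
    rw [integral_sub' (hAi.const_mul (1 / 2)) (hgi.const_mul (2 * S)), integral_const_mul,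
      integral_const_mul, hAA1]
  have hcoer := hco v hvt
  have hfin : τ * (1 / 2 * AA η u ε - 2 * S * I₁) ≤
      (2 * C₂ + 4 * K₁ * (C₆ / c₁ ^ 2 * P)) * I₀ + 4 * K₁ * S * I₁ :=
    (mul_le_mul_of_nonneg_left hint2 hτ.le).trans (hcoer.trans hint1)
  have h4 := mul_le_mul_of_nonneg_left hfin (by positivity : (0:ℝ) ≤ 2 / τ)
  have h5 : 2 / τ * (τ * (1 / 2 * AA η u ε - 2 * S * I₁)) = AA η u ε - 4 * S * I₁ := by
    field_simp
    ring
  rw [h5] at h4
  have hX : 0 ≤ 4 * S * I₁ + (2 / τ) * (2 * C₂ * I₀ + 4 * K₁ * S * I₁) := by positivity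
  have h6 : 4 * S * I₁ + (2 / τ) * (2 * C₂ * I₀ + 4 * K₁ * S * I₁) ≤
      (4 * S * I₁ + (2 / τ) * (2 * C₂ * I₀ + 4 * K₁ * S * I₁)) * P :=
    le_mul_of_one_le_right hX hP1
  calc AA η u ε ≤ (4 * S * I₁ + (2 / τ) * (2 * C₂ * I₀ + 4 * K₁ * S * I₁)) +
        (2 / τ) * (4 * K₁ * (C₆ / c₁ ^ 2) * I₀) * P := by
        have h7 : 2 / τ * ((2 * C₂ + 4 * K₁ * (C₆ / c₁ ^ 2 * P)) * I₀ + 4 * K₁ * S * I₁) =
          (2 / τ) * (2 * C₂ * I₀ + 4 * K₁ * S * I₁) +
          (2 / τ) * (4 * K₁ * (C₆ / c₁ ^ 2) * I₀) * P := by ring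
        linarith
    _ ≤ _ := by
        have h8 : (4 * S * I₁ + (2 / τ) * (2 * C₂ * I₀ + 4 * K₁ * S * I₁) +
          (2 / τ) * (4 * K₁ * (C₆ / c₁ ^ 2) * I₀)) * P =
          (4 * S * I₁ + (2 / τ) * (2 * C₂ * I₀ + 4 * K₁ * S * I₁)) * P +
          (2 / τ) * (4 * K₁ * (C₆ / c₁ ^ 2) * I₀) * P := by ring
        rw [h8]
        linarith

end Pool.Agent.Work.MP_375441_an.Hol
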