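import Pool.Agent.Work.MP_375441_an.Hol.Mo
import Pool.Agent.Work.MP_375441_an.Hol.Hole
import Pool.Agent.Work.MP_375441_an.Hol.Growth
import Pool.Agent.Work.MP_375441_an.Hol.Upper

/-!
# Module UBnd: uniform bound of the energies

Proof.  `S` from `mo_bd`; `C₄` from `hole` (with this `S`, `C₂`, `C₃`, `U = ball x₀ r`); `C₅` from
`upper`; `q = 1 + 1/C₃`, `σ = 2/α - 2 ≥ 0`.  Given `j`, take `k` from `growth`.  For `δ` small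
put `a i = AA η (mo g δ) ((1/2)^i)`.
-/

open MeasureTheory Set Filter Topology Function Metric Module
open scoped ContDiff

namespace Pool.Agent.Work.MP_375441_an.Hol

open Pool.Agent.Work.MP_375441_an

set_option linter.unusedSectionVars false

variable {n : ℕ} {ι M : Type} [Fintype ι] [Fintype M]

private lemma ubnd_thr {N : ℕ} {Q : ℕ → ℝ → Prop}
    (h : ∀ j, ∃ δ₀ > 0, ∀ δ, 0 < δ → δ ≤ δ₀ → Q j δ) :
    ∃ δ₀ > 0, ∀ δ, 0 < δ → δ ≤ δ₀ → ∀ j < N, Q j δ := by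
  induction N with
  | zero => exact ⟨1, one_pos, fun δ _ _ j hj => absurd hj (Nat.not_lt_zero _)⟩
  | succ N ih =>
    obtain ⟨δ₁, h1, h1'⟩ := ih
    obtain ⟨δ₂, h2, h2'⟩ := h N
    refine ⟨min δ₁ δ₂, lt_min h1 h2, fun δ hδ hle j hj => ?_⟩
    rcases Nat.lt_succ_iff_lt_or_eq.mp hj with hj | rfl
    · exact h1' δ hδ (hle.trans (min_le_left _ _)) j hj
    · exact h2' δ hδ (hle.trans (min_le_right _ _))

theorem ubnd {M₀ : ℝ} (hM₀ : ∀ t, deriv kap t ≤ M₀) {g : ι → Sp n → ℂ}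
    {c : M → Fin n → ι → Sp n → ℂ} {d : M → ι → Sp n → ℂ} (h : Glob g c d) {x₀ : Sp n} {r R : ℝ}
    (hr : 0 < r) (hrR : r ≤ R / 2) {τ : ℝ} (hτ : 0 < τ) (hco : Coer c (ball x₀ r) τ) {K₁ : ℝ}
    (hK₁ : ∀ x ∈ ball x₀ r, ksq (fun m i a => c m i a x) ≤ K₁) {η : Sp n → ℂ}
    (hη : IsTest (ball x₀ r) η) (hη1 : ∀ x, ‖η x‖ ≤ 1) {C₂ : ℝ} (hC₂0 : 0 ≤ C₂)
    (hC₂ : ∀ δ, 0 < δ → ∀ x, closedBall x δ ⊆ Nz g ∩ ball x₀ R → lsq c (mo g δ) x ≤ C₂)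
    {K α : ℝ} (hK : 0 ≤ K) (hα : 0 < α) (hα1 : α ≤ 1) (hF : Flat g x₀ R K α) {C₃ : ℝ}
    (hC₃0 : 0 < C₃) (hC₃ : 512 * M₀ ^ 2 * K₁ / τ ≤ C₃)
    (hexp : (2 : ℝ) ^ (2 / α - 2) < 1 + 1 / C₃) :
    ∃ B : ℝ, ∀ j : ℕ, ∃ δ₀ > 0, ∀ δ, 0 < δ → δ ≤ δ₀ → AA η (mo g δ) ((1 / 2) ^ j) ≤ B := by
  obtain ⟨S, hS0, hS⟩ := mo_bd h.gc h.gk
  obtain ⟨C₄, hC₄0, hC₄⟩ := hole hM₀ (fun m i a => (h.cc m i a).continuous) hτ hco hK₁ hη hη1 hS0
    hC₂0 hC₃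
  obtain ⟨C₅, hC₅0, hC₅⟩ := upper h hr hrR hτ hco hK₁ hη hη1 hC₂0 hC₂ hK hα hα1 hF
  have hq : 1 < 1 + 1 / C₃ := by
    have : 0 < 1 / C₃ := by positivity
    linarith
  have hσ : 0 ≤ 2 / α - 2 := by
    have : 2 ≤ 2 / α := by rw [le_div_iff₀ hα]; linarith
    linarith
  refine ⟨C₄ + 1, fun j => ?_⟩
  obtain ⟨k, hk⟩ := growth hq hσ hexp hC₄0 hC₅0 j
  obtain ⟨δ₁, hδ₁, h1⟩ := ubnd_thr (N := j + k)
    (Q := fun i δ => ∀ x, ((1 / 2 : ℝ) ^ (i + 1)) ^ 2 ≤ nu (mo g δ) x → closedBall x δ ⊆ Nz g)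
    (fun i => mo_nz h.gc h.gk (by positivity : (0 : ℝ) < (1 / 2) ^ (i + 1)))
  obtain ⟨δ₂, hδ₂, h2⟩ := hC₅ ((1 / 2) ^ (j + k)) (by positivity)
    (pow_le_one₀ (by norm_num) (by norm_num))
  refine ⟨min δ₁ (min δ₂ (r / 2)), lt_min hδ₁ (lt_min hδ₂ (by positivity)), fun δ hδ hle => ?_⟩
  have hle1 : δ ≤ δ₁ := hle.trans (min_le_left _ _)
  have hle2 : δ ≤ δ₂ := hle.trans ((min_le_right _ _).trans (min_le_left _ _))
  have hle3 : δ ≤ r / 2 := hle.trans ((min_le_right _ _).trans (min_le_right _ _))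
  refine hk (fun i => AA η (mo g δ) ((1 / 2) ^ i)) (fun i hi => ?_) ?_
  · have h3 := hC₄ (mo g δ) (fun a => mo_smooth h.gc hδ a) (hS δ hδ) ((1 / 2) ^ (i + 1))
      (by positivity) (fun x hx hnu => by
        refine hC₂ δ hδ x (subset_inter (h1 δ hδ hle1 i hi x hnu) fun y hy => ?_)
        have h4 := mem_closedBall.mp hy
        have h5 := mem_ball.mp hx
        have h6 := dist_triangle y x x₀
        rw [mem_ball]
        linarith)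
    have h4 : (2 : ℝ) * (1 / 2) ^ (i + 1) = (1 / 2) ^ i := by
      rw [pow_succ]; ring
    rw [h4] at h3
    set A := AA η (mo g δ) ((1 / 2) ^ i) with hA
    set A' := AA η (mo g δ) ((1 / 2) ^ (i + 1)) with hA'
    change (1 + 1 / C₃) * (A - C₄) ≤ A' - C₄
    have h5 : A / C₃ ≤ C₄ / C₃ + (A' - A) := by
      rw [div_add' _ _ _ hC₃0.ne', div_le_div_iff_of_pos_right hC₃0]
      linarith
    have h6 : (1 + 1 / C₃) * (A - C₄) = A - C₄ + (A / C₃ - C₄ / C₃) := by ring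
    rw [h6]
    linarith
  · have h7 := h2 δ hδ hle2
    have h8 : (1 : ℝ) / (1 / 2) ^ (j + k) = 2 ^ (j + k) := by
      rw [one_div, one_div, inv_pow, inv_inv]
    rw [h8] at h7
    exact h7

end Pool.Agent.Work.MP_375441_an.Hol
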