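import Pool.Agent.Work.MP_375441_an.Hol.Sym
import Pool.Agent.Work.MP_375441_an.Hol.Pert
import Pool.Agent.Work.MP_375441_an.Hol.MolBd
import Pool.Agent.Work.MP_375441_an.Hol.Fin
import Pool.Agent.Work.MP_375441_an.Hol.UBnd

/-!
# Module Core: the core theorem, global form

Proof.  `M₀` from `kap_deriv_bdd`, `C₃ = 512 M₀² (ksq c₀ + 1)/(θ/4) + 1`, `a₀` from
`expo` with `q = 1 + 1/C₃`.  Given the data: `pert` gives `r₁`, continuity of
`x ↦ ksq (fun m i a => c m i a x)` gives `r₂` with `ksq ≤ ksq c₀ + 1` on `ball x₀ r₂`;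
`r = min r₁ (min r₂ (R/2))` (`Coer` passes to smaller sets).  `η` a cutoff (`exists_cutoff` with
`K = closedBall x₀ (r/2)`, `U = ball x₀ r`).  `C₂` from `mol_bd` with `U = Nz g ∩ ball x₀ R`.
`B` from `ubnd`.
-/

open MeasureTheory Set Filter Topology Function Metric Module
open scoped ContDiff

namespace Pool.Agent.Work.MP_375441_an.Hol

open Pool.Agent.Work.MP_375441_an

set_option linter.unusedSectionVars false

variable {n : ℕ} {ι M : Type} [Fintype ι] [Fintype M]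

private lemma core_thr {N : ℕ} {Q : ℕ → ℝ → Prop}
    (h : ∀ j, ∃ δ₀ > 0, ∀ δ, 0 < δ → δ ≤ δ₀ → Q j δ) :
    ∃ δ₀ > 0, ∀ δ, 0 < δ → δ ≤ δ₀ → ∀ j < N, Q j δ := by
  induction N with
  | zero => exact ⟨1, one_pos, fun δ _ _ j hj => absurd hj (Nat.not_lt_zero _)⟩
  | succ N ih =>
    obtain ⟨δ₁, h1, h1'⟩ := ih
    obtain ⟨δ₂, h2, h2'⟩ := h N
    refine ⟨min δ₁ δ₂, lt_min h1 h2, fun δ hδ hle j hj => ?_⟩
    rcases Nat.lt_succ_iff_lt_or_eq.mp hj with hj | rfl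
    · exact h1' δ hδ (hle.trans (min_le_left _ _)) j hj
    · exact h2' δ hδ (hle.trans (min_le_right _ _))

theorem core_glob (c₀ : M → Fin n → ι → ℂ) {θ : ℝ} (hθ : 0 < θ) (h₀ : SymLow c₀ θ) :
    ∃ a₀ : ℝ, 0 < a₀ ∧ a₀ < 1 ∧ ∀ (g : ι → Sp n → ℂ) (c : M → Fin n → ι → Sp n → ℂ)
      (d : M → ι → Sp n → ℂ), Glob g c d → ∀ (x₀ : Sp n) (R : ℝ), 0 < R →
      (∀ m i a, c m i a x₀ = c₀ m i a) → Eqn c d g (Nz g ∩ ball x₀ R) →
      ∀ K α : ℝ, 0 ≤ K → a₀ < α → α ≤ 1 → Flat g x₀ R K α →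
      ∃ r > 0, Eqn c d g (ball x₀ r) := by
  obtain ⟨M₀, hM₀0, hM₀⟩ := kap_deriv_bdd
  have hk0 : 0 ≤ ksq c₀ := Finset.sum_nonneg fun _ _ => Finset.sum_nonneg fun _ _ =>
    Finset.sum_nonneg fun _ _ => sq_nonneg _
  set C₃ : ℝ := 512 * M₀ ^ 2 * (ksq c₀ + 1) / (θ / 4) + 1 with hC₃
  have hC₃0 : 0 < C₃ := by positivity
  obtain ⟨a₀, ha0, ha1, hexp⟩ := expo (q := 1 + 1 / C₃) (by
    have : 0 < 1 / C₃ := by positivity
    linarith)
  refine ⟨a₀, ha0, ha1, ?_⟩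
  intro g c d hG x₀ R hR hcx hE K α hK hα hα1 hF
  obtain ⟨r₁, hr₁, hco₁⟩ := pert (fun m i a => (hG.cc m i a).continuous) (x₀ := x₀) hθ (by
    have : (fun m i a => c m i a x₀) = c₀ := by funext m i a; exact hcx m i a
    rw [this]; exact h₀)
  have hkc : Continuous fun x => ksq (fun m i a => c m i a x) := by
    unfold ksq
    refine continuous_finsetSum _ fun m _ => continuous_finsetSum _ fun i _ =>
      continuous_finsetSum _ fun a _ => ?_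
    exact ((hG.cc m i a).continuous.norm).pow 2
  obtain ⟨r₂, hr₂, hk₂⟩ : ∃ r₂ > 0, ∀ x ∈ ball x₀ r₂, ksq (fun m i a => c m i a x) ≤ ksq c₀ + 1 := by
    have h1 : ∀ᶠ x in 𝓝 x₀, ksq (fun m i a => c m i a x) < ksq c₀ + 1 := by
      refine hkc.continuousAt.eventually_lt continuousAt_const ?_
      have : (fun m i a => c m i a x₀) = c₀ := by funext m i a; exact hcx m i a
      rw [this]; linarith
    obtain ⟨r₂, hr₂, h2⟩ := Metric.eventually_nhds_iff_ball.mp h1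
    exact ⟨r₂, hr₂, fun x hx => (h2 x hx).le⟩
  set r : ℝ := min r₁ (min r₂ (R / 2)) with hr
  have hr0 : 0 < r := lt_min hr₁ (lt_min hr₂ (by positivity))
  have hrR : r ≤ R / 2 := (min_le_right _ _).trans (min_le_right _ _)
  have hco : Coer c (ball x₀ r) (θ / 4) := fun v hv =>
    hco₁ v fun a => (hv a).mono (ball_subset_ball (min_le_left _ _))
  have hK₁ : ∀ x ∈ ball x₀ r, ksq (fun m i a => c m i a x) ≤ ksq c₀ + 1 := fun x hx =>
    hk₂ x (ball_subset_ball ((min_le_right _ _).trans (min_le_left _ _)) hx)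
  obtain ⟨χ, hχs, hχc, hχt, hχ01, W, hW, hKW, hχW⟩ := exists_cutoff
    (isCompact_closedBall x₀ (r / 2)) (isOpen_ball (x := x₀) (ε := r))
    (closedBall_subset_ball (by linarith))
  set η : Sp n → ℂ := fun x => ((χ x : ℝ) : ℂ) with hη
  have hηs : ContDiff ℝ ∞ η := Complex.ofRealCLM.contDiff.comp hχs
  have htη : tsupport η ⊆ tsupport χ := closure_mono fun x hx h0 => hx (by simp [hη, h0])
  have hηT : IsTest (ball x₀ r) η :=
    ⟨hηs, hχc.of_isClosed_subset (isClosed_tsupport _) htη, htη.trans hχt⟩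
  have hη1 : ∀ x, ‖η x‖ ≤ 1 := by
    intro x
    simp only [hη, Complex.norm_real, Real.norm_eq_abs]
    rw [abs_of_nonneg (hχ01 x).1]
    exact (hχ01 x).2
  obtain ⟨C₂, hC₂0, hC₂⟩ := mol_bd hG
  have hC₂' : ∀ δ, 0 < δ → ∀ x, closedBall x δ ⊆ Nz g ∩ ball x₀ R → lsq c (mo g δ) x ≤ C₂ :=
    fun δ hδ x hx => hC₂ (Nz g ∩ ball x₀ R) hE δ hδ x hx
  obtain ⟨B, hB⟩ := ubnd hM₀ hG hr0 hrR (by positivity : 0 < θ / 4) hco hK₁ hηT hη1 hC₂0 hC₂'
    hK (ha0.trans hα) hα1 hF hC₃0 (by rw [hC₃]; linarith) (hexp α hα hα1)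
  refine ⟨r / 2, by positivity, fun m φ hφ => ?_⟩
  have hφR : IsTest (ball x₀ R) φ := hφ.mono (ball_subset_ball (by linarith))
  have hηφ : ∀ x ∈ tsupport φ, η x = 1 := by
    intro x hx
    have h1 : χ x = 1 := hχW x (hKW (ball_subset_closedBall (hφ.supp hx)))
    simp [hη, h1]
  obtain ⟨C₇, hC₇0, hC₇⟩ := fin_bd hM₀ hG hE hηT hφR hηφ m
  rw [← norm_eq_zero]
  refine conc (B := B) (C₇ := C₇) (norm_nonneg _) hC₇0 fun J hJ => ?_
  obtain ⟨δ₁, hδ₁, h1⟩ := core_thr (N := 2 * J)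
    (Q := fun j δ => ‖TT c d g m φ‖ ≤ C₇ * (1 / 2) ^ (j + 1) +
      C₇ * √(AA η (mo g δ) ((1 / 2) ^ (j + 1)) - AA η (mo g δ) (2 * (1 / 2) ^ (j + 1))))
    (fun j => hC₇ ((1 / 2) ^ (j + 1)) (by positivity)
      (pow_le_one₀ (by norm_num) (by norm_num)))
  obtain ⟨δ₂, hδ₂, h2⟩ := hB (2 * J)
  set δ : ℝ := min δ₁ δ₂ with hδ
  have hδ0 : 0 < δ := lt_min hδ₁ hδ₂
  refine ⟨fun i => AA η (mo g δ) ((1 / 2) ^ i), fun i => AA_nonneg _ _ _,
    h2 δ hδ0 (min_le_right _ _), fun j hj => ?_⟩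
  have h3 := h1 δ hδ0 (min_le_left _ _) j hj
  have h4 : (2 : ℝ) * (1 / 2) ^ (j + 1) = (1 / 2) ^ j := by
    rw [pow_succ]; ring
  rw [h4] at h3
  exact h3

end Pool.Agent.Work.MP_375441_an.Hol
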