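import Pool.Agent.Work.MP_375441_an.Hol.Core

/-!
# Module CoreLoc: the core theorem, local form

Proof.  `θ` from `exists_symLow`, `a₀` from `core_glob`.  Given the data, `α' = min α 1`.  Choose
`R > 0` with `2R < 1/2` and `closedBall x₀ (2R) ⊆ O ∩ U`, a cutoff `χ = 1` on a neighbourhood of
`closedBall x₀ R` supported in `ball x₀ (2R)` (`exists_cutoff`), and `g' = χ g`, `c' = χ c`,
`d' = χ d`.
-/

open MeasureTheory Set Filter Topology Function Metric Module
open scoped ContDiff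

namespace Pool.Agent.Work.MP_375441_an.Hol

open Pool.Agent.Work.MP_375441_an

set_option linter.unusedSectionVars false

variable {n : ℕ} {ι M : Type} [Fintype ι] [Fintype M]

theorem core_loc (c₀ : M → Fin n → ι → ℂ)
    (h₀ : ∀ ξ : Fin n → ℝ, ξ ≠ 0 → ∀ w : ι → ℂ,
      (∀ m, ∑ i, ∑ a, c₀ m i a * ((ξ i : ℂ) * w a) = 0) → w = 0) :
    ∃ a₀ : ℝ, 0 < a₀ ∧ a₀ < 1 ∧ ∀ (O : Set (Sp n)), IsOpen O → ∀ (g : ι → Sp n → ℂ)
      (c : M → Fin n → ι → Sp n → ℂ) (d : M → ι → Sp n → ℂ),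
      (∀ a, ContinuousOn (g a) O) → (∀ m i a, ContDiffOn ℝ 1 (c m i a) O) →
      (∀ m a, ContinuousOn (d m a) O) → ∀ x₀ ∈ O, (∀ m i a, c m i a x₀ = c₀ m i a) →
      Eqn c d g (O ∩ Nz g) → ∀ K α : ℝ, a₀ < α → (∃ U ∈ 𝓝 x₀, ∀ x ∈ U, ∀ z ∈ U,
        (∀ a, g a z = 0) → ∀ a, ‖g a x‖ ≤ K * ‖x - z‖ ^ α) →
      ∃ V, IsOpen V ∧ x₀ ∈ V ∧ V ⊆ O ∧ Eqn c d g V := by
  obtain ⟨θ, hθ, hsym⟩ := exists_symLow c₀ h₀
  obtain ⟨a₀, ha0, ha1, hcore⟩ := core_glob c₀ hθ hsym
  refine ⟨a₀, ha0, ha1, ?_⟩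
  rintro O hO g c d hg hc hd x₀ hx₀ hcx hE K α hα ⟨U, hU, hUf⟩
  set α' : ℝ := min α 1 with hα'
  have hα'0 : a₀ < α' := lt_min hα ha1
  have hα'1 : α' ≤ 1 := min_le_right _ _
  -- the radius
  obtain ⟨ρ, hρ, hρU⟩ := Metric.mem_nhds_iff.mp (Filter.inter_mem (hO.mem_nhds hx₀) hU)
  obtain ⟨R, hR, hRρ, hR4⟩ : ∃ R : ℝ, 0 < R ∧ 2 * R < ρ ∧ 2 * R < 1 / 2 :=
    ⟨min ρ (1 / 2) / 4, by positivity, by
      have := min_le_left ρ (1 / 2); linarith, by
      have := min_le_right ρ (1 / 2); linarith⟩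
  have hRO : ball x₀ (2 * R) ⊆ O := fun x hx => (hρU (ball_subset_ball hRρ.le hx)).1
  have hRU : ball x₀ (2 * R) ⊆ U := fun x hx => (hρU (ball_subset_ball hRρ.le hx)).2
  obtain ⟨χ, hχs, hχc, hχt, hχ01, W, hW, hKW, hχW⟩ := exists_cutoff
    (isCompact_closedBall x₀ R) (isOpen_ball (x := x₀) (ε := 2 * R))
    (closedBall_subset_ball (by linarith))
  set X : Sp n → ℂ := fun x => ((χ x : ℝ) : ℂ) with hX
  have hXs : ContDiff ℝ ∞ X := Complex.ofRealCLM.contDiff.comp hχs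
  have hsuppX : support X ⊆ support χ := fun x hx h0 => hx (by simp [hX, h0])
  have htX : tsupport X ⊆ tsupport χ := closure_mono hsuppX
  have hXO : tsupport X ⊆ O := htX.trans (hχt.trans hRO)
  have hXc : HasCompactSupport X := hχc.of_isClosed_subset (isClosed_tsupport _) htX
  have hX1 : ∀ x ∈ ball x₀ R, X x = 1 := by
    intro x hx
    have : χ x = 1 := hχW x (hKW (ball_subset_closedBall hx))
    simp [hX, this]
  -- the global data
  set g' : ι → Sp n → ℂ := fun a x => g a x * X x with hg'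
  set c' : M → Fin n → ι → Sp n → ℂ := fun m i a x => c m i a x * X x with hc'
  set d' : M → ι → Sp n → ℂ := fun m a x => d m a x * X x with hd'
  have hG : Glob g' c' d' := by
    refine ⟨fun a => ?_, fun a => hXc.mul_left, fun m i a => ?_, fun m i a => hXc.mul_left,
      fun m a => ?_, fun m a => hXc.mul_left⟩
    · exact continuous_mul_of_tsupport hO (hg a) hXs.continuous hXO
    · exact contDiff_mul_of_tsupport hO (hc m i a) (hXs.of_le (by exact_mod_cast le_top)) hXO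
    · exact continuous_mul_of_tsupport hO (hd m a) hXs.continuous hXO
  have hTT : ∀ m φ, IsTest (ball x₀ R) φ → TT c' d' g' m φ = TT c d g m φ := by
    intro m φ hφ
    unfold TT
    refine TF_congr_on (fun i x hx => ?_) (fun x hx => ?_)
    · simp only [GG, hc', hg', hX1 x (hφ.supp hx), mul_one]
    · simp only [HH, hd', hg', hX1 x (hφ.supp hx), mul_one]
  have hRsub : ball x₀ R ⊆ ball x₀ (2 * R) := ball_subset_ball (by linarith)
  have hE' : Eqn c' d' g' (Nz g' ∩ ball x₀ R) := by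
    intro m φ hφ
    rw [hTT m φ (hφ.mono inter_subset_right)]
    refine hE m φ (hφ.mono ?_)
    rintro x ⟨⟨a, ha⟩, hx⟩
    refine ⟨hRO (hRsub hx), a, fun h => ha ?_⟩
    simp only [hg', h, zero_mul]
  have hF : Flat g' x₀ R (max K 0) α' := by
    intro x hx z hz hz0 a
    have hz1 : ∀ a, g a z = 0 := by
      intro a
      have := hz0 a
      simpa only [hg', hX1 z hz, mul_one] using this
    have h1 := hUf x (hRU (hRsub hx)) z (hRU (hRsub hz)) hz1 a
    have h2 : g' a x = g a x := by simp only [hg', hX1 x hx, mul_one]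
    rw [h2]
    refine h1.trans ?_
    have hxz : ‖x - z‖ ≤ 1 := by
      rw [← dist_eq_norm]
      have h6 := mem_ball.mp hx
      have h7 := mem_ball.mp hz
      have h8 := dist_triangle_right x z x₀
      linarith
    have h9 : ‖x - z‖ ^ α ≤ ‖x - z‖ ^ α' := by
      rcases (norm_nonneg (x - z)).eq_or_lt with h10 | h10
      · rw [← h10, Real.zero_rpow (ne_of_gt (ha0.trans hα)),
          Real.zero_rpow (ne_of_gt (ha0.trans hα'0))]
      · exact Real.rpow_le_rpow_of_exponent_ge h10 hxz (min_le_left _ _)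
    calc K * ‖x - z‖ ^ α ≤ max K 0 * ‖x - z‖ ^ α :=
          mul_le_mul_of_nonneg_right (le_max_left _ _) (Real.rpow_nonneg (norm_nonneg _) _)
      _ ≤ max K 0 * ‖x - z‖ ^ α' := mul_le_mul_of_nonneg_left h9 (le_max_right _ _)
  obtain ⟨r, hr, hrE⟩ := hcore g' c' d' hG x₀ R hR (fun m i a => by
    simp only [hc', hX1 x₀ (mem_ball_self hR), mul_one, hcx]) hE' (max K 0) α' (le_max_right _ _)
    hα'0 hα'1 hF
  refine ⟨ball x₀ (min r R), isOpen_ball, mem_ball_self (lt_min hr hR),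
    (ball_subset_ball (min_le_right _ _)).trans (hRsub.trans hRO), fun m φ hφ => ?_⟩
  rw [← hTT m φ (hφ.mono (ball_subset_ball (min_le_right _ _)))]
  exact hrE m φ (hφ.mono (ball_subset_ball (min_le_left _ _)))

end Pool.Agent.Work.MP_375441_an.Hol
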