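import Pool.Agent.Work.MP_375441_an.CommB
import Pool.Agent.Work.MP_375441_an.Defs

/-!
# First order elliptic systems: notions used by the Hoelder theorem

Everything is on `Sp n = EuclideanSpace ℝ (Fin n)` with Lebesgue measure, `ee n i` are the
coordinate directions, `pd v g x` is the directional derivative.
-/

open MeasureTheory Set Filter Topology Function Metric Module
open scoped ContDiff

namespace Pool.Agent.Work.MP_375441_an.Hol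

open Pool.Agent.Work.MP_375441_an

variable {n : ℕ} {ι M : Type} [Fintype ι] [Fintype M]

/-- `|u|²(x) = ∑_a |u_a(x)|²` -/
noncomputable def nu (u : ι → Sp n → ℂ) (x : Sp n) : ℝ := ∑ a, ‖u a x‖ ^ 2

/-- `|∇u|²(x) = ∑_{i,a} |∂_i u_a(x)|²` -/
noncomputable def gsq (u : ι → Sp n → ℂ) (x : Sp n) : ℝ :=
  ∑ i, ∑ a, ‖pd (ee n i) (u a) x‖ ^ 2

/-- `|∇λ|²(x) = ∑_i |∂_i λ(x)|²` for one function `λ` -/
noncomputable def gs1 (lam : Sp n → ℂ) (x : Sp n) : ℝ := ∑ i, ‖pd (ee n i) lam x‖ ^ 2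

/-- `(L u)_m = ∑_{i,a} c_{mia} ∂_i u_a` -/
noncomputable def Lop (c : M → Fin n → ι → Sp n → ℂ) (u : ι → Sp n → ℂ) (m : M) (x : Sp n) : ℂ :=
  ∑ i, ∑ a, c m i a x * pd (ee n i) (u a) x

/-- `|Lu|²(x)` -/
noncomputable def lsq (c : M → Fin n → ι → Sp n → ℂ) (u : ι → Sp n → ℂ) (x : Sp n) : ℝ :=
  ∑ m, ‖Lop c u m x‖ ^ 2

/-- `|c|² = ∑ |c_{mia}|²` -/
noncomputable def ksq (c : M → Fin n → ι → ℂ) : ℝ := ∑ m, ∑ i, ∑ a, ‖c m i a‖ ^ 2

/-- lower bound of the symbol -/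
def SymLow (c : M → Fin n → ι → ℂ) (θ : ℝ) : Prop :=
  ∀ (ξ : Fin n → ℝ) (w : ι → ℂ), θ * ((∑ i, ξ i ^ 2) * ∑ a, ‖w a‖ ^ 2) ≤
    ∑ m, ‖∑ i, ∑ a, c m i a * ((ξ i : ℂ) * w a)‖ ^ 2

/-- coercivity of `L` on test functions supported in `U` -/
def Coer (c : M → Fin n → ι → Sp n → ℂ) (U : Set (Sp n)) (τ : ℝ) : Prop :=
  ∀ v : ι → Sp n → ℂ, (∀ a, IsTest U (v a)) → τ * ∫ x, gsq v x ≤ ∫ x, lsq c v x

/-- the standing assumptions of the global form -/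
structure Glob (g : ι → Sp n → ℂ) (c : M → Fin n → ι → Sp n → ℂ) (d : M → ι → Sp n → ℂ) :
    Prop where
  gc : ∀ a, Continuous (g a)
  gk : ∀ a, HasCompactSupport (g a)
  cc : ∀ m i a, ContDiff ℝ 1 (c m i a)
  ck : ∀ m i a, HasCompactSupport (c m i a)
  dc : ∀ m a, Continuous (d m a)
  dk : ∀ m a, HasCompactSupport (d m a)

/-- the fluxes `∑_a c_{mia} g_a` -/
noncomputable def GG (c : M → Fin n → ι → Sp n → ℂ) (g : ι → Sp n → ℂ) (m : M) (i : Fin n)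
    (x : Sp n) : ℂ := ∑ a, c m i a x * g a x

/-- the zeroth order terms `∑_a d_{ma} g_a` -/
noncomputable def HH (d : M → ι → Sp n → ℂ) (g : ι → Sp n → ℂ) (m : M) (x : Sp n) : ℂ :=
  ∑ a, d m a x * g a x

/-- the weak form of the `m`-th equation `∑_i ∂_i (∑_a c_{mia} g_a) + ∑_a d_{ma} g_a = 0`,
tested with `φ` -/
noncomputable def TT (c : M → Fin n → ι → Sp n → ℂ) (d : M → ι → Sp n → ℂ) (g : ι → Sp n → ℂ)
    (m : M) (φ : Sp n → ℂ) : ℂ := TF volume (ee n) (GG c g m) (HH d g m) φ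

/-- the system holds on `U` in the sense of distributions -/
def Eqn (c : M → Fin n → ι → Sp n → ℂ) (d : M → ι → Sp n → ℂ) (g : ι → Sp n → ℂ)
    (U : Set (Sp n)) : Prop := ∀ m, ∀ φ, IsTest U φ → TT c d g m φ = 0

/-- the set where `g ≠ 0` -/
def Nz (g : ι → Sp n → ℂ) : Set (Sp n) := {x | ∃ a, g a x ≠ 0}

/-- the mollification of `g`, componentwise -/
noncomputable def mo (g : ι → Sp n → ℂ) (δ : ℝ) (a : ι) : Sp n → ℂ := mol volume δ (g a)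

/-- the energy in the set `|u| ≥ ε` -/
noncomputable def AA (η : Sp n → ℂ) (u : ι → Sp n → ℂ) (ε : ℝ) : ℝ :=
  ∫ x in {x | ε ^ 2 ≤ nu u x}, ‖η x‖ ^ 2 * gsq u x

/-- `|g(x)| ≤ K |x - z|^α` for `x`, `z` in the ball `B(x₀, R)`, `z` a common zero of `g` -/
def Flat (g : ι → Sp n → ℂ) (x₀ : Sp n) (R K α : ℝ) : Prop :=
  ∀ x ∈ ball x₀ R, ∀ z ∈ ball x₀ R, (∀ a, g a z = 0) → ∀ a, ‖g a x‖ ≤ K * ‖x - z‖ ^ α

end Pool.Agent.Work.MP_375441_an.Hol
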