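import Pool.Agent.Work.MP_375441_an.Hol.JetDefs

/-!
# Module JetCoef: the coefficients of the system are regular

Proof.  `cJ`: constants in the first two cases, a finite sum of (constant times `P_α`) or `0` in the
third; `dJ`: constants, resp. finite sums of constants times `P_α` or `∂_i P_α`
(`pd_contDiffOn`).
-/

open MeasureTheory Set Filter Topology Function Metric Module
open scoped ContDiff

namespace Pool.Agent.Work.MP_375441_an.Hol

open Pool.Agent.Work.MP_375441_an

set_option linter.unusedSectionVars false

variable {n : ℕ} {ι M : Type} [Fintype ι] [Fintype M]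

theorem cJ_contDiffOn {p : ℕ} {P : (Fin n → ℕ) → Sp n → ℂ} {O : Set (Sp n)}
    (hP : ∀ α ∈ multi n p, ContDiffOn ℝ ∞ (P α) O) (m : Mx n p) (i : Fin n) (a : Ix n p) :
    ContDiffOn ℝ 1 (cJ p P m i a) O := by
  classical
  have h1 : (1 : WithTop ℕ∞) ≤ ∞ := by exact_mod_cast le_top
  rcases m with m | m | m
  · exact contDiffOn_const
  · exact contDiffOn_const
  · have h2 : cJ p P (Sum.inr (Sum.inr m)) i a = fun x =>
        ∑ α ∈ (multi n p).filter (fun α => ∑ i, α i = p),
          if (lst α).reverse = i :: a.1 then (1 / Complex.I) ^ p * P α x else 0 := rfl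
    rw [h2]
    refine ContDiffOn.sum fun α hα => ?_
    have h3 := (hP α (Finset.mem_filter.1 hα).1).of_le h1
    split_ifs
    · exact contDiffOn_const.mul h3
    · exact contDiffOn_const

theorem dJ_continuousOn {p : ℕ} {P : (Fin n → ℕ) → Sp n → ℂ} {O : Set (Sp n)} (hO : IsOpen O)
    (hP : ∀ α ∈ multi n p, ContDiffOn ℝ ∞ (P α) O) (m : Mx n p) (a : Ix n p) :
    ContinuousOn (dJ p P m a) O := by
  classical
  rcases m with m | m | m
  · exact continuousOn_const
  · exact continuousOn_const
  · have h2 : dJ p P (Sum.inr (Sum.inr m)) a = fun x =>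
        (∑ α ∈ (multi n p).filter (fun α => ¬ ∑ i, α i = p),
          if (lst α).reverse = a.1 then (1 / Complex.I) ^ (∑ i, α i) * P α x else 0) -
        ∑ α ∈ (multi n p).filter (fun α => ∑ i, α i = p), ∑ i,
          if (lst α).reverse = i :: a.1 then (1 / Complex.I) ^ p * pd (ee n i) (P α) x else 0 := by
      funext x
      rfl
    rw [h2]
    refine ContinuousOn.sub ?_ ?_
    · refine continuousOn_finsetSum _ fun α hα => ?_
      have h3 := (hP α (Finset.mem_filter.1 hα).1).continuousOn
      split_ifs
      · exact continuousOn_const.mul h3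
      · exact continuousOn_const
    · refine continuousOn_finsetSum _ fun α hα => ?_
      refine continuousOn_finsetSum _ fun i _ => ?_
      have h3 := (pd_contDiffOn (m := 0) (ee n i) hO (hP α (Finset.mem_filter.1 hα).1)
        (by simp)).continuousOn
      split_ifs
      · exact continuousOn_const.mul h3
      · exact continuousOn_const

end Pool.Agent.Work.MP_375441_an.Hol
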