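import Pool.Agent.Work.MP_375441_an.Hol.Defs

/-!
# The first order system of the jets of a solution of `Pf = 0`

The unknowns are `g_l = ∂^l f` for the lists `l` of directions of length `< p`
(`dl (ee n) l f`, which differentiates from the right end of the list).  The equations:
* `∂_j g_l = g_{j :: l}` if `j :: l` is shorter than `p`;
* `∂_k g_l = ∂_j g_{l'}` if `k :: l` is a permutation of `j :: l'`;
* the equation `Pf = 0`.
-/

open MeasureTheory Set Filter Topology Function Metric Module
open scoped ContDiff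

namespace Pool.Agent.Work.MP_375441_an.Hol

open Pool.Agent.Work.MP_375441_an

/-- the lists of directions of length `< p` -/
def LL (n p : ℕ) : Finset (List (Fin n)) :=
  Finset.univ.image (fun s : Σ k : Fin p, (Fin (k : ℕ) → Fin n) => List.ofFn s.2)

theorem mem_LL {n p : ℕ} {l : List (Fin n)} : l ∈ LL n p ↔ l.length < p := by
  unfold LL
  rw [Finset.mem_image]
  constructor
  · rintro ⟨s, _, rfl⟩
    rw [List.length_ofFn]
    exact s.1.2
  · intro h
    exact ⟨⟨⟨l.length, h⟩, l.get⟩, Finset.mem_univ _, List.ofFn_get l⟩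

/-- the index type of the unknowns -/
abbrev Ix (n p : ℕ) := ↥(LL n p)

/-- the index type of the equations -/
abbrev Mx (n p : ℕ) := (Ix n p × Fin n) ⊕ ((Ix n p × Ix n p × Fin n × Fin n) ⊕ Unit)

/-- the unknowns -/
noncomputable def gJ {n : ℕ} (p : ℕ) (f : Sp n → ℂ) (a : Ix n p) : Sp n → ℂ := dl (ee n) a.1 f

open Classical in
/-- the principal coefficients of the system for fixed values `q α` of the coefficients `P_α` -/
noncomputable def cS {n : ℕ} (p : ℕ) (q : (Fin n → ℕ) → ℂ) : Mx n p → Fin n → Ix n p → ℂ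
  | .inl (l, j), i, a => if (j :: l.1).length < p ∧ a = l ∧ i = j then 1 else 0
  | .inr (.inl (l, l', k, j)), i, a => if (k :: l.1).Perm (j :: l'.1) then
      ((if a = l ∧ i = k then 1 else 0) - (if a = l' ∧ i = j then 1 else 0)) else 0
  | .inr (.inr _), i, a => ∑ α ∈ (multi n p).filter (fun α => ∑ i, α i = p),
      if (lst α).reverse = i :: a.1 then (1 / Complex.I) ^ p * q α else 0

/-- the principal coefficients -/
noncomputable def cJ {n : ℕ} (p : ℕ) (P : (Fin n → ℕ) → Sp n → ℂ) (m : Mx n p) (i : Fin n)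
    (a : Ix n p) (x : Sp n) : ℂ := cS p (fun α => P α x) m i a

open Classical in
/-- the zeroth order coefficients -/
noncomputable def dJ {n : ℕ} (p : ℕ) (P : (Fin n → ℕ) → Sp n → ℂ) :
    Mx n p → Ix n p → Sp n → ℂ
  | .inl (l, j), a => fun _ => if (j :: l.1).length < p ∧ a.1 = j :: l.1 then -1 else 0
  | .inr (.inl _), _ => fun _ => 0
  | .inr (.inr _), a => fun x =>
      (∑ α ∈ (multi n p).filter (fun α => ¬ ∑ i, α i = p),
        if (lst α).reverse = a.1 then (1 / Complex.I) ^ (∑ i, α i) * P α x else 0) -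
      ∑ α ∈ (multi n p).filter (fun α => ∑ i, α i = p), ∑ i,
        if (lst α).reverse = i :: a.1 then (1 / Complex.I) ^ p * pd (ee n i) (P α) x else 0

end Pool.Agent.Work.MP_375441_an.Hol
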