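import Pool.Agent.Work.MP_375441_an.Hol.JetDefs

/-!
# Module JetEq: the compatibility equations hold everywhere

Proof.  `TT` unfolds to `∫ (HH φ - ∑_i GG_i ∂_i φ)`; with `m = p - 1`, `f ∈ C^m(O)`.
(inl) If `(j :: l).length < p`, the integrand is `- g_{j::l} φ - g_l ∂_j φ` (only `a = l, i = j`, and
`a.1 = j :: l.1`); otherwise it is `0`.  Integrate by parts once (`int_pd`).
(inr inl) If `(k :: l) ~ (j :: l')` the integrand is `-(g_l ∂_k φ - g_{l'} ∂_j φ)`, and
`∫ g_l ∂_k φ = (-1)^|l| ∫ f dl (k::l).reverse φ`, similarly for `l'`; `|l| = |l'|` and `dl_perm`.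
-/

open MeasureTheory Set Filter Topology Function Metric Module
open scoped ContDiff

namespace Pool.Agent.Work.MP_375441_an.Hol

open Pool.Agent.Work.MP_375441_an

set_option linter.unusedSectionVars false

variable {n : ℕ} {ι M : Type} [Fintype ι] [Fintype M]

private theorem je_ss {A B : Type} [Fintype A] [Fintype B] (X : A → B → ℂ) (k : A) (l : B)
    (P : A → B → Prop) [∀ i a, Decidable (P i a)] (hP : ∀ i a, P i a ↔ a = l ∧ i = k) (c : ℂ) :
    ∑ i, ∑ a, (if P i a then c else 0) * X i a = c * X k l := by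
  rw [Finset.sum_eq_single k, Finset.sum_eq_single l]
  · rw [if_pos ((hP k l).2 ⟨rfl, rfl⟩)]
  · intro b _ hb
    rw [if_neg (fun h => hb ((hP k b).1 h).1), zero_mul]
  · intro h
    exact absurd (Finset.mem_univ _) h
  · intro i _ hi
    apply Finset.sum_eq_zero
    intro a _
    rw [if_neg (fun h => hi ((hP i a).1 h).2), zero_mul]
  · intro h
    exact absurd (Finset.mem_univ _) h

private theorem je_s1 {B : Type} [Fintype B] (X : B → ℂ) (l : B)
    (P : B → Prop) [∀ a, Decidable (P a)] (hP : ∀ a, P a ↔ a = l) (c : ℂ) :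
    ∑ a, (if P a then c else 0) * X a = c * X l := by
  rw [Finset.sum_eq_single l]
  · rw [if_pos ((hP l).2 rfl)]
  · intro b _ hb
    rw [if_neg (fun h => hb ((hP b).1 h)), zero_mul]
  · intro h
    exact absurd (Finset.mem_univ _) h

private theorem je_int {O : Set (Sp n)} (hO : IsOpen O) {m : ℕ}
    {f : Sp n → ℂ} (hf : ContDiffOn ℝ m f O) {φ : Sp n → ℂ} (hφ : IsTest O φ)
    (l : List (Fin n)) (hl : l.length ≤ m) (k : Fin n) :
    ∫ x, dl (ee n) l f x * pd (ee n k) φ x =
      (-1) ^ l.length * ∫ x, f x * dl (ee n) (k :: l).reverse φ x := by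
  have h1 := int_dl (μ := volume) (e := ee n) hO (hφ.pd (ee n k)) l.reverse m f hf
    (by rw [List.length_reverse]; exact hl)
  rw [List.reverse_reverse, List.length_reverse] at h1
  have h2 : dl (ee n) (k :: l).reverse φ = dl (ee n) l.reverse (pd (ee n k) φ) := by
    rw [List.reverse_cons, dl_append]
    rfl
  rw [h2, h1, ← mul_assoc, ← pow_add, ← two_mul, pow_mul]
  norm_num

theorem jet_eq {p : ℕ} (P : (Fin n → ℕ) → Sp n → ℂ) {O : Set (Sp n)} (hO : IsOpen O)
    {f : Sp n → ℂ} (hf : ContDiffOn ℝ ((p - 1 : ℕ) : WithTop ℕ∞) f O) {φ : Sp n → ℂ}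
    (hφ : IsTest O φ) (m : (Ix n p × Fin n) ⊕ (Ix n p × Ix n p × Fin n × Fin n)) :
    TT (cJ p P) (dJ p P) (gJ p f)
      (m.elim (fun s => Sum.inl s) (fun s => Sum.inr (Sum.inl s))) φ = 0 := by
  classical
  have hint : ∀ (l : List (Fin n)), l.length ≤ p - 1 → ∀ ψ : Sp n → ℂ, IsTest O ψ →
      Integrable (fun x => dl (ee n) l f x * ψ x) := fun l hl ψ hψ =>
    integrable_mul_test hO (dl_continuousOn hO hf l hl) hψ.smooth.continuous hψ.comp hψ.supp
  rcases m with ⟨l, j⟩ | ⟨l, l', k, j⟩
  · show ∫ x, (HH (dJ p P) (gJ p f) (Sum.inl (l, j)) x * φ x -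
      ∑ i, GG (cJ p P) (gJ p f) (Sum.inl (l, j)) i x * pd (ee n i) φ x) = 0
    by_cases hc : (j :: l.1).length < p
    · have hc' : l.1.length + 1 < p := hc
      have hjm : (j :: l.1) ∈ LL n p := mem_LL.2 hc
      have h1 : ∀ x, HH (dJ p P) (gJ p f) (Sum.inl (l, j)) x = - dl (ee n) (j :: l.1) f x := by
        intro x
        have h2 := je_s1 (fun a => gJ p f a x) (⟨j :: l.1, hjm⟩ : Ix n p)
          (fun a => (j :: l.1).length < p ∧ a.1 = j :: l.1)
          (fun a => ⟨fun h3 => Subtype.ext h3.2, fun h3 => ⟨hc, by rw [h3]⟩⟩) (-1)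
        have h4 : HH (dJ p P) (gJ p f) (Sum.inl (l, j)) x =
            ∑ a : Ix n p, (if (j :: l.1).length < p ∧ a.1 = j :: l.1 then (-1 : ℂ) else 0) *
              gJ p f a x := Finset.sum_congr rfl fun a _ => rfl
        rw [h4, h2, neg_one_mul]
        rfl
      have h2 : ∀ x, ∑ i, GG (cJ p P) (gJ p f) (Sum.inl (l, j)) i x * pd (ee n i) φ x =
          dl (ee n) l.1 f x * pd (ee n j) φ x := by
        intro x
        have h3 := je_ss (fun i a => gJ p f a x * pd (ee n i) φ x) j l
          (fun i a => (j :: l.1).length < p ∧ a = l ∧ i = j)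
          (fun i a => ⟨fun h3 => h3.2, fun h3 => ⟨hc, h3⟩⟩) 1
        rw [one_mul] at h3
        refine Eq.trans ?_ h3
        refine Finset.sum_congr rfl fun i _ => ?_
        have h4 : GG (cJ p P) (gJ p f) (Sum.inl (l, j)) i x =
            ∑ a : Ix n p, (if (j :: l.1).length < p ∧ a = l ∧ i = j then (1 : ℂ) else 0) *
              gJ p f a x := Finset.sum_congr rfl fun a _ => rfl
        rw [h4, Finset.sum_mul]
        exact Finset.sum_congr rfl fun a _ => mul_assoc _ _ _
      have h5 : ∀ x, HH (dJ p P) (gJ p f) (Sum.inl (l, j)) x * φ x -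
          ∑ i, GG (cJ p P) (gJ p f) (Sum.inl (l, j)) i x * pd (ee n i) φ x =
          - (dl (ee n) (j :: l.1) f x * φ x) - dl (ee n) l.1 f x * pd (ee n j) φ x := by
        intro x
        rw [h1, h2]
        ring
      rw [integral_congr_ae (Eventually.of_forall h5), integral_sub, integral_neg]
      · have h6 : ContDiffOn ℝ 1 (dl (ee n) l.1 f) O := by
          have := dl_contDiffOn (e := ee n) hO hf l.1 1 (by omega)
          exact_mod_cast this
        rw [int_pd hO h6 hφ.one (ee n j)]
        rw [sub_neg_eq_add]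
        exact neg_add_cancel _
      · exact (hint (j :: l.1) (by rw [List.length_cons]; omega) φ hφ).neg
      · exact hint l.1 (by omega) _ (hφ.pd (ee n j))
    · have h1 : ∀ x, HH (dJ p P) (gJ p f) (Sum.inl (l, j)) x = 0 := by
        intro x
        refine Finset.sum_eq_zero fun a _ => ?_
        have h2 : dJ p P (Sum.inl (l, j)) a x = 0 := if_neg (fun h3 => hc h3.1)
        rw [h2, zero_mul]
      have h2 : ∀ i x, GG (cJ p P) (gJ p f) (Sum.inl (l, j)) i x = 0 := by
        intro i x
        refine Finset.sum_eq_zero fun a _ => ?_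
        have h2 : cJ p P (Sum.inl (l, j)) i a x = 0 := if_neg (fun h3 => hc h3.1)
        rw [h2, zero_mul]
      simp only [h1, h2, zero_mul, Finset.sum_const_zero, sub_zero, integral_zero]
  · show ∫ x, (HH (dJ p P) (gJ p f) (Sum.inr (Sum.inl (l, l', k, j))) x * φ x -
      ∑ i, GG (cJ p P) (gJ p f) (Sum.inr (Sum.inl (l, l', k, j))) i x * pd (ee n i) φ x) = 0
    have h1 : ∀ x, HH (dJ p P) (gJ p f) (Sum.inr (Sum.inl (l, l', k, j))) x = 0 := by
      intro x
      refine Finset.sum_eq_zero fun a _ => ?_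
      have h2 : dJ p P (Sum.inr (Sum.inl (l, l', k, j))) a x = 0 := rfl
      rw [h2, zero_mul]
    by_cases hc : (k :: l.1).Perm (j :: l'.1)
    · have hl := mem_LL.1 l.2
      have hl' := mem_LL.1 l'.2
      have h2 : ∀ x, ∑ i, GG (cJ p P) (gJ p f) (Sum.inr (Sum.inl (l, l', k, j))) i x *
          pd (ee n i) φ x =
          dl (ee n) l.1 f x * pd (ee n k) φ x - dl (ee n) l'.1 f x * pd (ee n j) φ x := by
        intro x
        have h3 := je_ss (fun i a => gJ p f a x * pd (ee n i) φ x) k l
          (fun i a => a = l ∧ i = k) (fun i a => Iff.rfl) 1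
        have h3' := je_ss (fun i a => gJ p f a x * pd (ee n i) φ x) j l'
          (fun i a => a = l' ∧ i = j) (fun i a => Iff.rfl) 1
        rw [one_mul] at h3 h3'
        have h5 : dl (ee n) l.1 f x * pd (ee n k) φ x - dl (ee n) l'.1 f x * pd (ee n j) φ x =
            gJ p f l x * pd (ee n k) φ x - gJ p f l' x * pd (ee n j) φ x := rfl
        rw [h5, ← h3, ← h3', ← Finset.sum_sub_distrib]
        refine Finset.sum_congr rfl fun i _ => ?_
        have h4 : GG (cJ p P) (gJ p f) (Sum.inr (Sum.inl (l, l', k, j))) i x =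
            ∑ a : Ix n p, ((if a = l ∧ i = k then (1 : ℂ) else 0) -
              (if a = l' ∧ i = j then (1 : ℂ) else 0)) * gJ p f a x := by
          refine Finset.sum_congr rfl fun a _ => ?_
          have h6 : cJ p P (Sum.inr (Sum.inl (l, l', k, j))) i a x =
            ((if a = l ∧ i = k then (1 : ℂ) else 0) -
              (if a = l' ∧ i = j then (1 : ℂ) else 0)) := if_pos hc
          rw [h6]
        rw [h4, Finset.sum_mul, ← Finset.sum_sub_distrib]
        refine Finset.sum_congr rfl fun a _ => ?_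
        ring
      have h5 : ∀ x, HH (dJ p P) (gJ p f) (Sum.inr (Sum.inl (l, l', k, j))) x * φ x -
          ∑ i, GG (cJ p P) (gJ p f) (Sum.inr (Sum.inl (l, l', k, j))) i x * pd (ee n i) φ x =
          dl (ee n) l'.1 f x * pd (ee n j) φ x - dl (ee n) l.1 f x * pd (ee n k) φ x := by
        intro x
        rw [h1, h2]
        ring
      rw [integral_congr_ae (Eventually.of_forall h5), integral_sub]
      · have h6 : l.1.length = l'.1.length := by
          have := hc.length_eq
          simpa only [List.length_cons, Nat.succ.injEq, Nat.add_right_cancel_iff] using this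
        have h7 : dl (ee n) (k :: l.1).reverse φ = dl (ee n) (j :: l'.1).reverse φ :=
          dl_perm (((List.reverse_perm _).trans hc).trans (List.reverse_perm _).symm) hφ.smooth
        rw [je_int hO hf hφ l.1 (by omega) k, je_int hO hf hφ l'.1 (by omega) j, h6, h7, sub_self]
      · exact hint l'.1 (by omega) _ (hφ.pd (ee n j))
      · exact hint l.1 (by omega) _ (hφ.pd (ee n k))
    · have h2 : ∀ i x, GG (cJ p P) (gJ p f) (Sum.inr (Sum.inl (l, l', k, j))) i x = 0 := by
        intro i x
        refine Finset.sum_eq_zero fun a _ => ?_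
        have h2 : cJ p P (Sum.inr (Sum.inl (l, l', k, j))) i a x = 0 := if_neg hc
        rw [h2, zero_mul]
      simp only [h1, h2, zero_mul, Finset.sum_const_zero, sub_zero, integral_zero]

end Pool.Agent.Work.MP_375441_an.Hol
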