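import Pool.Agent.Work.MP_375441_an.Hol.JetDefs

/-!
# Module JetFlat: flatness of the jets

(dl_iter) Proof.  Induction on `l`: `dl (i :: l) f = pd (e i) (dl l f)`, near `x ∈ O` the function
`dl l f` is `y ↦ iteratedFDeriv ℝ l.length f y (…)`; `iteratedFDeriv_succ_apply_left`, the function
`iteratedFDeriv ℝ l.length f` is differentiable at `x` (`ContDiffAt.iteratedFDeriv_right`), and
evaluation at a fixed vector is continuous linear
(`ContinuousMultilinearMap.apply`).
(dl_le) from (dl_iter) and `ContinuousMultilinearMap.le_opNorm`, `‖ee n i‖ = 1`.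
(iter_zero) a multilinear map which vanishes on all families of basis vectors is zero
(`Basis.ext_multilinear` with `(EuclideanSpace.basisFun (Fin n) ℝ).toBasis`).
(jet_flat) Take `ρ ≤ 1/4` with `closedBall x₀ (2ρ) ⊆ U ∩ O`, `U' = ball x₀ ρ`.  By (iter_zero) the
points `z` are those of `h`; for `|l| = p - 1` use `h` and (dl_le); for `|l| < p - 1` the function
`dl l f` is `C¹` on `O` (`dl_contDiffOn`), its derivative is bounded by some `C` on
`closedBall x₀ ρ`, so `‖dl l f x - dl l f z‖ ≤ C ‖x - z‖ ≤ C ‖x - z‖^α`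
(`Convex.norm_image_sub_le_of_norm_fderiv_le` on the ball; `‖x - z‖ ≤ 1`, `α ≤ 1`).
-/

open MeasureTheory Set Filter Topology Function Metric Module
open scoped ContDiff

namespace Pool.Agent.Work.MP_375441_an.Hol

open Pool.Agent.Work.MP_375441_an

set_option linter.unusedSectionVars false

variable {n : ℕ} {ι M : Type} [Fintype ι] [Fintype M]

theorem dl_iter {O : Set (Sp n)} (hO : IsOpen O) {m : ℕ} {f : Sp n → ℂ}
    (hf : ContDiffOn ℝ m f O) (l : List (Fin n)) (hl : l.length ≤ m) {x : Sp n} (hx : x ∈ O) :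
    dl (ee n) l f x = iteratedFDeriv ℝ l.length f x (fun k => ee n (l.get k)) := by
  induction l generalizing x with
  | nil =>
    rw [dl_nil]
    exact (iteratedFDeriv_zero_apply _).symm
  | cons i l ih =>
    rw [List.length_cons] at hl
    have hev : dl (ee n) l f =ᶠ[𝓝 x]
        fun y => iteratedFDeriv ℝ l.length f y (fun k => ee n (l.get k)) := by
      filter_upwards [hO.mem_nhds hx] with y hy
      exact ih (by omega) hy
    have hlt : ((l.length : ℕ) : WithTop ℕ∞) < ((m : ℕ) : WithTop ℕ∞) := by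
      exact_mod_cast (by omega : l.length < m)
    have hd : DifferentiableAt ℝ (iteratedFDeriv ℝ l.length f) x :=
      (hf.contDiffAt (hO.mem_nhds hx)).differentiableAt_iteratedFDeriv hlt
    rw [dl_cons]
    change fderiv ℝ (dl (ee n) l f) x (ee n i) = _
    rw [hev.fderiv_eq]
    exact (hd.iteratedFDeriv_succ_apply_left' (m := fun k => ee n ((i :: l).get k))).symm

private theorem JetFlat_norm (j : Fin n) : ‖ee n j‖ = 1 := by
  unfold ee
  rw [EuclideanSpace.norm_single, norm_one]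

theorem dl_le {O : Set (Sp n)} (hO : IsOpen O) {m : ℕ} {f : Sp n → ℂ}
    (hf : ContDiffOn ℝ m f O) (l : List (Fin n)) (hl : l.length ≤ m) {x : Sp n} (hx : x ∈ O) :
    ‖dl (ee n) l f x‖ ≤ ‖iteratedFDeriv ℝ l.length f x‖ := by
  rw [dl_iter hO hf l hl hx]
  refine (ContinuousMultilinearMap.le_opNorm _ _).trans ?_
  rw [Finset.prod_congr rfl (fun k _ => JetFlat_norm (l.get k)), Finset.prod_const_one, mul_one]

theorem iter_zero {O : Set (Sp n)} (hO : IsOpen O) {m : ℕ} {f : Sp n → ℂ}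
    (hf : ContDiffOn ℝ m f O) {x : Sp n} (hx : x ∈ O)
    (h : ∀ l : List (Fin n), l.length ≤ m → dl (ee n) l f x = 0) (k : ℕ) (hk : k ≤ m) :
    iteratedFDeriv ℝ k f x = 0 := by
  apply ContinuousMultilinearMap.toMultilinearMap_injective
  refine Module.Basis.ext_multilinear
    (fun _ => (EuclideanSpace.basisFun (Fin n) ℝ).toBasis) fun v => ?_
  have key : ∀ (l : List (Fin n)) (hl : l.length = k), (∀ j : Fin k, l.get (j.cast hl.symm) = v j) →
      iteratedFDeriv ℝ k f x (fun j => ee n (v j)) = 0 := by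
    intro l hl hv
    subst hl
    have h1 := h l hk
    rw [dl_iter hO hf l hk hx] at h1
    rw [← h1]
    congr 1
    funext j
    rw [← hv j]
    rfl
  have h2 := key (List.ofFn v) List.length_ofFn (fun j => by simp)
  have h3 : (fun i : Fin k => (EuclideanSpace.basisFun (Fin n) ℝ).toBasis (v i)) =
      fun j => ee n (v j) := by
    funext j
    simp [ee]
  change iteratedFDeriv ℝ k f x (fun i : Fin k => (EuclideanSpace.basisFun (Fin n) ℝ).toBasis (v i))
    = 0
  rw [h3]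
  exact h2

theorem jet_flat {O : Set (Sp n)} (hO : IsOpen O) {p : ℕ} (hp : 1 ≤ p) {f : Sp n → ℂ}
    (hf : ContDiffOn ℝ ((p - 1 : ℕ) : WithTop ℕ∞) f O) {x₀ : Sp n} (hx₀ : x₀ ∈ O) {α K : ℝ}
    (hα : 0 < α) (hα1 : α ≤ 1) {U : Set (Sp n)} (hU : U ∈ 𝓝 x₀)
    (h : ∀ z ∈ U, (∀ k < p, iteratedFDeriv ℝ k f z = 0) →
      ∀ x ∈ U, ‖iteratedFDeriv ℝ (p - 1) f x‖ ≤ K * ‖x - z‖ ^ α) :
    ∃ K' : ℝ, ∃ U' ∈ 𝓝 x₀, ∀ x ∈ U', ∀ z ∈ U', (∀ a : Ix n p, gJ p f a z = 0) →
      ∀ a : Ix n p, ‖gJ p f a x‖ ≤ K' * ‖x - z‖ ^ α := by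
  obtain ⟨ε, hε, hball⟩ := Metric.mem_nhds_iff.1 (Filter.inter_mem hU (hO.mem_nhds hx₀))
  set ρ : ℝ := min (ε / 2) (1 / 4) with hρ
  have hρ0 : 0 < ρ := by
    rw [hρ]
    exact lt_min (by linarith) (by norm_num)
  have hρ1 : ρ ≤ 1 / 4 := min_le_right _ _
  have hρε : ρ < ε := lt_of_le_of_lt (min_le_left _ _) (by linarith)
  have hcU : closedBall x₀ ρ ⊆ U := fun y hy =>
    (hball (lt_of_le_of_lt (mem_closedBall.1 hy) hρε)).1
  have hcO : closedBall x₀ ρ ⊆ O := fun y hy =>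
    (hball (lt_of_le_of_lt (mem_closedBall.1 hy) hρε)).2
  have hC : ∀ a : Ix n p, ∃ C : ℝ, 0 ≤ C ∧ (a.1.length < p - 1 →
      ∀ x ∈ closedBall x₀ ρ, ‖fderiv ℝ (gJ p f a) x‖ ≤ C) := by
    intro a
    by_cases ha : a.1.length < p - 1
    · have h1 : ContDiffOn ℝ ((1 : ℕ) : WithTop ℕ∞) (dl (ee n) a.1 f) O :=
        dl_contDiffOn hO hf a.1 1 (by omega)
      have h2 : ContinuousOn (fderiv ℝ (dl (ee n) a.1 f)) O :=
        h1.continuousOn_fderiv_of_isOpen hO (by norm_num)
      obtain ⟨C, hC⟩ := (isCompact_closedBall x₀ ρ).exists_bound_of_continuousOn (h2.mono hcO)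
      exact ⟨|C|, abs_nonneg C, fun _ x hx => (hC x hx).trans (le_abs_self C)⟩
    · exact ⟨0, le_rfl, fun h => absurd h ha⟩
  choose C hC0 hC using hC
  refine ⟨|K| + ∑ a, C a, ball x₀ ρ, ball_mem_nhds x₀ hρ0, ?_⟩
  intro x hx z hz hzero a
  have hxc := ball_subset_closedBall hx
  have hzc := ball_subset_closedBall hz
  have hxz : ‖x - z‖ ≤ 1 := by
    have h1 := mem_ball.1 hx
    have h2 := mem_ball.1 hz
    have h3 : dist x z ≤ dist x x₀ + dist z x₀ := dist_triangle_right x z x₀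
    rw [dist_eq_norm] at h3
    linarith
  have hr0 : 0 ≤ ‖x - z‖ ^ α := Real.rpow_nonneg (norm_nonneg _) _
  have hS : C a ≤ ∑ a, C a := Finset.single_le_sum (fun b _ => hC0 b) (Finset.mem_univ a)
  have hS0 : 0 ≤ ∑ a, C a := Finset.sum_nonneg fun b _ => hC0 b
  have hal : a.1.length < p := mem_LL.1 a.2
  by_cases ha : a.1.length < p - 1
  · have h1 : ContDiffOn ℝ ((1 : ℕ) : WithTop ℕ∞) (dl (ee n) a.1 f) O :=
      dl_contDiffOn hO hf a.1 1 (by omega)
    have h2 : ∀ y ∈ closedBall x₀ ρ, DifferentiableAt ℝ (gJ p f a) y := fun y hy =>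
      (h1.contDiffAt (hO.mem_nhds (hcO hy))).differentiableAt (by norm_num)
    have h3 := (convex_closedBall x₀ ρ).norm_image_sub_le_of_norm_fderiv_le h2 (hC a ha) hzc hxc
    rw [hzero a, sub_zero] at h3
    refine h3.trans ?_
    have h4 : ‖x - z‖ ≤ ‖x - z‖ ^ α := by
      have := Real.rpow_le_rpow_of_exponent_ge' (norm_nonneg (x - z)) hxz hα.le hα1
      rwa [Real.rpow_one] at this
    calc C a * ‖x - z‖ ≤ (|K| + ∑ a, C a) * ‖x - z‖ := by
          apply mul_le_mul_of_nonneg_right _ (norm_nonneg _)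
          have := abs_nonneg K
          linarith
      _ ≤ (|K| + ∑ a, C a) * ‖x - z‖ ^ α := by
          apply mul_le_mul_of_nonneg_left h4
          have := abs_nonneg K
          linarith
  · have ha' : a.1.length = p - 1 := by omega
    have h1 : ∀ k < p, iteratedFDeriv ℝ k f z = 0 := by
      intro k hk
      refine iter_zero hO hf (hcO hzc) (fun l hl => ?_) k (by omega)
      exact hzero ⟨l, mem_LL.2 (by omega)⟩
    have h2 := h z (hcU hzc) h1 x (hcU hxc)
    have h3 : ‖gJ p f a x‖ ≤ ‖iteratedFDeriv ℝ (p - 1) f x‖ := by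
      have h4 := dl_le hO hf a.1 (by omega) (hcO hxc)
      rw [ha'] at h4
      exact h4
    refine (h3.trans h2).trans ?_
    apply mul_le_mul_of_nonneg_right _ hr0
    have := le_abs_self K
    linarith

end Pool.Agent.Work.MP_375441_an.Hol
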