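import Pool.Agent.Work.MP_375441_an.Hol.JetDefs
import Pool.Agent.Work.MP_375441_an.CoreTwo

/-!
# Module JetPde: the last equation of the system is `Pf = 0`

Proof.  Follow `main_two` in FinTwo.lean (the pairing).  `pairing` (Defs.lean) writes the left side as
`∑_α (-1)^|α| (1/I)^|α| ∫ f dl (lst α) (P_α φ)`.  `|α| < p`: by `low_term` the term is
`∫ (1/I)^|α| dl (lst α).reverse f · P_α φ`, and `(lst α).reverse ∈ LL n p`.  `|α| = p`:
`(lst α).reverse = i :: b`, so `lst α = b.reverse ++ [i]`; by `top_term` (CoreTwo.lean, with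
`m = p - 1`, `l = b.reverse`, `l' = lst α`) the term is
`- (1/I)^p ∫ dl b f · ∂_i (P_α φ) = - (1/I)^p ∫ g_b (∂_i P_α φ + P_α ∂_i φ)` (`pd_mul` at the points of
`tsupport φ`, outside everything vanishes).  Compare with the integrand of `TT`:
`HH φ - ∑_i GG_i ∂_i φ`.
-/

open MeasureTheory Set Filter Topology Function Metric Module
open scoped ContDiff

namespace Pool.Agent.Work.MP_375441_an.Hol

open Pool.Agent.Work.MP_375441_an

set_option linter.unusedSectionVars false

variable {n : ℕ} {ι M : Type} [Fintype ι] [Fintype M]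

theorem jet_pde {p : ℕ} (hp : 1 ≤ p) {P : (Fin n → ℕ) → Sp n → ℂ} {X : Set (Sp n)}
    (hX : IsOpen X) (hP : ∀ α ∈ multi n p, ContDiffOn ℝ ∞ (P α) X) {O : Set (Sp n)}
    (hO : IsOpen O) (hOX : O ⊆ X) {f : Sp n → ℂ}
    (hf : ContDiffOn ℝ ((p - 1 : ℕ) : WithTop ℕ∞) f O) {φ : Sp n → ℂ} (hφ : IsTest O φ) :
    ∫ x, f x * transp p P φ x =
      TT (cJ p P) (dJ p P) (gJ p f) (Sum.inr (Sum.inr ())) φ := by
  obtain ⟨m, rfl⟩ : ∃ m, p = m + 1 := ⟨p - 1, by omega⟩
  rw [Nat.add_sub_cancel] at hf
  have ht : ∀ α ∈ multi n (m + 1), IsTest O (fun y => P α y * φ y) := fun α hα =>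
    hφ.mul_left hX hOX (hP α hα)
  set Slo := (multi n (m + 1)).filter (fun α => ¬ ∑ i, α i = m + 1) with hSlo
  set Sto := (multi n (m + 1)).filter (fun α => ∑ i, α i = m + 1) with hSto
  have hlow : ∀ α ∈ Slo, (lst α).length ≤ m := by
    intro α hα
    rw [hSlo, Finset.mem_filter, mem_multi] at hα
    rw [lst_length]
    omega
  have htop : ∀ α ∈ Sto, (lst α).length = m + 1 := by
    intro α hα
    rw [hSto, Finset.mem_filter] at hα
    rw [lst_length]
    exact hα.2
  have hsp2 : ∀ α ∈ Sto, ∃ (i : Fin n) (b : Ix n (m + 1)), b.1.length = m ∧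
      (lst α).reverse = i :: b.1 := by
    intro α hα
    have h1 : (lst α).reverse.length = m + 1 := by rw [List.length_reverse]; exact htop α hα
    obtain ⟨i, b, h2⟩ := List.exists_cons_of_length_eq_add_one h1
    rw [h2, List.length_cons] at h1
    exact ⟨i, ⟨b, mem_LL.2 (by omega)⟩, by simpa using h1, h2⟩
  -- the integrands
  set Tlo : (Fin n → ℕ) → Sp n → ℂ := fun α x => (1 / Complex.I) ^ (∑ i, α i) *
    (dl (ee n) (lst α).reverse f x * (P α x * φ x)) with hTlo
  have hlo_int : ∀ α ∈ Slo, Integrable (Tlo α) := by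
    intro α hα
    have h1 := ht α (Finset.mem_filter.mp hα).1
    exact (integrable_mul_test hO (dl_continuousOn hO hf _
      (by rw [List.length_reverse]; exact hlow α hα)) h1.smooth.continuous h1.comp
      h1.supp).const_mul _
  have hlo_eq : ∀ α ∈ Slo, (-1) ^ (∑ i, α i) * ((1 / Complex.I) ^ (∑ i, α i) *
      ∫ x, f x * dl (ee n) (lst α) (fun y => P α y * φ y) x) = ∫ x, Tlo α x := by
    intro α hα
    have h1 := low_term (μ := volume) (e := ee n) hO hf (hlow α hα)
      (ht α (Finset.mem_filter.mp hα).1)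
    rw [lst_length] at h1
    rw [hTlo]
    simp only []
    rw [integral_const_mul, ← h1]
    ring
  have hto : ∀ α ∈ Sto, ∃ (i : Fin n) (b : Ix n (m + 1)), (lst α).reverse = i :: b.1 ∧
      Integrable (fun x => (1 / Complex.I) ^ (m + 1) *
        (dl (ee n) b.1 f x * pd (ee n i) (fun y => P α y * φ y) x)) ∧
      (-1) ^ (∑ i, α i) * ((1 / Complex.I) ^ (∑ i, α i) *
        ∫ x, f x * dl (ee n) (lst α) (fun y => P α y * φ y) x) =
      - ∫ x, (1 / Complex.I) ^ (m + 1) *
        (dl (ee n) b.1 f x * pd (ee n i) (fun y => P α y * φ y) x) := by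
    intro α hα
    obtain ⟨i, b, h1, h2⟩ := hsp2 α hα
    have h3 : lst α = b.1.reverse ++ [i] := by
      have h4 := congrArg List.reverse h2
      rw [List.reverse_reverse, List.reverse_cons] at h4
      exact h4
    have hg := ht α (Finset.mem_filter.mp hα).1
    have h5 := top_term (μ := volume) (e := ee n) hO hf (l := b.1.reverse) (l' := lst α) (i := i)
      (by rw [List.length_reverse]; exact h1) (by rw [h3]) hg
    rw [List.reverse_reverse] at h5
    have h6 : ∑ i, α i = m + 1 := (Finset.mem_filter.mp hα).2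
    refine ⟨i, b, h2, ?_, ?_⟩
    · exact (J_integrable hO (dl_continuousOn hO hf b.1 h1.le) hg.one).const_mul _
    · rw [h6, integral_const_mul]
      have h7 : ∫ x, dl (ee n) b.1 f x * pd (ee n i) (fun y => P α y * φ y) x =
          J volume (dl (ee n) b.1 f) (ee n i) (fun y => P α y * φ y) := rfl
      rw [h7, ← neg_eq_iff_eq_neg.2 h5]
      ring
  have hto' : ∀ α : ↥Sto, _ := fun α => hto α.1 α.2
  choose iA bA h8 h9 h10 using hto'
  rw [pairing hX hO hOX hP hf.continuousOn hφ,
    ← Finset.sum_filter_add_sum_filter_not _ (fun α => ∑ i, α i = m + 1)]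
  rw [← hSto, ← hSlo, ← Finset.sum_coe_sort Sto, Finset.sum_congr rfl (fun α _ => h10 α),
    Finset.sum_congr rfl hlo_eq, Finset.sum_neg_distrib,
    ← integral_finsetSum _ (fun α _ => h9 α), ← integral_finsetSum _ hlo_int, neg_add_eq_sub,
    ← integral_sub (integrable_finsetSum _ hlo_int) (integrable_finsetSum _ (fun α _ => h9 α))]
  unfold TT TF
  refine integral_congr_ae (Eventually.of_forall fun x => ?_)
  simp only []
  by_cases hx : x ∈ tsupport φ
  · have hxO : x ∈ O := hφ.supp hx
    -- left side
    have hl1 : ∀ α : ↥Sto, pd (ee n (iA α)) (fun y => P α y * φ y) x =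
        pd (ee n (iA α)) (P α) x * φ x + P α x * pd (ee n (iA α)) φ x := by
      intro α
      have h1 : DifferentiableAt ℝ (P α) x :=
        ((hP α (Finset.mem_filter.mp α.2).1).differentiableOn (by simp)).differentiableAt
          (hX.mem_nhds (hOX hxO))
      exact pd_mul h1 (hφ.smooth.differentiable (by simp) x)
    have hGG : ∀ i, GG (cJ (m + 1) P) (gJ (m + 1) f) (Sum.inr (Sum.inr ())) i x =
        ∑ α : ↥Sto, if i = iA α then (1 / Complex.I) ^ (m + 1) * P α x * dl (ee n) (bA α).1 f x
          else 0 := by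
      intro i
      unfold GG cJ cS gJ
      simp only []
      simp_rw [Finset.sum_mul]
      rw [Finset.sum_comm, ← hSto, ← Finset.sum_coe_sort Sto]
      refine Finset.sum_congr rfl fun α _ => ?_
      rw [h8 α]
      by_cases hi : i = iA α
      · rw [if_pos hi, Finset.sum_eq_single (bA α)]
        · rw [if_pos (by rw [hi])]
        · intro a _ ha
          rw [if_neg, zero_mul]
          intro h
          exact ha (Subtype.ext (List.cons.inj h).2.symm)
        · intro h
          exact absurd (Finset.mem_univ _) h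
      · rw [if_neg hi]
        refine Finset.sum_eq_zero fun a _ => ?_
        rw [if_neg, zero_mul]
        intro h
        exact hi (List.cons.inj h).1.symm
    have hGs : ∑ i, GG (cJ (m + 1) P) (gJ (m + 1) f) (Sum.inr (Sum.inr ())) i x *
        pd (ee n i) φ x = ∑ α : ↥Sto, (1 / Complex.I) ^ (m + 1) * P α x *
          dl (ee n) (bA α).1 f x * pd (ee n (iA α)) φ x := by
      simp_rw [hGG, Finset.sum_mul]
      rw [Finset.sum_comm]
      refine Finset.sum_congr rfl fun α _ => ?_
      rw [Finset.sum_eq_single (iA α)]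
      · rw [if_pos rfl]
      · intro i _ hi
        rw [if_neg hi, zero_mul]
      · intro h
        exact absurd (Finset.mem_univ _) h
    have hHH : HH (dJ (m + 1) P) (gJ (m + 1) f) (Sum.inr (Sum.inr ())) x =
        ∑ α ∈ Slo, (1 / Complex.I) ^ (∑ i, α i) * P α x * dl (ee n) (lst α).reverse f x -
        ∑ α : ↥Sto, (1 / Complex.I) ^ (m + 1) * pd (ee n (iA α)) (P α) x *
          dl (ee n) (bA α).1 f x := by
      unfold HH dJ gJ
      simp only []
      simp_rw [sub_mul, Finset.sum_mul]
      rw [Finset.sum_sub_distrib, Finset.sum_comm]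
      congr 1
      · refine Finset.sum_congr rfl fun α hα => ?_
        have h1 : (lst α).reverse ∈ LL n (m + 1) :=
          mem_LL.2 (by rw [List.length_reverse]; have := hlow α hα; omega)
        rw [Finset.sum_eq_single (⟨(lst α).reverse, h1⟩ : Ix n (m + 1))]
        · rw [if_pos rfl]
        · intro a _ ha
          rw [if_neg, zero_mul]
          intro h
          exact ha (Subtype.ext h.symm)
        · intro h
          exact absurd (Finset.mem_univ _) h
      · rw [Finset.sum_comm, ← hSto, ← Finset.sum_coe_sort Sto]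
        refine Finset.sum_congr rfl fun α _ => ?_
        rw [Finset.sum_eq_single (bA α)]
        · rw [Finset.sum_eq_single (iA α)]
          · rw [if_pos (h8 α)]
          · intro i _ hi
            rw [if_neg, zero_mul]
            intro h
            exact hi (List.cons.inj ((h8 α).symm.trans h)).1.symm
          · intro h
            exact absurd (Finset.mem_univ _) h
        · intro a _ ha
          refine Finset.sum_eq_zero fun i _ => ?_
          rw [if_neg, zero_mul]
          intro h
          exact ha (Subtype.ext (List.cons.inj ((h8 α).symm.trans h)).2.symm)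
        · intro h
          exact absurd (Finset.mem_univ _) h
    rw [hGs, hHH, sub_mul, Finset.sum_mul, Finset.sum_mul, sub_sub, ← Finset.sum_add_distrib]
    congr 1
    · refine Finset.sum_congr rfl fun α _ => ?_
      rw [hTlo]
      ring
    · refine Finset.sum_congr rfl fun α _ => ?_
      rw [hl1 α]
      ring
  · have h0 : φ x = 0 := image_eq_zero_of_notMem_tsupport hx
    have h1 : ∀ i, pd (ee n i) φ x = 0 := fun i =>
      image_eq_zero_of_notMem_tsupport (fun h => hx (pd_tsupport _ _ h))
    have h2 : ∀ α i, pd (ee n i) (fun y => P α y * φ y) x = 0 := fun α i =>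
      image_eq_zero_of_notMem_tsupport
        (fun h => hx (tsupport_mul_subset_right' _ _ (pd_tsupport _ _ h)))
    simp only [hTlo, h0, h1, h2, mul_zero, Finset.sum_const_zero, sub_zero]


end Pool.Agent.Work.MP_375441_an.Hol
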