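import Pool.Agent.Work.MP_375441_an.Hol.JetDefs

/-!
# Module JetSym: the system of the jets is elliptic

Proof.  Let `ξ ≠ 0`, `k₀` with `ξ k₀ ≠ 0`, and let all `m`-th sums vanish.  For
`m = inl (l, k₀)` with `l.length + 1 < p`: `ξ k₀ * w l = 0`, so `w l = 0` for `l.length + 1 < p`.
For `m = inr (inl (l, l', k, j))` with `(k :: l).Perm (j :: l')`: `ξ k * w l = ξ j * w l'`.
Claim: for `l.length + 1 = p`, `w l = t * (l.map (ξ ·)).prod`, where
`t = w (replicate (p-1) k₀) / ξ k₀ ^ (p-1)`.  Induction on `l₁` in `l = l₁ ++ replicate s k₀`.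
The last equation: for `α` with `∑ α = p` exactly one pair `(i, a)` has
`(lst α).reverse = i :: a.1` (`lst_length`, `p ≥ 1`), and it contributes
`(1/I)^p q α ξ i w a = (1/I)^p q α t ∏_{j ∈ lst α} ξ j = (1/I)^p q α t ∏_i ξ_i ^ α_i`.  So
`0 = (1/I)^p t ∑_α q α ∏ ξ_i^{α_i}`, hence `t = 0` and `w = 0`.
-/

open MeasureTheory Set Filter Topology Function Metric Module
open scoped ContDiff

namespace Pool.Agent.Work.MP_375441_an.Hol

open Pool.Agent.Work.MP_375441_an

set_option linter.unusedSectionVars false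

variable {n : ℕ} {ι M : Type} [Fintype ι] [Fintype M]

private theorem js_ss {A B : Type} [Fintype A] [Fintype B] (X : A → B → ℂ) (k : A) (l : B)
    (P : A → B → Prop) [∀ i a, Decidable (P i a)] (hP : ∀ i a, P i a ↔ a = l ∧ i = k) (c : ℂ) :
    ∑ i, ∑ a, (if P i a then c else 0) * X i a = c * X k l := by
  rw [Finset.sum_eq_single k, Finset.sum_eq_single l]
  · rw [if_pos ((hP k l).2 ⟨rfl, rfl⟩)]
  · intro b _ hb
    rw [if_neg (fun h => hb ((hP k b).1 h).1), zero_mul]
  · intro h
    exact absurd (Finset.mem_univ _) h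
  · intro i _ hi
    apply Finset.sum_eq_zero
    intro a _
    rw [if_neg (fun h => hi ((hP i a).1 h).2), zero_mul]
  · intro h
    exact absurd (Finset.mem_univ _) h

private theorem js_prod (f : Fin n → ℂ) (α : Fin n → ℕ) :
    ((lst α).map f).prod = ∏ i, f i ^ α i := by
  have h : ∀ L : List (Fin n), ((L.flatMap fun j => List.replicate (α j) j).map f).prod =
      (L.map (fun j => f j ^ α j)).prod := by
    intro L
    induction L with
    | nil => rfl
    | cons j L ih =>
      rw [List.flatMap_cons, List.map_append, List.prod_append, ih, List.map_cons,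
        List.prod_cons, List.map_replicate, List.prod_replicate]
  unfold lst
  rw [h, ← List.ofFn_eq_map, List.prod_ofFn]

theorem jet_sym {p : ℕ} (hp : 1 ≤ p) {q : (Fin n → ℕ) → ℂ}
    (hq : ∀ z : Fin n → ℝ, z ≠ 0 →
      ∑ α ∈ (multi n p).filter (fun α => ∑ i, α i = p), q α * ∏ i, (z i : ℂ) ^ α i ≠ 0)
    (ξ : Fin n → ℝ) (hξ : ξ ≠ 0) (w : Ix n p → ℂ)
    (h : ∀ m : Mx n p, ∑ i, ∑ a, cS p q m i a * ((ξ i : ℂ) * w a) = 0) : w = 0 := by
  classical
  obtain ⟨k₀, hk₀⟩ : ∃ k₀, ξ k₀ ≠ 0 := by
    by_contra hcon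
    push Not at hcon
    exact hξ (funext hcon)
  have hk : (ξ k₀ : ℂ) ≠ 0 := by exact_mod_cast hk₀
  set W : List (Fin n) → ℂ := fun l => if hl : l ∈ LL n p then w ⟨l, hl⟩ else 0 with hW
  have hWl : ∀ (l : List (Fin n)) (hl : l ∈ LL n p), W l = w ⟨l, hl⟩ := fun l hl => dif_pos hl
  have F1 : ∀ l : List (Fin n), l.length + 1 < p → W l = 0 := by
    intro l hl
    have hlm : l ∈ LL n p := mem_LL.2 (by omega)
    have h1 := h (Sum.inl (⟨l, hlm⟩, k₀))
    have h2 := js_ss (fun i a => (ξ i : ℂ) * w a) k₀ (⟨l, hlm⟩ : Ix n p)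
      (fun i a => (k₀ :: l).length < p ∧ a = ⟨l, hlm⟩ ∧ i = k₀)
      (fun i a => ⟨fun h3 => h3.2, fun h3 => ⟨by rw [List.length_cons]; exact hl, h3⟩⟩) 1
    have h3 : (1 : ℂ) * ((ξ k₀ : ℂ) * w ⟨l, hlm⟩) = 0 := h2.symm.trans
      (Eq.trans (Finset.sum_congr rfl fun i _ => Finset.sum_congr rfl fun a _ => rfl) h1)
    rw [one_mul] at h3
    rw [hWl l hlm]
    exact (mul_eq_zero.1 h3).resolve_left hk
  have F2 : ∀ (l l' : List (Fin n)) (k j : Fin n), l.length < p → l'.length < p →
      (k :: l).Perm (j :: l') → (ξ k : ℂ) * W l = (ξ j : ℂ) * W l' := by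
    intro l l' k j hl hl' hperm
    have hlm : l ∈ LL n p := mem_LL.2 hl
    have hlm' : l' ∈ LL n p := mem_LL.2 hl'
    have h1 := h (Sum.inr (Sum.inl (⟨l, hlm⟩, ⟨l', hlm'⟩, k, j)))
    have h2 := js_ss (fun i a => (ξ i : ℂ) * w a) k (⟨l, hlm⟩ : Ix n p)
      (fun i a => a = ⟨l, hlm⟩ ∧ i = k) (fun i a => Iff.rfl) 1
    have h3 := js_ss (fun i a => (ξ i : ℂ) * w a) j (⟨l', hlm'⟩ : Ix n p)
      (fun i a => a = ⟨l', hlm'⟩ ∧ i = j) (fun i a => Iff.rfl) 1
    have h4 : ∀ i a, cS p q (Sum.inr (Sum.inl (⟨l, hlm⟩, ⟨l', hlm'⟩, k, j))) i a *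
        ((ξ i : ℂ) * w a) = (if a = (⟨l, hlm⟩ : Ix n p) ∧ i = k then 1 else 0) *
          ((ξ i : ℂ) * w a) - (if a = (⟨l', hlm'⟩ : Ix n p) ∧ i = j then 1 else 0) *
          ((ξ i : ℂ) * w a) := by
      intro i a
      have h5 : cS p q (Sum.inr (Sum.inl (⟨l, hlm⟩, ⟨l', hlm'⟩, k, j))) i a =
          (if a = (⟨l, hlm⟩ : Ix n p) ∧ i = k then 1 else 0) -
          (if a = (⟨l', hlm'⟩ : Ix n p) ∧ i = j then 1 else 0) := if_pos hperm
      rw [h5, sub_mul]
    simp only [h4, Finset.sum_sub_distrib] at h1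
    rw [h2, h3, one_mul, one_mul] at h1
    rw [hWl l hlm, hWl l' hlm']
    exact sub_eq_zero.1 h1
  set t : ℂ := W (List.replicate (p - 1) k₀) / (ξ k₀ : ℂ) ^ (p - 1) with ht
  have F3 : ∀ (l : List (Fin n)) (s : ℕ), l.length + s + 1 = p →
      W (l ++ List.replicate s k₀) = t * ((l ++ List.replicate s k₀).map
        (fun i => (ξ i : ℂ))).prod := by
    intro l
    induction l with
    | nil =>
      intro s hs
      rw [List.length_nil] at hs
      have hs' : s = p - 1 := by omega
      rw [List.nil_append, hs', List.map_replicate, List.prod_replicate, ht,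
        div_mul_cancel₀ _ (pow_ne_zero _ hk)]
    | cons j l ih =>
      intro s hs
      rw [List.length_cons] at hs
      have h1 := ih (s + 1) (by omega)
      have h2 := F2 (j :: l ++ List.replicate s k₀) (l ++ List.replicate (s + 1) k₀) k₀ j
        (by rw [List.length_append, List.length_cons, List.length_replicate]; omega)
        (by rw [List.length_append, List.length_replicate]; omega) (by
          have h3 : (k₀ :: (j :: l ++ List.replicate s k₀)).Perm
              (j :: (k₀ :: (l ++ List.replicate s k₀))) := List.Perm.swap _ _ _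
          refine h3.trans (List.Perm.cons _ ?_)
          rw [List.replicate_succ]
          exact List.perm_middle.symm)
      have h4 : ((j :: l ++ List.replicate s k₀).map (fun i => (ξ i : ℂ))).prod =
          (ξ j : ℂ) * ((l.map (fun i => (ξ i : ℂ))).prod * (ξ k₀ : ℂ) ^ s) := by
        rw [List.cons_append, List.map_cons, List.prod_cons, List.map_append, List.prod_append,
          List.map_replicate, List.prod_replicate]
      have h5 : ((l ++ List.replicate (s + 1) k₀).map (fun i => (ξ i : ℂ))).prod =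
          (l.map (fun i => (ξ i : ℂ))).prod * (ξ k₀ : ℂ) ^ (s + 1) := by
        rw [List.map_append, List.prod_append, List.map_replicate, List.prod_replicate]
      rw [h1, h5] at h2
      rw [h4]
      apply mul_left_cancel₀ hk
      rw [h2, pow_succ]
      ring
  have F4 : ∀ l : List (Fin n), l.length + 1 = p →
      W l = t * (l.map (fun i => (ξ i : ℂ))).prod := by
    intro l hl
    have h1 := F3 l 0 (by omega)
    rw [List.replicate_zero, List.append_nil] at h1
    exact h1
  have ht0 : t = 0 := by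
    have h1 := h (Sum.inr (Sum.inr ()))
    have h2 : ∀ i a, cS p q (Sum.inr (Sum.inr ())) i a * ((ξ i : ℂ) * w a) =
        ∑ α ∈ (multi n p).filter (fun α => ∑ i, α i = p),
          (if (lst α).reverse = i :: a.1 then (1 / Complex.I) ^ p * q α else 0) *
            ((ξ i : ℂ) * w a) := by
      intro i a
      have h3 : cS p q (Sum.inr (Sum.inr ())) i a =
        ∑ α ∈ (multi n p).filter (fun α => ∑ i, α i = p),
          (if (lst α).reverse = i :: a.1 then (1 / Complex.I) ^ p * q α else 0) := rfl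
      rw [h3, Finset.sum_mul]
    simp only [h2] at h1
    have h4 : ∑ α ∈ (multi n p).filter (fun α => ∑ i, α i = p), ∑ i, ∑ a : Ix n p,
          (if (lst α).reverse = i :: a.1 then (1 / Complex.I) ^ p * q α else 0) *
            ((ξ i : ℂ) * w a) = 0 := by
      refine Eq.trans ?_ h1
      rw [Finset.sum_comm]
      refine Finset.sum_congr rfl fun i _ => ?_
      rw [Finset.sum_comm]
    have h5 : ∀ α ∈ (multi n p).filter (fun α => ∑ i, α i = p), ∑ i, ∑ a : Ix n p,
          (if (lst α).reverse = i :: a.1 then (1 / Complex.I) ^ p * q α else 0) *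
            ((ξ i : ℂ) * w a) = (1 / Complex.I) ^ p * t * (q α * ∏ i, (ξ i : ℂ) ^ α i) := by
      intro α hα
      have hs : ∑ i, α i = p := (Finset.mem_filter.1 hα).2
      have hlen : (lst α).reverse.length = p := by
        rw [List.length_reverse, lst_length, hs]
      obtain ⟨i₀, b, hb⟩ : ∃ i₀ b, (lst α).reverse = i₀ :: b := by
        cases hr : (lst α).reverse with
        | nil =>
          rw [hr, List.length_nil] at hlen
          omega
        | cons i₀ b => exact ⟨i₀, b, rfl⟩
      have hbl : b.length + 1 = p := by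
        rw [← hlen, hb, List.length_cons]
      have hbm : b ∈ LL n p := mem_LL.2 (by omega)
      have h6 := js_ss (fun i a => (ξ i : ℂ) * w a) i₀ (⟨b, hbm⟩ : Ix n p)
        (fun i a => (lst α).reverse = i :: a.1) (fun i a => by
          rw [hb]
          constructor
          · intro h7
            obtain ⟨h8, h9⟩ := List.cons.inj h7
            exact ⟨Subtype.ext h9.symm, h8.symm⟩
          · rintro ⟨rfl, rfl⟩
            rfl) ((1 / Complex.I) ^ p * q α)
      have h7 : (ξ i₀ : ℂ) * w ⟨b, hbm⟩ = t * ∏ i, (ξ i : ℂ) ^ α i := by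
        rw [← hWl b hbm, F4 b hbl, ← js_prod (fun i => (ξ i : ℂ)) α]
        have h8 : ((lst α).map (fun i => (ξ i : ℂ))).prod =
            ((lst α).reverse.map (fun i => (ξ i : ℂ))).prod := by
          rw [List.map_reverse, List.prod_reverse]
        rw [h8, hb, List.map_cons, List.prod_cons]
        ring
      refine (Eq.trans ?_ h6).trans ?_
      · exact Finset.sum_congr rfl fun i _ => Finset.sum_congr rfl fun a _ => by
          congr
      · rw [h7]
        ring
    rw [Finset.sum_congr rfl h5, ← Finset.mul_sum] at h4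
    have h6 : (1 / Complex.I) ^ p ≠ 0 := pow_ne_zero _ (by simp)
    rcases mul_eq_zero.1 h4 with h7 | h7
    · exact (mul_eq_zero.1 h7).resolve_left h6
    · exact absurd h7 (hq ξ hξ)
  funext a
  have ha : a.1.length < p := mem_LL.1 a.2
  have h1 : w a = W a.1 := (hWl a.1 a.2).symm
  rw [h1]
  show W a.1 = 0
  rcases Nat.lt_or_ge (a.1.length + 1) p with h2 | h2
  · exact F1 _ h2
  · rw [F4 a.1 (by omega), ht0, zero_mul]

end Pool.Agent.Work.MP_375441_an.Hol
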