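import Pool.Agent.Work.MP_375441_an.Hol.CoreLoc
import Pool.Agent.Work.MP_375441_an.Hol.JetSym
import Pool.Agent.Work.MP_375441_an.Hol.JetEq
import Pool.Agent.Work.MP_375441_an.Hol.JetPde
import Pool.Agent.Work.MP_375441_an.Hol.JetCoef
import Pool.Agent.Work.MP_375441_an.Hol.JetFlat

/-!
# Module Main: assembly
-/

open MeasureTheory Set Filter Topology Function Metric Module
open scoped ContDiff

namespace Pool.Agent.Work.MP_375441_an.Hol

open Pool.Agent.Work.MP_375441_an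

set_option linter.unusedSectionVars false

variable {n : ℕ}

private lemma main_cS {p : ℕ} (q q' : (Fin n → ℕ) → ℂ)
    (h : ∀ α, ∑ i, α i = p → q α = q' α) : cS p q = cS p q' := by
  funext m i a
  rcases m with ⟨l, j⟩ | ⟨l, l', k, j⟩ | u
  · rfl
  · rfl
  · simp only [cS]
    refine Finset.sum_congr rfl fun α hα => ?_
    rw [Finset.mem_filter] at hα
    rw [h α hα.2]

open Classical in
/-- the exponent -/
private noncomputable def expA (n p : ℕ) (hp : 1 ≤ p) (q : (Fin n → ℕ) → ℂ) : ℝ :=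
  if hq : ∀ z : Fin n → ℝ, z ≠ 0 →
      ∑ α ∈ (multi n p).filter (fun α => ∑ i, α i = p), q α * ∏ i, (z i : ℂ) ^ α i ≠ 0 then
    Classical.choose (core_loc (cS p q) (jet_sym hp hq))
  else 0

private lemma gJ_cont {p : ℕ} {O : Set (Sp n)} (hO : IsOpen O) {f : Sp n → ℂ} (hp : 1 ≤ p)
    (hf : ContDiffOn ℝ ((p - 1 : ℕ) : WithTop ℕ∞) f O) (a : Ix n p) :
    ContinuousOn (gJ p f a) O :=
  dl_continuousOn hO hf a.1 (by have := mem_LL.mp a.2; omega)

/-- the Hoelder theorem -/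
theorem main_H (n p : ℕ) (hp : 1 ≤ p) : ∃ a₀ : ((Fin n → ℕ) → ℂ) → ℝ, (∀ q, a₀ q < 1) ∧
    ∀ (X : Set (Sp n)), IsOpen X → ∀ (P : (Fin n → ℕ) → Sp n → ℂ),
      (∀ α ∈ multi n p, ContDiffOn ℝ ∞ (P α) X) → Ellip p P X →
    ∀ (O : Set (Sp n)), IsOpen O → O ⊆ X → ∀ f : Sp n → ℂ,
      ContDiffOn ℝ ((p - 1 : ℕ) : WithTop ℕ∞) f O →
      (∀ x₀ ∈ O, (∀ k < p, iteratedFDeriv ℝ k f x₀ = 0) → ∃ α K : ℝ,
        a₀ (fun β => if ∑ i, β i = p then P β x₀ else 0) < α ∧ ∃ U ∈ 𝓝 x₀, ∀ z ∈ U,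
          (∀ k < p, iteratedFDeriv ℝ k f z = 0) →
          ∀ x ∈ U, ‖iteratedFDeriv ℝ (p - 1) f x‖ ≤ K * ‖x - z‖ ^ α) →
      Solves p P f (O \ {x | f x = 0}) → Solves p P f O := by
  refine ⟨expA n p hp, fun q => ?_, ?_⟩
  · unfold expA
    split_ifs with hq
    · exact (Classical.choose_spec (core_loc (cS p q) (jet_sym hp hq))).2.1
    · exact one_pos
  intro X hX P hP hell O hO hOX f hf hflat hS
  have hPO : ∀ α ∈ multi n p, ContDiffOn ℝ ∞ (P α) O := fun α hα => (hP α hα).mono hOX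
  have hgc : ∀ a : Ix n p, ContinuousOn (gJ p f a) O := gJ_cont hO hp hf
  have hcc : ∀ m i a, ContDiffOn ℝ 1 (cJ p P m i a) O := cJ_contDiffOn hPO
  have hdc : ∀ m a, ContinuousOn (dJ p P m a) O := dJ_continuousOn hO hPO
  have hGc : ∀ m i, ContinuousOn (GG (cJ p P) (gJ p f) m i) O := fun m i =>
    continuousOn_finsetSum _ fun a _ => (hcc m i a).continuousOn.mul (hgc a)
  have hHc : ∀ m, ContinuousOn (HH (dJ p P) (gJ p f) m) O := fun m =>
    continuousOn_finsetSum _ fun a _ => (hdc m a).mul (hgc a)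
  -- the PDE where some derivative does not vanish
  have hZ : IsOpen (O \ {x | f x = 0}) := by
    have : O \ {x | f x = 0} = O ∩ f ⁻¹' {0}ᶜ := rfl
    rw [this]
    exact hf.continuousOn.isOpen_inter_preimage hO isOpen_compl_singleton
  set mP : Mx n p := Sum.inr (Sum.inr ()) with hmP
  have h0 : ∀ x ∈ O, f x ≠ 0 →
      VanAt volume (ee n) (GG (cJ p P) (gJ p f) mP) (HH (dJ p P) (gJ p f) mP) x := by
    intro x hx hfx
    refine ⟨O \ {x | f x = 0}, hZ, ⟨hx, hfx⟩, fun φ hφ => ?_⟩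
    have h1 := jet_pde hp hX hP hO hOX hf (hφ.mono sdiff_subset)
    rw [hS φ hφ.smooth hφ.comp hφ.supp] at h1
    exact h1.symm
  have h1 : ∀ l : List (Fin n), l.length ≤ p - 1 → ∀ x ∈ O, dl (ee n) l f x ≠ 0 →
      VanAt volume (ee n) (GG (cJ p P) (gJ p f) mP) (HH (dJ p P) (gJ p f) mP) x :=
    van_lists hO (hGc mP) (hHc mP) hO subset_rfl hf h0
  have h2 : ∀ x ∈ O ∩ Nz (gJ p f),
      VanAt volume (ee n) (GG (cJ p P) (gJ p f) mP) (HH (dJ p P) (gJ p f) mP) x := by
    rintro x ⟨hx, a, ha⟩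
    exact h1 a.1 (by have := mem_LL.mp a.2; omega) x hx ha
  -- all equations where the jet does not vanish
  have hEq : Eqn (cJ p P) (dJ p P) (gJ p f) (O ∩ Nz (gJ p f)) := by
    intro m φ hφ
    have hφO : IsTest O φ := hφ.mono inter_subset_left
    rcases m with s | s | s
    · exact jet_eq P hO hf hφO (Sum.inl s)
    · exact jet_eq P hO hf hφO (Sum.inr s)
    · exact van_of_local hO (hGc mP) (hHc mP) inter_subset_left h2 hφ
  -- the PDE everywhere
  have h3 : ∀ x ∈ O,
      VanAt volume (ee n) (GG (cJ p P) (gJ p f) mP) (HH (dJ p P) (gJ p f) mP) x := by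
    intro x₀ hx₀
    by_cases hz : ∀ k < p, iteratedFDeriv ℝ k f x₀ = 0
    · obtain ⟨α, K, hα, U, hU, hUf⟩ := hflat x₀ hx₀ hz
      set q : (Fin n → ℕ) → ℂ := fun β => if ∑ i, β i = p then P β x₀ else 0 with hqdef
      have hq : ∀ z : Fin n → ℝ, z ≠ 0 →
          ∑ α ∈ (multi n p).filter (fun α => ∑ i, α i = p), q α * ∏ i, (z i : ℂ) ^ α i ≠ 0 := by
        intro z hz
        have h4 := hell x₀ (hOX hx₀) z hz
        have h5 : ∑ α ∈ (multi n p).filter (fun α => ∑ i, α i = p),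
            q α * ∏ i, (z i : ℂ) ^ α i = ∑ α ∈ (multi n p).filter (fun α => ∑ i, α i = p),
            P α x₀ * ∏ i, (z i : ℂ) ^ α i := by
          refine Finset.sum_congr rfl fun α hα => ?_
          rw [Finset.mem_filter] at hα
          simp only [hqdef, if_pos hα.2]
        rw [h5]
        exact h4
      have hexp : expA n p hp q = Classical.choose (core_loc (cS p q) (jet_sym hp hq)) := by
        unfold expA
        rw [dif_pos hq]
      obtain ⟨ha0, ha1, hcore⟩ := Classical.choose_spec (core_loc (cS p q) (jet_sym hp hq))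
      rw [hexp] at hα
      set a₀ := Classical.choose (core_loc (cS p q) (jet_sym hp hq)) with ha₀
      -- an exponent at most one
      set α' : ℝ := min α 1 with hα'
      have hα'0 : a₀ < α' := lt_min hα ha1
      have hα'1 : α' ≤ 1 := min_le_right _ _
      obtain ⟨ρ, hρ, hρU⟩ := Metric.mem_nhds_iff.mp hU
      have hU1 : U ∩ ball x₀ (1 / 2) ∈ 𝓝 x₀ :=
        Filter.inter_mem hU (ball_mem_nhds x₀ (by norm_num))
      obtain ⟨K', U', hU', hK'⟩ := jet_flat hO hp hf hx₀ (α := α') (K := max K 0)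
        (ha0.trans hα'0) hα'1 hU1 (by
          rintro z ⟨hzU, hzb⟩ hz0 x ⟨hxU, hxb⟩
          refine (hUf z hzU hz0 x hxU).trans ?_
          have hxz : ‖x - z‖ ≤ 1 := by
            rw [← dist_eq_norm]
            have h6 := mem_ball.mp hzb
            have h7 := mem_ball.mp hxb
            have h8 := dist_triangle_right x z x₀
            linarith
          have h9 : ‖x - z‖ ^ α ≤ ‖x - z‖ ^ α' := by
            rcases (norm_nonneg (x - z)).eq_or_lt with h10 | h10
            · rw [← h10, Real.zero_rpow (ne_of_gt (ha0.trans hα)),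
                Real.zero_rpow (ne_of_gt (ha0.trans hα'0))]
            · exact Real.rpow_le_rpow_of_exponent_ge h10 hxz (min_le_left _ _)
          calc K * ‖x - z‖ ^ α ≤ max K 0 * ‖x - z‖ ^ α :=
                mul_le_mul_of_nonneg_right (le_max_left _ _) (Real.rpow_nonneg (norm_nonneg _) _)
            _ ≤ max K 0 * ‖x - z‖ ^ α' :=
                mul_le_mul_of_nonneg_left h9 (le_max_right _ _))
      obtain ⟨V, hV, hxV, hVO, hVE⟩ := hcore O hO (gJ p f) (cJ p P) (dJ p P) hgc hcc hdc x₀ hx₀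
        (fun m i a => by
          have h11 : cS p (fun α => P α x₀) = cS p q := main_cS _ _ fun α hα => by
            simp only [hqdef, if_pos hα]
          change cS p (fun α => P α x₀) m i a = _
          rw [h11]) hEq K' α' hα'0 ⟨U', hU', hK'⟩
      exact ⟨V, hV, hxV, fun φ hφ => hVE mP φ hφ⟩
    · -- some derivative does not vanish
      have h12 : ∃ l : List (Fin n), l.length ≤ p - 1 ∧ dl (ee n) l f x₀ ≠ 0 := by
        by_contra hcon
        push Not at hcon
        exact hz fun k hk => iter_zero hO hf hx₀ hcon k (by omega)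
      obtain ⟨l, hl, hne⟩ := h12
      exact h1 l hl x₀ hx₀ hne
  intro φ hφ1 hφ2 hφ3
  have hφ : IsTest O φ := ⟨hφ1, hφ2, hφ3⟩
  rw [jet_pde hp hX hP hO hOX hf hφ]
  exact van_of_local hO (hGc mP) (hHc mP) subset_rfl h3 hφ

end Pool.Agent.Work.MP_375441_an.Hol
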