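import Pool.Agent.Work.MP_375441_an.Hol.Defs

/-!
# Module Planch: coercivity for constant coefficients (Plancherel)

Proof.  Each `v a` is a Schwartz function (`HasCompactSupport.toSchwartzMap`, or build
`SchwartzMap` by hand), and `pd (ee n i) (v a)` too; `𝓕 (∂_i v_a)(ξ) = 2π√-1 ξ_i 𝓕 v_a(ξ)`
(e.g. `Real.fourierIntegral_fderiv` / `Real.fourier_fderiv` in
Mathlib.Analysis.Fourier.FourierTransformDeriv, applied to `ee n i`, or `SchwartzMap` versions:
`SchwartzMap.fourier_lineDerivOp_eq`).  Plancherel (`SchwartzMap.integral_norm_sq_fourier` or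
`SchwartzMap.integral_inner_fourier_fourier`, also `integral_sesq_fourier_fourier`) for the
Schwartz function `∂_i v_a` and for the Schwartz function `∑_{i,a} c_{mia} ∂_i v_a`:
`∑_{i,a} ∫ ‖∂_i v_a‖² = ∫ 4π² (∑_i ξ_i²) ∑_a ‖𝓕 v_a(ξ)‖² dξ`,
`∑_m ∫ ‖∑ c_{mia} ∂_i v_a‖² = ∫ 4π² ∑_m ‖∑ c_{mia} ξ_i 𝓕 v_a(ξ)‖² dξ`;
compare the integrands with `h` at `w a = 𝓕 (v a) ξ` (all integrands are integrable, being norm
squares of Schwartz functions).
-/

open MeasureTheory Set Filter Topology Function Metric Module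
open scoped ContDiff

namespace Pool.Agent.Work.MP_375441_an.Hol

open Pool.Agent.Work.MP_375441_an

set_option linter.unusedSectionVars false

variable {n : ℕ} {ι M : Type} [Fintype ι] [Fintype M]

open scoped SchwartzMap FourierTransform LineDeriv

private lemma Planch_int (f : 𝓢(Sp n, ℂ)) : Integrable (fun x => ‖f x‖ ^ 2) :=
  (f.memLp 2 volume).integrable_norm_pow two_ne_zero

private lemma Planch_four (f : 𝓢(Sp n, ℂ)) (i : Fin n) (ξ : Sp n) :
    𝓕 (∂_{ee n i} f) ξ = (2 * Real.pi * Complex.I) * ((ξ i : ℝ) * 𝓕 f ξ) := by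
  rw [SchwartzMap.fourier_lineDerivOp_eq]
  have ht : (inner ℝ · (ee n i) : Sp n → ℝ).HasTemperateGrowth :=
    ((innerSL ℝ).flip (ee n i)).hasTemperateGrowth
  have h1 : inner ℝ ξ (ee n i) = ξ i := by
    unfold ee
    rw [real_inner_comm, EuclideanSpace.inner_single_left]
    simp
  rw [smul_apply, SchwartzMap.smulLeftCLM_apply_apply ht, h1, smul_eq_mul,
    Complex.real_smul]

private lemma Planch_sum (c : M → Fin n → ι → ℂ) (f : ι → 𝓢(Sp n, ℂ)) (m : M) (ξ : Sp n) :
    𝓕 (∑ i, ∑ a, c m i a • ∂_{ee n i} (f a)) ξ =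
      ∑ i, ∑ a, c m i a * 𝓕 (∂_{ee n i} (f a)) ξ := by
  have h1 : 𝓕 (∑ i, ∑ a, c m i a • ∂_{ee n i} (f a)) =
      ∑ i, ∑ a, c m i a • 𝓕 (∂_{ee n i} (f a)) := by
    rw [← SchwartzMap.fourierTransformCLM_apply ℂ, map_sum]
    apply Finset.sum_congr rfl
    intro i _
    rw [map_sum]
    apply Finset.sum_congr rfl
    intro a _
    rw [map_smul]
    rfl
  rw [h1, sum_apply]
  apply Finset.sum_congr rfl
  intro i _
  rw [sum_apply]
  rfl

theorem planch (c : M → Fin n → ι → ℂ) {θ : ℝ} (h : SymLow c θ) (v : ι → Sp n → ℂ)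
    (hv : ∀ a, IsTest univ (v a)) :
    θ * ∫ x, gsq v x ≤ ∫ x, lsq (fun m i a _ => c m i a) v x := by
  set f : ι → 𝓢(Sp n, ℂ) := fun a => (hv a).comp.toSchwartzMap (hv a).smooth with hf
  have hpd : ∀ i a x, pd (ee n i) (v a) x = (∂_{ee n i} (f a)) x := by
    intro i a x
    rw [SchwartzMap.lineDerivOp_apply]
    have hd : DifferentiableAt ℝ (v a) x := ((hv a).smooth.differentiable (by simp)) x
    have : lineDeriv ℝ (v a) x (ee n i) = fderiv ℝ (v a) x (ee n i) := hd.lineDeriv_eq_fderiv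
    exact this.symm
  have hg : ∫ x, gsq v x = ∫ ξ, ∑ i, ∑ a, ‖𝓕 (∂_{ee n i} (f a)) ξ‖ ^ 2 := by
    have e1 : ∀ x, gsq v x = ∑ i, ∑ a, ‖(∂_{ee n i} (f a)) x‖ ^ 2 := by
      intro x
      unfold gsq
      simp only [hpd]
    rw [integral_congr_ae (Eventually.of_forall e1)]
    rw [integral_finsetSum _ (fun i _ => integrable_finsetSum _ fun a _ => Planch_int _),
      integral_finsetSum _ (fun i _ => integrable_finsetSum _ fun a _ => Planch_int _)]
    apply Finset.sum_congr rfl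
    intro i _
    rw [integral_finsetSum _ (fun a _ => Planch_int _),
      integral_finsetSum _ (fun a _ => Planch_int _)]
    apply Finset.sum_congr rfl
    intro a _
    exact (SchwartzMap.integral_norm_sq_fourier _).symm
  have hl : ∫ x, lsq (fun m i a _ => c m i a) v x =
      ∫ ξ, ∑ m, ‖𝓕 (∑ i, ∑ a, c m i a • ∂_{ee n i} (f a)) ξ‖ ^ 2 := by
    have e1 : ∀ x, lsq (fun m i a _ => c m i a) v x =
        ∑ m, ‖(∑ i, ∑ a, c m i a • ∂_{ee n i} (f a)) x‖ ^ 2 := by
      intro x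
      unfold lsq Lop
      apply Finset.sum_congr rfl
      intro m _
      congr 2
      rw [sum_apply]
      apply Finset.sum_congr rfl
      intro i _
      rw [sum_apply]
      apply Finset.sum_congr rfl
      intro a _
      rw [hpd]
      rfl
    rw [integral_congr_ae (Eventually.of_forall e1)]
    rw [integral_finsetSum _ (fun m _ => Planch_int _),
      integral_finsetSum _ (fun m _ => Planch_int _)]
    apply Finset.sum_congr rfl
    intro m _
    exact (SchwartzMap.integral_norm_sq_fourier _).symm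
  rw [hg, hl, ← integral_const_mul]
  apply integral_mono
  · apply Integrable.const_mul
    exact integrable_finsetSum _ fun i _ => integrable_finsetSum _ fun a _ => Planch_int _
  · exact integrable_finsetSum _ fun m _ => Planch_int _
  · intro ξ
    simp only
    have h1 := h (fun i => ξ i) (fun a => 𝓕 (f a) ξ)
    have hpi : ‖(2 * Real.pi * Complex.I : ℂ)‖ ^ 2 = 4 * Real.pi ^ 2 := by
      rw [norm_mul, norm_mul, Complex.norm_I, Complex.norm_real, Real.norm_of_nonneg Real.pi_pos.le]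
      norm_num
      ring
    have e1 : ∑ i, ∑ a, ‖𝓕 (∂_{ee n i} (f a)) ξ‖ ^ 2 =
        4 * Real.pi ^ 2 * ((∑ i, ξ i ^ 2) * ∑ a, ‖𝓕 (f a) ξ‖ ^ 2) := by
      rw [Finset.sum_mul_sum, Finset.mul_sum]
      apply Finset.sum_congr rfl
      intro i _
      rw [Finset.mul_sum]
      apply Finset.sum_congr rfl
      intro a _
      rw [Planch_four, norm_mul, mul_pow, hpi, norm_mul, mul_pow, Complex.norm_real,
        Real.norm_eq_abs, sq_abs]
    have e2 : ∑ m, ‖𝓕 (∑ i, ∑ a, c m i a • ∂_{ee n i} (f a)) ξ‖ ^ 2 =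
        4 * Real.pi ^ 2 * ∑ m, ‖∑ i, ∑ a, c m i a * ((ξ i : ℂ) * 𝓕 (f a) ξ)‖ ^ 2 := by
      rw [Finset.mul_sum]
      apply Finset.sum_congr rfl
      intro m _
      rw [Planch_sum]
      have e3 : ∑ i, ∑ a, c m i a * 𝓕 (∂_{ee n i} (f a)) ξ = (2 * Real.pi * Complex.I) *
          ∑ i, ∑ a, c m i a * ((ξ i : ℂ) * 𝓕 (f a) ξ) := by
        rw [Finset.mul_sum]
        apply Finset.sum_congr rfl
        intro i _
        rw [Finset.mul_sum]
        apply Finset.sum_congr rfl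
        intro a _
        rw [Planch_four]
        ring
      rw [e3, norm_mul, mul_pow, hpi]
    rw [e1, e2]
    have h4 : 0 ≤ 4 * Real.pi ^ 2 := by positivity
    calc θ * (4 * Real.pi ^ 2 * ((∑ i, ξ i ^ 2) * ∑ a, ‖𝓕 (f a) ξ‖ ^ 2))
        = 4 * Real.pi ^ 2 * (θ * ((∑ i, ξ i ^ 2) * ∑ a, ‖𝓕 (f a) ξ‖ ^ 2)) := by ring
      _ ≤ _ := mul_le_mul_of_nonneg_left h1 h4

end Pool.Agent.Work.MP_375441_an.Hol
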