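import Pool.Agent.Work.MP_375441_an.Hol.Defs

/-!
# Module ProdR: product rules as inequalities

Proofs (pointwise, Cauchy-Schwarz; `pd_mul`).  `∂_i(λ z_a) = ∂_i λ z_a + λ ∂_i z_a`.
(gsq_prod) `‖p + q‖² ≥ ½‖q‖² - ‖p‖²` and `∑_{i,a} ‖∂_iλ z_a‖² = gs1 λ * nu z`.
(lsq_prod) `Lop c (λz) m = λ Lop c z m + ∑_{i,a} c ∂_iλ z_a`, `‖p+q‖² ≤ 2‖p‖²+2‖q‖²`, and
`∑_m ‖∑_{i,a} c_{mia} ∂_iλ z_a‖² ≤ ksq(c(x)) * (∑_{i,a} ‖∂_iλ z_a‖²)`.
(gs1_prod) is the same with one function.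
-/

open MeasureTheory Set Filter Topology Function Metric Module
open scoped ContDiff

namespace Pool.Agent.Work.MP_375441_an.Hol

open Pool.Agent.Work.MP_375441_an

set_option linter.unusedSectionVars false

variable {n : ℕ} {ι M : Type} [Fintype ι] [Fintype M]

private lemma prodR_low (p q : ℂ) : 1 / 2 * ‖q‖ ^ 2 - ‖p‖ ^ 2 ≤ ‖p + q‖ ^ 2 := by
  have h1 : ‖q‖ ≤ ‖p + q‖ + ‖p‖ := by
    have := norm_sub_le (p + q) p
    simpa using this
  have h2 : ‖q‖ ^ 2 ≤ (‖p + q‖ + ‖p‖) ^ 2 := pow_le_pow_left₀ (norm_nonneg _) h1 2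
  nlinarith [sq_nonneg (‖p + q‖ - ‖p‖)]

private lemma prodR_up (p q : ℂ) : ‖p + q‖ ^ 2 ≤ 2 * ‖p‖ ^ 2 + 2 * ‖q‖ ^ 2 := by
  have h1 : ‖p + q‖ ≤ ‖p‖ + ‖q‖ := norm_add_le p q
  have h2 : ‖p + q‖ ^ 2 ≤ (‖p‖ + ‖q‖) ^ 2 := pow_le_pow_left₀ (norm_nonneg _) h1 2
  nlinarith [sq_nonneg (‖p‖ - ‖q‖)]

private lemma prodR_cs (c w : Fin n → ι → ℂ) :
    ‖∑ i, ∑ a, c i a * w i a‖ ^ 2 ≤ (∑ i, ∑ a, ‖c i a‖ ^ 2) * ∑ i, ∑ a, ‖w i a‖ ^ 2 := by
  have h1 : ‖∑ i, ∑ a, c i a * w i a‖ ≤ ∑ x : Fin n × ι, ‖c x.1 x.2‖ * ‖w x.1 x.2‖ := by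
    rw [← Fintype.sum_prod_type' (f := fun i a => c i a * w i a)]
    refine (norm_sum_le _ _).trans ?_
    apply Finset.sum_le_sum
    intro x _
    rw [norm_mul]
  have h2 := Finset.sum_mul_sq_le_sq_mul_sq (Finset.univ : Finset (Fin n × ι))
    (fun x => ‖c x.1 x.2‖) (fun x => ‖w x.1 x.2‖)
  rw [Fintype.sum_prod_type (f := fun x : Fin n × ι => ‖c x.1 x.2‖ ^ 2),
    Fintype.sum_prod_type (f := fun x : Fin n × ι => ‖w x.1 x.2‖ ^ 2)] at h2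
  exact (pow_le_pow_left₀ (norm_nonneg _) h1 2).trans h2

private lemma prodR_split (lam : Sp n → ℂ) (z : ι → Sp n → ℂ) (x : Sp n) :
    ∑ i, ∑ a, ‖pd (ee n i) lam x * z a x‖ ^ 2 = gs1 lam x * nu z x := by
  unfold gs1 nu
  rw [Finset.sum_mul_sum]
  apply Finset.sum_congr rfl
  intro i _
  apply Finset.sum_congr rfl
  intro a _
  rw [norm_mul, mul_pow]

theorem gsq_prod {lam : Sp n → ℂ} {z : ι → Sp n → ℂ} {x : Sp n} (hl : DifferentiableAt ℝ lam x)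
    (hz : ∀ a, DifferentiableAt ℝ (z a) x) :
    1 / 2 * (‖lam x‖ ^ 2 * gsq z x) - gs1 lam x * nu z x ≤
      gsq (fun a y => lam y * z a y) x := by
  rw [← prodR_split]
  unfold gsq
  rw [Finset.mul_sum, Finset.mul_sum, ← Finset.sum_sub_distrib]
  apply Finset.sum_le_sum
  intro i _
  rw [Finset.mul_sum, Finset.mul_sum, ← Finset.sum_sub_distrib]
  apply Finset.sum_le_sum
  intro a _
  rw [pd_mul hl (hz a)]
  have h := prodR_low (pd (ee n i) lam x * z a x) (lam x * pd (ee n i) (z a) x)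
  rw [norm_mul (lam x), mul_pow] at h
  exact h

theorem lsq_prod (c : M → Fin n → ι → Sp n → ℂ) {lam : Sp n → ℂ} {z : ι → Sp n → ℂ} {x : Sp n}
    (hl : DifferentiableAt ℝ lam x) (hz : ∀ a, DifferentiableAt ℝ (z a) x) :
    lsq c (fun a y => lam y * z a y) x ≤ 2 * (‖lam x‖ ^ 2 * lsq c z x) +
      2 * (ksq (fun m i a => c m i a x) * (gs1 lam x * nu z x)) := by
  have hm : ∀ m, ‖Lop c (fun a y => lam y * z a y) m x‖ ^ 2 ≤
      2 * (‖lam x‖ ^ 2 * ‖Lop c z m x‖ ^ 2) +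
        2 * ((∑ i, ∑ a, ‖c m i a x‖ ^ 2) * (gs1 lam x * nu z x)) := by
    intro m
    have h1 : Lop c (fun a y => lam y * z a y) m x =
        lam x * Lop c z m x + ∑ i, ∑ a, c m i a x * (pd (ee n i) lam x * z a x) := by
      unfold Lop
      rw [Finset.mul_sum, ← Finset.sum_add_distrib]
      apply Finset.sum_congr rfl
      intro i _
      rw [Finset.mul_sum, ← Finset.sum_add_distrib]
      apply Finset.sum_congr rfl
      intro a _
      rw [pd_mul hl (hz a)]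
      ring
    rw [h1]
    refine (prodR_up _ _).trans ?_
    rw [norm_mul, mul_pow]
    have h2 := prodR_cs (fun i a => c m i a x) (fun i a => pd (ee n i) lam x * z a x)
    rw [prodR_split] at h2
    linarith
  unfold lsq ksq
  refine (Finset.sum_le_sum fun m _ => hm m).trans ?_
  rw [Finset.sum_add_distrib, ← Finset.mul_sum, ← Finset.mul_sum, ← Finset.mul_sum,
    ← Finset.sum_mul]

theorem gs1_prod {η K : Sp n → ℂ} {x : Sp n} (hη : DifferentiableAt ℝ η x)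
    (hK : DifferentiableAt ℝ K x) :
    gs1 (fun y => η y * K y) x ≤ 2 * (‖K x‖ ^ 2 * gs1 η x) + 2 * (‖η x‖ ^ 2 * gs1 K x) := by
  unfold gs1
  rw [Finset.mul_sum, Finset.mul_sum, Finset.mul_sum, Finset.mul_sum, ← Finset.sum_add_distrib]
  apply Finset.sum_le_sum
  intro i _
  rw [pd_mul hη hK]
  refine (prodR_up _ _).trans ?_
  rw [norm_mul, norm_mul, mul_pow, mul_pow, mul_comm (‖pd (ee n i) η x‖ ^ 2)]

theorem gsq_nonneg (u : ι → Sp n → ℂ) (x : Sp n) : 0 ≤ gsq u x :=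
  Finset.sum_nonneg fun _ _ => Finset.sum_nonneg fun _ _ => sq_nonneg _

theorem gs1_nonneg (u : Sp n → ℂ) (x : Sp n) : 0 ≤ gs1 u x :=
  Finset.sum_nonneg fun _ _ => sq_nonneg _

theorem nu_nonneg (u : ι → Sp n → ℂ) (x : Sp n) : 0 ≤ nu u x :=
  Finset.sum_nonneg fun _ _ => sq_nonneg _

/-- derivatives vanish outside the support -/
theorem gs1_zero {lam : Sp n → ℂ} {x : Sp n} (h : x ∉ tsupport lam) : gs1 lam x = 0 := by
  unfold gs1
  apply Finset.sum_eq_zero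
  intro i _
  have h1 : pd (ee n i) lam x = 0 :=
    image_eq_zero_of_notMem_tsupport fun hx => h (pd_tsupport (ee n i) lam hx)
  rw [h1]
  simp

end Pool.Agent.Work.MP_375441_an.Hol
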