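import Pool.Agent.Work.MP_375441_an.Hol.Defs

/-!
# Module Sym: the symbol is bounded below (compactness)

Proof.  The set `K = {(ξ, w) | ∑ ξ_i² = 1, ∑ ‖w_a‖² = 1}` in `(Fin n → ℝ) × (ι → ℂ)` is compact
(closed and bounded); the continuous function `F(ξ,w) = ∑_m ‖∑_{i,a} c_{mia} ξ_i w_a‖²` is positive
on it by `h` (`F = 0` forces every `m`-th sum to vanish, then `w = 0`, against `∑ ‖w_a‖² = 1`;
note `ξ ≠ 0`).  If `K` is empty take `θ = 1`; else `θ = min F > 0` (`IsCompact.exists_isMinOn`).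
For general `(ξ, w)`: if `∑ ξ_i² = 0` or `∑ ‖w_a‖² = 0` the left side is `0`; otherwise divide
by `s = √(∑ ξ_i²)` and `t = √(∑ ‖w_a‖²)`: `F(ξ/s, w/t) = F(ξ,w)/(s² t²)`.
-/

open MeasureTheory Set Filter Topology Function Metric Module
open scoped ContDiff

namespace Pool.Agent.Work.MP_375441_an.Hol

open Pool.Agent.Work.MP_375441_an

set_option linter.unusedSectionVars false

variable {n : ℕ} {ι M : Type} [Fintype ι] [Fintype M]

private noncomputable def Sym_F (c : M → Fin n → ι → ℂ) (p : (Fin n → ℝ) × (ι → ℂ)) : ℝ :=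
  ∑ m, ‖∑ i, ∑ a, c m i a * ((p.1 i : ℂ) * p.2 a)‖ ^ 2

private lemma Sym_cont (c : M → Fin n → ι → ℂ) : Continuous (Sym_F c) := by
  unfold Sym_F
  fun_prop

private lemma Sym_scale (c : M → Fin n → ι → ℂ) (ξ : Fin n → ℝ) (w : ι → ℂ) (s t : ℝ) :
    Sym_F c (fun i => s * ξ i, fun a => (t : ℂ) * w a) = s ^ 2 * t ^ 2 * Sym_F c (ξ, w) := by
  unfold Sym_F
  rw [Finset.mul_sum]
  apply Finset.sum_congr rfl
  intro m _
  have h : ∑ i, ∑ a, c m i a * (((s * ξ i : ℝ) : ℂ) * ((t : ℂ) * w a)) =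
      ((s : ℂ) * t) * ∑ i, ∑ a, c m i a * ((ξ i : ℂ) * w a) := by
    rw [Finset.mul_sum]
    apply Finset.sum_congr rfl
    intro i _
    rw [Finset.mul_sum]
    apply Finset.sum_congr rfl
    intro a _
    push_cast
    ring
  simp only
  rw [h, norm_mul, norm_mul, mul_pow, mul_pow, Complex.norm_real, Complex.norm_real,
    Real.norm_eq_abs, Real.norm_eq_abs, sq_abs, sq_abs]

private lemma Sym_compact (n : ℕ) (ι : Type) [Fintype ι] :
    IsCompact {p : (Fin n → ℝ) × (ι → ℂ) | ∑ i, p.1 i ^ 2 = 1 ∧ ∑ a, ‖p.2 a‖ ^ 2 = 1} := by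
  apply Metric.isCompact_of_isClosed_isBounded
  · apply IsClosed.inter
    · exact isClosed_eq (by fun_prop) continuous_const
    · exact isClosed_eq (by fun_prop) continuous_const
  · apply (isBounded_closedBall (x := (0 : (Fin n → ℝ) × (ι → ℂ))) (r := 1)).subset
    rintro ⟨ξ, w⟩ ⟨h1, h2⟩
    simp only at h1 h2
    rw [mem_closedBall_zero_iff, norm_prod_le_iff]
    constructor
    · rw [pi_norm_le_iff_of_nonneg zero_le_one]
      intro i
      have h3 : ξ i ^ 2 ≤ ∑ i, ξ i ^ 2 :=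
        Finset.single_le_sum (f := fun i => ξ i ^ 2) (fun j _ => sq_nonneg _) (Finset.mem_univ i)
      rw [h1] at h3
      rw [Real.norm_eq_abs]
      exact (sq_le_one_iff_abs_le_one _).1 h3
    · rw [pi_norm_le_iff_of_nonneg zero_le_one]
      intro a
      have h3 : ‖w a‖ ^ 2 ≤ ∑ a, ‖w a‖ ^ 2 :=
        Finset.single_le_sum (f := fun a => ‖w a‖ ^ 2) (fun j _ => sq_nonneg _) (Finset.mem_univ a)
      rw [h2] at h3
      exact (sq_le_one_iff₀ (norm_nonneg _)).1 h3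

theorem exists_symLow (c : M → Fin n → ι → ℂ)
    (h : ∀ ξ : Fin n → ℝ, ξ ≠ 0 → ∀ w : ι → ℂ,
      (∀ m, ∑ i, ∑ a, c m i a * ((ξ i : ℂ) * w a) = 0) → w = 0) :
    ∃ θ > 0, SymLow c θ := by
  set K := {p : (Fin n → ℝ) × (ι → ℂ) | ∑ i, p.1 i ^ 2 = 1 ∧ ∑ a, ‖p.2 a‖ ^ 2 = 1} with hK
  have hmin : ∃ θ > 0, ∀ p ∈ K, θ ≤ Sym_F c p := by
    rcases K.eq_empty_or_nonempty with he | hne
    · refine ⟨1, one_pos, ?_⟩
      intro p hp
      rw [he] at hp
      exact absurd hp (notMem_empty _)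
    · obtain ⟨p, hp, hpm⟩ := (Sym_compact n ι).exists_isMinOn hne (Sym_cont c).continuousOn
      refine ⟨Sym_F c p, ?_, fun q hq => hpm hq⟩
      have h0 : 0 ≤ Sym_F c p := Finset.sum_nonneg fun m _ => by positivity
      rcases h0.lt_or_eq with h1 | h1
      · exact h1
      · exfalso
        have h2 : ∀ m, ∑ i, ∑ a, c m i a * ((p.1 i : ℂ) * p.2 a) = 0 := by
          intro m
          have h3 := (Finset.sum_eq_zero_iff_of_nonneg (fun m _ => by positivity)).1 h1.symm m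
            (Finset.mem_univ m)
          exact norm_eq_zero.1 ((pow_eq_zero_iff (by norm_num)).1 h3)
        have h4 : p.1 ≠ 0 := by
          intro h5
          have h6 := hp.1
          rw [h5] at h6
          simp at h6
        have h5 := h p.1 h4 p.2 h2
        have h6 := hp.2
        rw [h5] at h6
        simp at h6
  obtain ⟨θ, hθ, hmin⟩ := hmin
  refine ⟨θ, hθ, ?_⟩
  intro ξ w
  show θ * ((∑ i, ξ i ^ 2) * ∑ a, ‖w a‖ ^ 2) ≤ Sym_F c (ξ, w)
  have hF0 : 0 ≤ Sym_F c (ξ, w) := Finset.sum_nonneg fun m _ => by positivity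
  have hS0 : 0 ≤ ∑ i, ξ i ^ 2 := Finset.sum_nonneg fun m _ => by positivity
  have hT0 : 0 ≤ ∑ a, ‖w a‖ ^ 2 := Finset.sum_nonneg fun m _ => by positivity
  rcases hS0.lt_or_eq with hS | hS
  swap
  · rw [← hS]; simpa using hF0
  rcases hT0.lt_or_eq with hT | hT
  swap
  · rw [← hT]; simpa using hF0
  set s := √(∑ i, ξ i ^ 2) with hs
  set t := √(∑ a, ‖w a‖ ^ 2) with ht
  have hs0 : 0 < s := Real.sqrt_pos.2 hS
  have ht0 : 0 < t := Real.sqrt_pos.2 hT
  have hs2 : s ^ 2 = ∑ i, ξ i ^ 2 := Real.sq_sqrt hS0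
  have ht2 : t ^ 2 = ∑ a, ‖w a‖ ^ 2 := Real.sq_sqrt hT0
  have h1 : Sym_F c (ξ, w) = s ^ 2 * t ^ 2 * Sym_F c (fun i => s⁻¹ * ξ i, fun a => ((t⁻¹ : ℝ) : ℂ) * w a) := by
    rw [Sym_scale]
    field_simp
  have h2 : θ ≤ Sym_F c (fun i => s⁻¹ * ξ i, fun a => ((t⁻¹ : ℝ) : ℂ) * w a) := by
    apply hmin
    rw [hK]
    constructor
    · simp only [mul_pow]
      rw [← Finset.mul_sum, ← hs2]
      field_simp
    · simp only [norm_mul, mul_pow, Complex.norm_real, Real.norm_eq_abs, sq_abs]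
      rw [← Finset.mul_sum, ← ht2]
      field_simp
  rw [h1, ← hs2, ← ht2, mul_comm θ]
  exact mul_le_mul_of_nonneg_left h2 (by positivity)

end Pool.Agent.Work.MP_375441_an.Hol
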